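import Pool.Agent.Helper93.TS.Zero
import Pool.Agent.Helper91.CPX.PolyBound

/-!
TS-13 DivS (project TS, MP_464c42_nt). Cancellation of a moderate factor.

Proof. By `poly_bound` (`Helper91/CPX/PolyBound.lean`, `𝒮.ev_def`) there is `C ≥ 1` with `|s(z)| ≤ X ^ C` for almost all `ν` and all `z ∈ T ν`; `{s(z) = 0}` is small (`𝒮.small_zero`). Let `H`, `j` be
given, `H' = 2 j C + 1`. Let `s(z) ≠ 0` and `P = ∏ p ∈ q with p ^ H' ∣ s(z), p`. The numbers `p ^ H'` are pairwise coprime divisors of `s(z)`, so `P ^ H' ∣ s(z)`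
(`Finset.prod_dvd_of_coprime`, `Finset.prod_pow`), `P ^ H' ≤ X ^ C`, so `P ^ (2 j C) ≤ X ^ C`, hence `P ^ (2 j) ≤ X` (`C ≥ 1`, `pow_left_injective`/`lt_of_pow_lt_pow_left`). If `p ∈ q` satisfies
`p ^ (H + H') ∣ s f` and not `p ^ H' ∣ s` then `p ^ H ∣ f` (`p` is prime: let `v < H'` be maximal with `p ^ v ∣ s`, `s = p ^ v s'`, `p` does not divide `s'`, `p ^ (H + H' - v) ∣ s' f`, so `p ^ H ∣ f`). So
`bad q H f ≤ P * bad q (H + H') (s f)`. If `X < (bad q H f) ^ j` then `X ^ 2 < (P * bad ..) ^ (2 j) ≤ X * (bad q (H + H') (s f)) ^ (2 j)`, so `X < (bad q (H + H') (s f)) ^ (2 j)`: small by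
`hf (H + H') (2 j)`.
-/

set_option autoImplicit false

open MvPolynomial

namespace Pool.Agent.Helper93.TS

open Pool.Agent.Helper91.CPX Pool.Agent.Helper85.VA

/-- Cancellation in one prime. -/
private theorem divs_prime {p H H' : ℕ} (hp : p.Prime) {s f : ℤ} (h1 : (p : ℤ) ^ (H + H') ∣ s * f)
    (h2 : ¬ (p : ℤ) ^ H' ∣ s) : (p : ℤ) ^ H ∣ f := by
  have hp' : Prime (p : ℤ) := Nat.prime_iff_prime_int.mp hp
  rw [add_comm] at h1
  induction H' generalizing s with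
  | zero => simp at h2
  | succ k ih =>
    by_cases hps : (p : ℤ) ∣ s
    · obtain ⟨s', rfl⟩ := hps
      have hp0 : (p : ℤ) ≠ 0 := hp'.ne_zero
      refine ih (s := s') ?_ ?_
      · have : (p : ℤ) * (p : ℤ) ^ (k + H) ∣ (p : ℤ) * (s' * f) := by
          rw [← pow_succ', ← mul_assoc, show k + H + 1 = k + 1 + H by ring]
          exact h1
        exact (mul_dvd_mul_iff_left hp0).mp this
      · intro h
        apply h2
        rw [pow_succ']
        exact mul_dvd_mul_left _ h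
    · have h3 : (p : ℤ) ^ (k + 1 + H) ∣ f := by
        have hc : IsCoprime ((p : ℤ) ^ (k + 1 + H)) s :=
          (IsCoprime.pow_left ((Prime.coprime_iff_not_dvd hp').mpr hps))
        exact hc.dvd_of_dvd_mul_left h1
      exact (pow_dvd_pow _ (by omega)).trans h3

open scoped Classical in
private theorem divs_bad {q H H' : ℕ} {s f : ℤ} :
    bad q H f ≤ (∏ p ∈ q.primeFactors.filter (fun p : ℕ => (p : ℤ) ^ H' ∣ s), p) *
      bad q (H + H') (s * f) := by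
  unfold bad
  set A := q.primeFactors.filter (fun p : ℕ => ¬ (p : ℤ) ^ H ∣ f) with hA
  set B := q.primeFactors.filter (fun p : ℕ => (p : ℤ) ^ H' ∣ s) with hB
  set C := q.primeFactors.filter (fun p : ℕ => ¬ (p : ℤ) ^ (H + H') ∣ s * f) with hC
  have hpos : ∀ p ∈ q.primeFactors, 1 ≤ p := fun p hp => (Nat.prime_of_mem_primeFactors hp).one_le
  have hsub : A ⊆ B ∪ C := by
    intro p hp
    rw [hA, Finset.mem_filter] at hp
    rw [Finset.mem_union, hB, hC, Finset.mem_filter, Finset.mem_filter]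
    by_cases h1 : (p : ℤ) ^ H' ∣ s
    · exact Or.inl ⟨hp.1, h1⟩
    · refine Or.inr ⟨hp.1, fun h2 => hp.2 ?_⟩
      exact divs_prime (Nat.prime_of_mem_primeFactors hp.1) h2 h1
  have h1 : ∏ p ∈ A, p ≤ ∏ p ∈ B ∪ C, p := by
    refine Finset.prod_le_prod_of_subset_of_one_le' hsub fun p hp _ => ?_
    rw [Finset.mem_union, hB, hC, Finset.mem_filter, Finset.mem_filter] at hp
    rcases hp with h | h
    · exact hpos p h.1
    · exact hpos p h.1
  have h2 := Finset.prod_union_inter (s₁ := B) (s₂ := C) (f := fun p : ℕ => p)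
  have h3 : 1 ≤ ∏ p ∈ B ∩ C, p := by
    refine Finset.one_le_prod' fun p hp => ?_
    rw [Finset.mem_inter, hB, Finset.mem_filter] at hp
    exact hpos p hp.1.1
  calc ∏ p ∈ A, p ≤ ∏ p ∈ B ∪ C, p := h1
    _ ≤ (∏ p ∈ B ∪ C, p) * ∏ p ∈ B ∩ C, p := Nat.le_mul_of_pos_right _ h3
    _ = _ := h2

open scoped Classical in
private theorem divs_dvd {q H' : ℕ} {s : ℤ} :
    (((∏ p ∈ q.primeFactors.filter (fun p : ℕ => (p : ℤ) ^ H' ∣ s), p : ℕ) : ℤ)) ^ H' ∣ s := by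
  push_cast
  rw [← Finset.prod_pow]
  refine Finset.prod_dvd_of_coprime ?_ ?_
  · intro a ha b hb hab
    simp only [Finset.coe_filter, Set.mem_ofPred_eq] at ha hb
    have h1 : Nat.Coprime a b := (Nat.coprime_primes (Nat.prime_of_mem_primeFactors ha.1)
      (Nat.prime_of_mem_primeFactors hb.1)).mpr hab
    exact (IsCoprime.pow (Nat.isCoprime_iff_coprime.mpr h1))
  · intro p hp
    exact (Finset.mem_filter.mp hp).2

theorem zero_div {ι : Type} [Fintype ι] [DecidableEq ι] {𝒮 : Setup ι} {q : ℕ → ℕ}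
    {Q : ℕ → (ι → ℤ) → Prop} {f : ℕ → (ι → ℤ) → ℤ} (s : MvPolynomial ι (Zb 𝒮.F))
    (hs : 𝒮.cls s ≠ 0) (hf : Zero 𝒮 q Q (fun ν z => 𝒮.ev ν z s * f ν z)) : Zero 𝒮 q Q f := by
  classical
  intro H j
  obtain ⟨C₀, hC₀⟩ := poly_bound 𝒮.F 𝒮.T 𝒮.bdd s
  set C := C₀ + 1 with hC
  have hCb : ∀ᶠ ν in (𝒮.F.U : Filter ℕ), ∀ z ∈ 𝒮.T ν, |𝒮.ev ν z s| ≤ (𝒮.F.X ν : ℤ) ^ C := by
    filter_upwards [hC₀] with ν h z hz
    rw [𝒮.ev_def]
    exact (h z hz).trans (𝒮.F.pow_mono ν (by omega))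
  set H' := 2 * j * C + 1 with hH'
  refine ((𝒮.small_zero hs).or (hf (H + H') (2 * j))).mono ?_
  filter_upwards [hCb] with ν hν z hz hQ
  obtain ⟨hQ1, hQ2⟩ := hQ
  by_cases h0 : 𝒮.ev ν z s = 0
  · exact Or.inl h0
  refine Or.inr ⟨hQ1, ?_⟩
  set S := 𝒮.ev ν z s with hS
  set X := 𝒮.F.X ν with hX
  set P := ∏ p ∈ (q ν).primeFactors.filter (fun p : ℕ => (p : ℤ) ^ H' ∣ S), p with hP
  set B := bad (q ν) (H + H') (S * f ν z) with hB
  have hPpos : 1 ≤ P := by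
    refine Finset.one_le_prod' fun p hp => ?_
    rw [Finset.mem_filter] at hp
    exact (Nat.prime_of_mem_primeFactors hp.1).one_le
  have h1 : P ^ H' ≤ X ^ C := by
    have h2 : (P : ℤ) ^ H' ∣ S := divs_dvd
    have h3 : (P : ℤ) ^ H' ≤ |S| := by
      have := Int.le_of_dvd (abs_pos.mpr h0) ((dvd_abs _ _).mpr h2)
      exact this
    have h4 := h3.trans (hν z hz)
    exact_mod_cast h4
  have h2 : P ^ (2 * j) ≤ X := by
    have h3 : (P ^ (2 * j)) ^ C ≤ X ^ C := by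
      rw [← pow_mul]
      exact (Nat.pow_le_pow_right hPpos (by omega)).trans h1
    exact le_of_not_gt fun hlt => absurd h3 (not_le.mpr (Nat.pow_lt_pow_left hlt (by omega)))
  have h3 : bad (q ν) H (f ν z) ≤ P * B := divs_bad
  have hXpos : 0 < X := by have := 𝒮.F.two_le ν; omega
  have h4 : X ^ 2 < (bad (q ν) H (f ν z)) ^ (2 * j) := by
    rw [mul_comm, pow_mul]
    exact Nat.pow_lt_pow_left hQ2 (by norm_num)
  have h5 : (bad (q ν) H (f ν z)) ^ (2 * j) ≤ X * B ^ (2 * j) := by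
    calc (bad (q ν) H (f ν z)) ^ (2 * j) ≤ (P * B) ^ (2 * j) := Nat.pow_le_pow_left h3 _
      _ = P ^ (2 * j) * B ^ (2 * j) := mul_pow _ _ _
      _ ≤ _ := Nat.mul_le_mul_right _ h2
  have h6 : X * X < X * B ^ (2 * j) := by
    rw [← pow_two]
    exact h4.trans_le h5
  exact Nat.lt_of_mul_lt_mul_left h6

end Pool.Agent.Helper93.TS
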