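import Pool.Agent.Helper93.TS.TaylorQ

/-!
TS-04 Rescale (project TS, MP_464c42_nt). Rescaling of a system of equations with degenerate Jacobian.

`scal v L L' i`: `L'` for the bound indices (in the range of `v`), `L` for the others.

Proof of `rescale`. Put `L = ρ ^ (2 H) = (μ μ') ^ 2`, `lam_i = scal v L (μ μ' ^ 2) i`, `c i = C (lam_i) * X i`, `K = adjugate J0`, `K * J0 = (μ u) • 1`
(`Matrix.adjugate_mul`). `taylor_quad` for `g a`: `aeval (C Q0 + c) (g a) - C (eval Q0 (g a)) = ∑ i, C (∂_i g_a) lam_i X_i + ∑ lam_i lam_j X_i X_j h^a_ij`.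
For all `i, j`: `L ∣ lam_i * lam_j`, say `lam_i lam_j = L * κ_ij` (`κ = L`, `μ μ' ^ 2`, `μ' ^ 2` for none, one, both of `i, j` bound). Multiply by `K b a` and sum over `a`: the
linear terms in the bound variables give `∑_b' (K J0)_{b b'} μ μ' ^ 2 X_{v b'} = μ u μ μ' ^ 2 X_{v b} = L u X_{v b}`; the linear terms in the free variables
are `L ∑_{i free} C (∑_a K b a ∂_i g_a) X_i`. So
`G b = C u * X (v b) + ∑_{i not in range v} C (∑_a K b a * ∂_i g_a (Q0)) * X i + ∑_a ∑_i ∑_j C (K b a * κ_ij) * X i * X j * h^a_ij`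
satisfies `L * G b = ∑_a K b a (...)`, also after evaluation at `x` (`eval x (aeval P g) = eval (fun i => eval x (P i)) g`). Derivative at `0` with respect to
`X (v b')`: the quadratic terms give `0` (product rule, `X i` and `X j` vanish at `0`), the free linear terms `0`, the first `u` if `b = b'`, else `0`
(`v` injective).
-/

set_option autoImplicit false

open MvPolynomial

namespace Pool.Agent.Helper93.TS

open scoped Classical in
/-- `L'` for the indices in the range of `v`, `L` for the others. -/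
noncomputable def scal {σ κ : Type} (v : κ ↪ σ) (L L' : ℤ) (i : σ) : ℤ :=
  if i ∈ Set.range v then L' else L

private theorem ev_ae {σ τ : Type} (P : σ → MvPolynomial τ ℤ) (x : τ → ℤ)
    (p : MvPolynomial σ ℤ) : eval x (aeval P p) = eval (fun i => eval x (P i)) p := by
  induction p using MvPolynomial.induction_on with
  | C r => simp
  | add p q hp hq => rw [map_add, map_add, map_add, hp, hq]
  | mul_X p n hp => rw [map_mul, map_mul, map_mul, hp, aeval_X, eval_X]

theorem rescale {σ κ : Type} [Fintype σ] [DecidableEq σ] [Fintype κ] [DecidableEq κ]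
    (v : κ ↪ σ) (g : κ → MvPolynomial σ ℤ) (Q0 : σ → ℤ) (ρ : ℤ) (H : ℕ) (μ u μ' : ℤ)
    (hdet : Matrix.det (Matrix.of fun a b : κ => eval Q0 (pderiv (v b) (g a))) = μ * u)
    (hμ : μ * μ' = ρ ^ H) :
    ∃ G : κ → MvPolynomial σ ℤ,
      (∀ b b', eval (0 : σ → ℤ) (pderiv (v b') (G b)) = if b = b' then u else 0) ∧
      ∀ (x : σ → ℤ) (b : κ), ρ ^ (2 * H) * eval x (G b) =
        ∑ a, Matrix.adjugate (Matrix.of fun a b : κ => eval Q0 (pderiv (v b) (g a))) b a *
          (eval (fun i => Q0 i + scal v (ρ ^ (2 * H)) (μ * μ' ^ 2) i * x i) (g a) -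
            eval Q0 (g a)) := by
  classical
  obtain ⟨L, hL⟩ : ∃ L, L = ρ ^ (2 * H) := ⟨_, rfl⟩
  obtain ⟨L', hL'⟩ : ∃ L', L' = μ * μ' ^ 2 := ⟨_, rfl⟩
  obtain ⟨lam, hlam⟩ : ∃ lam : σ → ℤ, lam = scal v L L' := ⟨_, rfl⟩
  have hLsq : L = μ ^ 2 * μ' ^ 2 := by
    rw [hL, mul_comm 2 H, pow_mul, ← hμ]
    ring
  obtain ⟨J, hJ⟩ : ∃ J : Matrix κ κ ℤ,
      J = Matrix.of fun a b : κ => eval Q0 (pderiv (v b) (g a)) := ⟨_, rfl⟩
  obtain ⟨K, hK⟩ : ∃ K, K = J.adjugate := ⟨_, rfl⟩
  rw [← hJ] at hdet ⊢
  rw [← hK, ← hL, ← hL', ← hlam]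
  have hKJ : K * J = (μ * u) • (1 : Matrix κ κ ℤ) := by rw [hK, Matrix.adjugate_mul, hdet]
  have hKJ' : ∀ b b', ∑ a, K b a * eval Q0 (pderiv (v b') (g a)) =
      if b = b' then μ * u else 0 := by
    intro b b'
    have h1 := congrFun (congrFun hKJ b) b'
    rw [Matrix.mul_apply, Matrix.smul_apply, Matrix.one_apply, hJ] at h1
    simpa [Matrix.of_apply] using h1
  have htay := fun a => taylor_quad (g a) Q0 (fun i => C (lam i) * X i : σ → MvPolynomial σ ℤ)
  choose h hh using htay
  have hkap0 : ∀ i j, ∃ k : ℤ, lam i * lam j = L * k := by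
    intro i j
    rw [hlam]
    unfold scal
    split_ifs with h1 h2 h2
    · exact ⟨μ' ^ 2, by rw [hL', hLsq]; ring⟩
    · exact ⟨L', by ring⟩
    · exact ⟨L', by ring⟩
    · exact ⟨L, by ring⟩
  choose kap hkap using hkap0
  have hlamv : ∀ b, lam (v b) = L' := by
    intro b
    rw [hlam]
    unfold scal
    rw [if_pos ⟨b, rfl⟩]
  have hlamf : ∀ i, i ∉ Set.range v → lam i = L := by
    intro i hi
    rw [hlam]
    unfold scal
    rw [if_neg hi]
  refine ⟨fun b => (∑ i, C (if i ∈ Set.range v then 0 else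
      ∑ a, K b a * eval Q0 (pderiv i (g a))) * X i) + C u * X (v b) +
      ∑ a, ∑ i, ∑ j, C (K b a * kap i j) * X i * X j * h a i j, ?_, ?_⟩
  · intro b b'
    have hX : ∀ (c : ℤ) (i : σ), eval (0 : σ → ℤ) (pderiv (v b') (C c * X i)) =
        if i = v b' then c else 0 := by
      intro c i
      rw [Derivation.leibniz, pderiv_C, pderiv_X, smul_zero, add_zero, smul_eq_mul, map_mul, eval_C]
      by_cases hi : i = v b'
      · rw [if_pos hi, hi, Pi.single_eq_same, map_one, mul_one]
      · rw [if_neg hi, Pi.single_eq_of_ne hi, map_zero, mul_zero]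
    have hQ : ∀ (c : ℤ) (i j : σ) (B : MvPolynomial σ ℤ),
        eval (0 : σ → ℤ) (pderiv (v b') (C c * X i * X j * B)) = 0 := by
      intro c i j B
      rw [Derivation.leibniz, Derivation.leibniz]
      simp
    rw [map_add, map_add, map_add, map_add, hX, map_sum, map_sum, map_sum, map_sum]
    rw [Finset.sum_congr rfl fun i _ => hX _ i, Finset.sum_ite_eq' Finset.univ (v b'),
      if_pos (Finset.mem_univ _), if_pos ⟨b', rfl⟩, zero_add]
    rw [Finset.sum_eq_zero, add_zero]
    · by_cases hb : b = b'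
      · rw [if_pos hb, if_pos (by rw [hb])]
      · rw [if_neg hb, if_neg (fun h1 => hb (v.injective h1))]
    · intro a _
      rw [map_sum, map_sum]
      refine Finset.sum_eq_zero fun i _ => ?_
      rw [map_sum, map_sum]
      exact Finset.sum_eq_zero fun j _ => hQ _ i j _
  · intro x b
    have hdiff : ∀ a, eval (fun i => Q0 i + lam i * x i) (g a) - eval Q0 (g a) =
        ∑ i, eval Q0 (pderiv i (g a)) * (lam i * x i) +
          ∑ i, ∑ j, (lam i * x i) * (lam j * x j) * eval x (h a i j) := by
      intro a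
      have h1 := congrArg (eval x) (hh a)
      have h2 : eval x (aeval (fun i => C (Q0 i) + C (lam i) * X i : σ → MvPolynomial σ ℤ) (g a)) =
          eval (fun i => Q0 i + lam i * x i) (g a) := by
        have h3 : (fun i => Q0 i + lam i * x i) =
            fun i => eval x (C (Q0 i) + C (lam i) * X i : MvPolynomial σ ℤ) := by
          funext i
          rw [map_add, map_mul, eval_C, eval_C, eval_X]
        rw [h3]
        exact ev_ae _ x (g a)
      rw [h2] at h1
      rw [h1]
      simp only [map_add, map_sum, map_mul, eval_C, eval_X]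
      ring
    rw [Finset.sum_congr rfl fun a _ => by rw [hdiff a]]
    have hlin : ∑ a, K b a * ∑ i, eval Q0 (pderiv i (g a)) * (lam i * x i) =
        L * (∑ i, (if i ∈ Set.range v then 0 else
          ∑ a, K b a * eval Q0 (pderiv i (g a))) * x i + u * x (v b)) := by
      have h1 : ∑ a, K b a * ∑ i, eval Q0 (pderiv i (g a)) * (lam i * x i) =
          ∑ i, (∑ a, K b a * eval Q0 (pderiv i (g a))) * (lam i * x i) := by
        simp only [Finset.mul_sum, Finset.sum_mul]
        rw [Finset.sum_comm]
        refine Finset.sum_congr rfl fun i _ => Finset.sum_congr rfl fun a _ => ?_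
        ring
      have h2 : ∀ i, (∑ a, K b a * eval Q0 (pderiv i (g a))) * (lam i * x i) =
          (if i ∈ Set.range v then (∑ a, K b a * eval Q0 (pderiv i (g a))) * (L' * x i) else 0) +
          L * ((if i ∈ Set.range v then 0 else
            ∑ a, K b a * eval Q0 (pderiv i (g a))) * x i) := by
        intro i
        by_cases hi : i ∈ Set.range v
        · rw [if_pos hi, if_pos hi, zero_mul, mul_zero, add_zero]
          obtain ⟨b', rfl⟩ := hi
          rw [hlamv]
        · rw [if_neg hi, if_neg hi, zero_add, hlamf i hi]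
          ring
      have h3 : ∑ i, (if i ∈ Set.range v then
          (∑ a, K b a * eval Q0 (pderiv i (g a))) * (L' * x i) else 0) = L * (u * x (v b)) := by
        rw [← Finset.sum_filter]
        have h4 : (Finset.univ.filter fun i : σ => i ∈ Set.range v) = Finset.univ.map v := by
          ext i
          simp
        rw [h4, Finset.sum_map]
        rw [Finset.sum_congr rfl fun b' _ => by rw [hKJ' b b']]
        simp only [ite_mul, zero_mul]
        rw [Finset.sum_ite_eq Finset.univ b, if_pos (Finset.mem_univ _), hL', hLsq]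
        ring
      rw [h1, Finset.sum_congr rfl fun i _ => h2 i, Finset.sum_add_distrib, h3, ← Finset.mul_sum]
      ring
    have hquad : ∑ a, K b a * ∑ i, ∑ j, (lam i * x i) * (lam j * x j) * eval x (h a i j) =
        L * ∑ a, ∑ i, ∑ j, K b a * kap i j * x i * x j * eval x (h a i j) := by
      simp only [Finset.mul_sum]
      refine Finset.sum_congr rfl fun a _ => Finset.sum_congr rfl fun i _ =>
        Finset.sum_congr rfl fun j _ => ?_
      calc K b a * (lam i * x i * (lam j * x j) * eval x (h a i j)) =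
          (lam i * lam j) * (K b a * x i * x j * eval x (h a i j)) := by ring
        _ = _ := by rw [hkap]; ring
    simp only [mul_add, Finset.sum_add_distrib]
    rw [hlin, hquad]
    simp only [map_add, map_sum, map_mul, eval_C, eval_X]
    ring

end Pool.Agent.Helper93.TS
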