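import Pool.Agent.Helper93.TS.DMC
import Pool.Agent.Helper93.TS.Rescale

/-!
TS-05 DMH (project TS, MP_464c42_nt). The determinant lemma for a degenerate Jacobian.

Proof. Write `Q k i - Q0 i = ρ ^ (2 H + 1) * t k i`. Let `x k i = ρ * t k i` if `i` is not in the range of `v`, and `x k i = μ * (ρ * t k i)` if it is.
With `lam_i = scal v (ρ ^ (2 H)) (μ μ' ^ 2) i`: `Q0 i + lam_i * x k i = Q k i` in both cases (`μ μ' ^ 2 μ = (μ μ') ^ 2 = ρ ^ (2 H)`).
`G` from `rescale`. Apply `DMC` with `g := G`, `Q0 := 0`, `Q := x`, `f a := aeval (fun i => C (Q0 i) + C (lam_i) * X i) (f a)` (so that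
`eval (x k) (f' a) = eval (Q k) (f a)`; `eval_aeval` style lemma), the same `E`: the Jacobian matrix of `G` at `0` is `u • 1`, of determinant `u ^ card κ`
(`Matrix.det_smul`, `Matrix.det_one` or `Matrix.det_diagonal`), coprime to `ρ` (`IsCoprime.pow_right`); `ρ ∣ x k i - 0`; and `ρ ^ (2 H) * eval (x k) (G b) = ∑ adj * (g_a(Q k) - g_a(Q0))` is
divisible by `ρ ^ (E + 2 H)`, so `ρ ^ E ∣ eval (x k) (G b)` (cancel `ρ ^ (2 H) ≠ 0`, `mul_dvd_mul_iff_left`).
-/

set_option autoImplicit false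

open MvPolynomial

namespace Pool.Agent.Helper93.TS

open Pool.Agent.Helper91.CPX

private theorem dmh_ev {σ τ : Type} (P : σ → MvPolynomial τ ℤ) (x : τ → ℤ)
    (p : MvPolynomial σ ℤ) : eval x (aeval P p) = eval (fun i => eval x (P i)) p := by
  induction p using MvPolynomial.induction_on with
  | C r => simp
  | add p q hp hq => rw [map_add, map_add, map_add, hp, hq]
  | mul_X p n hp => rw [map_mul, map_mul, map_mul, hp, aeval_X, eval_X]

theorem DMH {σ κ : Type} [Fintype σ] [DecidableEq σ] [Fintype κ] [DecidableEq κ] {s : ℕ}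
    (ρ : ℕ) (hρ : 1 ≤ ρ) (H : ℕ) (v : κ ↪ σ) (g : κ → MvPolynomial σ ℤ) (Q0 : σ → ℤ)
    (μ u μ' : ℤ)
    (hdet : Matrix.det (Matrix.of fun a b : κ => eval Q0 (pderiv (v b) (g a))) = μ * u)
    (hμ : μ * μ' = (ρ : ℤ) ^ H) (hu : IsCoprime (ρ : ℤ) u)
    (f : Fin s → MvPolynomial σ ℤ) (Q : Fin s → σ → ℤ)
    (hQ : ∀ k i, (ρ : ℤ) ^ (2 * H + 1) ∣ Q k i - Q0 i) (E : ℕ)
    (hg0 : ∀ a, (ρ : ℤ) ^ (E + 2 * H) ∣ eval Q0 (g a))
    (hg : ∀ k a, (ρ : ℤ) ^ (E + 2 * H) ∣ eval (Q k) (g a))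
    (J m : ℕ) (hm : Fintype.card κ + m = Fintype.card σ)
    (hE : ∑ j ∈ Finset.range J, (s - (j + m).choose m) ≤ E) :
    (ρ : ℤ) ^ (∑ j ∈ Finset.range J, (s - (j + m).choose m)) ∣
      Matrix.det (Matrix.of fun a k : Fin s => eval (Q k) (f a)) := by
  classical
  have hρ0 : (ρ : ℤ) ≠ 0 := by
    have : ρ ≠ 0 := by omega
    exact_mod_cast this
  obtain ⟨G, hG1, hG2⟩ := rescale v g Q0 (ρ : ℤ) H μ u μ' hdet hμ
  choose t ht using hQ
  set lam : σ → ℤ := scal v ((ρ : ℤ) ^ (2 * H)) (μ * μ' ^ 2) with hlam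
  set x : Fin s → σ → ℤ := fun k i =>
    if i ∈ Set.range v then μ * ((ρ : ℤ) * t k i) else (ρ : ℤ) * t k i with hx
  have hLsq : (ρ : ℤ) ^ (2 * H) = μ ^ 2 * μ' ^ 2 := by
    rw [mul_comm 2 H, pow_mul, ← hμ]
    ring
  have hlx : ∀ k i, Q0 i + lam i * x k i = Q k i := by
    intro k i
    have h1 := ht k i
    have h2 : lam i * x k i = (ρ : ℤ) ^ (2 * H + 1) * t k i := by
      rw [hlam, hx]
      unfold scal
      beta_reduce
      by_cases hi : i ∈ Set.range v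
      · rw [if_pos hi, if_pos hi, pow_succ (ρ : ℤ) (2 * H), hLsq]
        ring
      · rw [if_neg hi, if_neg hi, pow_succ (ρ : ℤ) (2 * H)]
        ring
    rw [h2]
    linarith
  have hdet' : IsCoprime (ρ : ℤ)
      (Matrix.det (Matrix.of fun a b : κ => eval (0 : σ → ℤ) (pderiv (v b) (G a)))) := by
    have h1 : (Matrix.of fun a b : κ => eval (0 : σ → ℤ) (pderiv (v b) (G a))) =
        Matrix.diagonal fun _ : κ => u := by
      ext a b
      rw [Matrix.of_apply, hG1, Matrix.diagonal_apply]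
    rw [h1, Matrix.det_diagonal, Finset.prod_const]
    exact hu.pow_right
  have hev : ∀ k a, eval (x k) (aeval (fun i => C (Q0 i) + C (lam i) * X i :
      σ → MvPolynomial σ ℤ) (f a)) = eval (Q k) (f a) := by
    intro k a
    rw [dmh_ev]
    congr 1
    congr 1
    funext i
    rw [map_add, map_mul, eval_C, eval_C, eval_X]
    exact hlx k i
  have hxd : ∀ k i, (ρ : ℤ) ∣ x k i - (0 : σ → ℤ) i := by
    intro k i
    rw [Pi.zero_apply, sub_zero, hx]
    beta_reduce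
    split_ifs
    · exact ⟨μ * t k i, by ring⟩
    · exact Dvd.intro _ rfl
  have hgE : ∀ k b, (ρ : ℤ) ^ E ∣ eval (x k) (G b) := by
    intro k b
    have h1 := hG2 (x k) b
    have h2 : (fun i => Q0 i + lam i * x k i) = Q k := by
      funext i
      exact hlx k i
    rw [h2] at h1
    have h3 : (ρ : ℤ) ^ (2 * H) * (ρ : ℤ) ^ E ∣ (ρ : ℤ) ^ (2 * H) * eval (x k) (G b) := by
      rw [h1, ← pow_add, add_comm (2 * H) E]
      refine Finset.dvd_sum fun a _ => ?_
      exact Dvd.dvd.mul_left (dvd_sub (hg k a) (hg0 a)) _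
    exact (mul_dvd_mul_iff_left (pow_ne_zero _ hρ0)).1 h3
  have h := DMC ρ v G 0 hdet' (fun a => aeval (fun i => C (Q0 i) + C (lam i) * X i :
      σ → MvPolynomial σ ℤ) (f a)) x hxd E hgE J m hm hE
  have hmat : (Matrix.of fun a k : Fin s => eval (x k) (aeval (fun i => C (Q0 i) + C (lam i) * X i :
      σ → MvPolynomial σ ℤ) (f a))) = Matrix.of fun a k : Fin s => eval (Q k) (f a) := by
    ext a k
    rw [Matrix.of_apply, Matrix.of_apply, hev]
  rw [hmat] at h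
  exact h

end Pool.Agent.Helper93.TS
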