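import Mathlib

/-!
TS-06 MuSplit (project TS, MP_464c42_nt). Splitting off the part of an integer supported on the primes of `ρ`.

Proof. `x ≠ 0` unless `ρ = 1` or `H = 0`... Let `μ = gcd (x, ρ ^ H)` (`Int.gcd`, positive as `ρ ≠ 0`), `x = μ u`, `ρ ^ H = μ μ'`. Claim `IsCoprime ρ u`: otherwise a prime `p`
divides `ρ` and `u`. `ρ ^ H` has `p`-adic valuation `H` (`ρ` squarefree) and `p ^ H ∤ x` (`p ∈ ρ.primeFactors`). Let `v = v_p(x) < H` (`x ≠ 0` because `p ^ H ∤ x`); then `p ^ v` divides `x` and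
`ρ ^ H`, so it divides `μ`, and with `p ∣ u`: `p ^ (v + 1) ∣ μ u = x`, a contradiction. (Elementary form without valuations: let `v` be maximal with `p ^ v ∣ x`, e.g.
`Nat.find` or `emultiplicity`.)
-/

set_option autoImplicit false

namespace Pool.Agent.Helper93.TS

theorem mu_split (ρ H : ℕ) (hρ : Squarefree ρ) (x : ℤ)
    (hx : ∀ p ∈ ρ.primeFactors, ¬ (p : ℤ) ^ H ∣ x) :
    ∃ μ u μ' : ℤ, x = μ * u ∧ μ * μ' = (ρ : ℤ) ^ H ∧ IsCoprime (ρ : ℤ) u := by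
  have hρ0 : ρ ≠ 0 := hρ.ne_zero
  obtain ⟨u, hu⟩ : ((Int.gcd x ((ρ : ℤ) ^ H) : ℕ) : ℤ) ∣ x := Int.gcd_dvd_left ..
  obtain ⟨μ', hμ'⟩ : ((Int.gcd x ((ρ : ℤ) ^ H) : ℕ) : ℤ) ∣ (ρ : ℤ) ^ H := Int.gcd_dvd_right ..
  refine ⟨((Int.gcd x ((ρ : ℤ) ^ H) : ℕ) : ℤ), u, μ', hu, hμ'.symm, ?_⟩
  rw [Int.isCoprime_iff_gcd_eq_one]
  by_contra hc
  have hc1 : ¬ Nat.Coprime ρ u.natAbs := by
    intro h
    apply hc
    rw [Int.gcd_eq_natAbs, Int.natAbs_natCast]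
    exact h
  obtain ⟨p, hp, hpρ, hpu⟩ := Nat.Prime.not_coprime_iff_dvd.1 hc1
  have hpu' : (p : ℤ) ∣ u := Int.natCast_dvd.2 hpu
  have hmem : p ∈ ρ.primeFactors := Nat.mem_primeFactors.2 ⟨hp, hpρ, hρ0⟩
  classical
  have hex : ∃ k : ℕ, ¬ (p : ℤ) ^ k ∣ x := ⟨H, hx p hmem⟩
  have hk1 : ¬ (p : ℤ) ^ Nat.find hex ∣ x := Nat.find_spec hex
  have hkH : Nat.find hex ≤ H := Nat.find_min' hex (hx p hmem)
  have hk0 : Nat.find hex ≠ 0 := by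
    intro h0
    rw [h0, pow_zero] at hk1
    exact hk1 (one_dvd _)
  obtain ⟨v, hv⟩ := Nat.exists_eq_succ_of_ne_zero hk0
  have hvx : (p : ℤ) ^ v ∣ x := by
    have h1 := Nat.find_min hex (m := v) (by omega)
    exact not_not.1 h1
  have hvρ : (p : ℤ) ^ v ∣ (ρ : ℤ) ^ H := by
    have h1 : (p : ℤ) ∣ (ρ : ℤ) := Int.natCast_dvd_natCast.2 hpρ
    exact (pow_dvd_pow_of_dvd h1 v).trans (pow_dvd_pow _ (by omega))
  have hvμ : (p : ℤ) ^ v ∣ ((Int.gcd x ((ρ : ℤ) ^ H) : ℕ) : ℤ) := Int.dvd_coe_gcd hvx hvρ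
  apply hk1
  rw [hv, Nat.succ_eq_add_one, pow_succ, hu]
  exact mul_dvd_mul hvμ hpu'

end Pool.Agent.Helper93.TS
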