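import Pool.Agent.Helper91.CPX.Drop
import Pool.Agent.Helper93.TS.DMH
import Pool.Agent.Helper93.TS.MuSplit

/-!
TS-08 DropCore (project TS, MP_464c42_nt). The dimension drop, for a fixed modulus and residue class.

Proof. Copy `drop_core` of `Helper91/CPX/Drop.lean` with `ρ` in place of `ℓ` (copy also its private lemmas `eval_mon`, `abs_mon_le`). The only change: the divisibility of the
determinants. Let `Σ = ∑ j ∈ Finset.range J, (s - (j + (d - 1)).choose (d - 1))`. For `z : Fin s → (ι → ℤ)` in `T'` use `DMH` with `κ = Option ι`, `σ = Fin d ⊕ ι`,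
`v b = b.elim (Sum.inl j0) Sum.inr`, `Q0 = graphPt G z0`, `Q k = graphPt G (z k)`, `E := Σ`, `f a = rename Sum.inl (monomial (mon a) 1)`, `m = d - 1`:
the Jacobian determinant at `Q0` is `jac g j0 Q0 = μ * u` with `μ μ' = ρ ^ H`, `IsCoprime ρ u` by `mu_split` and `h3`;
`graphPt G z ≡ graphPt G z0` modulo `ρ ^ (2 H + 1)` by `h4` (`eval_congr_dvd` for the coordinates `eval z (G j)`); `ρ ^ (Σ + 2 H)` divides all `g a`: for `some i` they vanish, for
`none` because `Σ + 2 H ≤ E` (`hEE`) and `h2'`. The size comparison is the same: `ρ ^ Σ ≥ X ^ (lam Σ)`.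
-/

set_option autoImplicit false

open MvPolynomial

namespace Pool.Agent.Helper93.TS

open Pool.Agent.Helper91.CPX

private theorem eval_mon {d : ℕ} (x : Fin d → ℤ) (m : Fin d →₀ ℕ) (c : ℤ) :
    eval x (monomial m c) = c * ∏ j, x j ^ m j := by
  rw [eval_monomial, Finsupp.prod_fintype _ _ (fun i => pow_zero _)]

private theorem abs_mon_le {d : ℕ} (x : Fin d → ℤ) (m : Fin d →₀ ℕ) (X : ℤ) (hX : 1 ≤ X)
    (K1 D : ℕ) (hx : ∀ j, |x j| ≤ X ^ K1) (hm : ∑ j, m j ≤ D) :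
    |∏ j, x j ^ m j| ≤ X ^ (K1 * D) := by
  rw [Finset.abs_prod]
  calc ∏ j, |x j ^ m j| ≤ ∏ j, (X ^ K1) ^ m j := by
        refine Finset.prod_le_prod (fun j _ => abs_nonneg _) (fun j _ => ?_)
        rw [abs_pow]
        exact pow_le_pow_left₀ (abs_nonneg _) (hx j) _
    _ = (X ^ K1) ^ ∑ j, m j := Finset.prod_pow_eq_pow_sum _ _ _
    _ ≤ (X ^ K1) ^ D := pow_le_pow_right₀ (one_le_pow₀ hX) hm
    _ = X ^ (K1 * D) := by rw [pow_mul]

theorem dropC_core {ι : Type} [Fintype ι] [DecidableEq ι] {d K1 D J s H E : ℕ} (hd : 1 ≤ d)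
    (hs : s = (D + d).choose d) (hs1 : 1 ≤ s) (lam : ℝ) (X : ℕ) (hX2 : 2 ≤ X)
    (hXs : s.factorial < X)
    (hE : ((K1 : ℝ) + 1) * ((D : ℝ) * s + 1) ≤
      lam * ((∑ j ∈ Finset.range J, (s - (j + (d - 1)).choose (d - 1)) : ℕ) : ℝ))
    (hEE : (∑ j ∈ Finset.range J, (s - (j + (d - 1)).choose (d - 1))) + 2 * H ≤ E)
    (T' : Finset (ι → ℤ)) (hne : T'.Nonempty) (G : Fin d → MvPolynomial ι ℤ)
    (g : Option ι → MvPolynomial (Fin d ⊕ ι) ℤ) (j0 : Fin d)
    (h1 : ∀ z ∈ T', ∀ j, |eval z (G j)| ≤ (X : ℤ) ^ K1)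
    (h2 : ∀ z ∈ T', ∀ i : ι, eval (graphPt G z) (g (some i)) = 0)
    (ρ : ℕ) (hρ : Squarefree ρ) (hρX : (X : ℝ) ^ lam ≤ (ρ : ℝ))
    (h2' : ∀ z ∈ T', (ρ : ℤ) ^ E ∣ eval (graphPt G z) (g none))
    (h3 : ∀ z ∈ T', ∀ p ∈ ρ.primeFactors, ¬ (p : ℤ) ^ H ∣ jac g j0 (graphPt G z))
    (h4 : ∀ z ∈ T', ∀ z' ∈ T', ∀ i, (ρ : ℤ) ^ (2 * H + 1) ∣ z i - z' i) :
    ∃ c : MvPolynomial (Fin d) ℤ, c ≠ 0 ∧ c.totalDegree ≤ D ∧
      (∀ m, |c.coeff m| ≤ (X : ℤ) ^ (K1 * D * s + 1)) ∧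
      ∀ z ∈ T', eval (fun j => eval z (G j)) c = 0 := by
  classical
  have hX1 : (1 : ℤ) ≤ (X : ℤ) := by exact_mod_cast (by omega : 1 ≤ X)
  obtain ⟨S, hScard, hS⟩ := card_deg_le (Fin d) D
  rw [Fintype.card_fin] at hScard
  let en : S ≃ Fin s := Finset.equivFinOfCardEq (hScard.trans hs.symm)
  let mon : Fin s → (Fin d →₀ ℕ) := fun a => (en.symm a).1
  have hmon : ∀ a, ∑ j, mon a j ≤ D := fun a => (hS _).mp (en.symm a).2
  have hinj : Function.Injective mon := by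
    intro a b hab
    exact en.symm.injective (Subtype.ext hab)
  let u : Fin s → (ι → ℤ) → ℤ := fun a z => ∏ j, (eval z (G j)) ^ (mon a j)
  have hu : ∀ a, ∀ z ∈ T', |u a z| ≤ (X : ℤ) ^ (K1 * D) := fun a z hz =>
    abs_mon_le (fun j => eval z (G j)) (mon a) X hX1 K1 D (h1 z hz) (hmon a)
  obtain ⟨z0, hz0⟩ := hne
  -- vanishing of the determinants
  have hdet : ∀ z : Fin s → (ι → ℤ), (∀ k, z k ∈ T') →
      Matrix.det (Matrix.of fun a k : Fin s => u a (z k)) = 0 := by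
    intro z hz
    let v : Option ι ↪ Fin d ⊕ ι := ⟨fun b => b.elim (Sum.inl j0) Sum.inr, by
      intro a b hab
      cases a <;> cases b <;> simp_all⟩
    have hcardσ : Fintype.card (Option ι) + (d - 1) = Fintype.card (Fin d ⊕ ι) := by
      rw [Fintype.card_option, Fintype.card_sum, Fintype.card_fin]
      omega
    obtain ⟨μ, u', μ', hjac, hμ, hu'⟩ := mu_split ρ H hρ (jac g j0 (graphPt G z0)) (h3 z0 hz0)
    have hρ1 : 1 ≤ ρ := Nat.one_le_iff_ne_zero.2 hρ.ne_zero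
    have hgall : ∀ w ∈ T', ∀ a, (ρ : ℤ) ^
        ((∑ j ∈ Finset.range J, (s - (j + (d - 1)).choose (d - 1))) + 2 * H) ∣
        eval (graphPt G w) (g a) := by
      intro w hw a
      cases a with
      | none => exact (pow_dvd_pow _ hEE).trans (h2' w hw)
      | some i =>
        rw [h2 w hw i]
        exact dvd_zero _
    have hDM := DMH ρ hρ1 H v g (graphPt G z0) μ u' μ' hjac hμ hu'
      (fun a => rename Sum.inl (monomial (mon a) (1 : ℤ))) (fun k => graphPt G (z k))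
      (by
        intro k i
        cases i with
        | inl j => exact eval_congr_dvd (G j) (z k) z0 ((ρ : ℤ) ^ (2 * H + 1)) (h4 _ (hz k) _ hz0)
        | inr i => exact h4 _ (hz k) _ hz0 i)
      (∑ j ∈ Finset.range J, (s - (j + (d - 1)).choose (d - 1)))
      (hgall z0 hz0) (fun k a => hgall _ (hz k) a) J (d - 1) hcardσ le_rfl
    have hmat : (Matrix.of fun a k : Fin s => eval (graphPt G (z k))
        (rename Sum.inl (monomial (mon a) (1 : ℤ)))) =
        Matrix.of fun a k : Fin s => u a (z k) := by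
      ext a k
      simp only [Matrix.of_apply]
      rw [eval_rename, eval_mon, one_mul]
      rfl
    rw [hmat] at hDM
    by_contra hne0
    set Δ : ℤ := Matrix.det (Matrix.of fun a k : Fin s => u a (z k)) with hΔ
    set E' : ℕ := ∑ j ∈ Finset.range J, (s - (j + (d - 1)).choose (d - 1)) with hEdef
    have hle1 : (ρ : ℤ) ^ E' ≤ |Δ| :=
      Int.le_of_dvd (abs_pos.mpr hne0) ((dvd_abs _ _).mpr hDM)
    have hle2 : |Δ| ≤ (s.factorial : ℤ) * ((X : ℤ) ^ (K1 * D)) ^ s := by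
      have h5 := Matrix.det_le (A := Matrix.of fun a k : Fin s => u a (z k))
        (abv := (AbsoluteValue.abs : AbsoluteValue ℤ ℤ)) (x := (X : ℤ) ^ (K1 * D))
        (fun i j => hu i _ (hz j))
      rw [Fintype.card_fin, nsmul_eq_mul] at h5
      exact h5
    have hX1' : (1 : ℝ) ≤ (X : ℝ) := by exact_mod_cast (by omega : 1 ≤ X)
    have hX0' : (0 : ℝ) < (X : ℝ) := by linarith
    have h6 : (X : ℝ) ^ (((K1 : ℝ) + 1) * ((D : ℝ) * s + 1)) ≤ (ρ : ℝ) ^ E' := by
      calc (X : ℝ) ^ (((K1 : ℝ) + 1) * ((D : ℝ) * s + 1)) ≤ (X : ℝ) ^ (lam * (E' : ℝ)) :=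
            Real.rpow_le_rpow_of_exponent_le hX1' hE
        _ = ((X : ℝ) ^ lam) ^ E' := by
            rw [Real.rpow_mul hX0'.le, Real.rpow_natCast]
        _ ≤ (ρ : ℝ) ^ E' := pow_le_pow_left₀ (Real.rpow_nonneg hX0'.le _) hρX _
    have h7 : (X : ℝ) ^ (K1 * D * s + 1) ≤ (X : ℝ) ^ (((K1 : ℝ) + 1) * ((D : ℝ) * s + 1)) := by
      rw [← Real.rpow_natCast]
      refine Real.rpow_le_rpow_of_exponent_le hX1' ?_
      push_cast
      have h8 : (0 : ℝ) ≤ (D : ℝ) * s := by positivity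
      have h9 : (0 : ℝ) ≤ (K1 : ℝ) := Nat.cast_nonneg _
      nlinarith
    have h10 : (ρ : ℝ) ^ E' ≤ (s.factorial : ℝ) * ((X : ℝ) ^ (K1 * D)) ^ s := by
      exact_mod_cast hle1.trans hle2
    have h11 : (s.factorial : ℝ) * ((X : ℝ) ^ (K1 * D)) ^ s < (X : ℝ) ^ (K1 * D * s + 1) := by
      rw [← pow_mul, pow_succ, mul_comm]
      exact mul_lt_mul_of_pos_left (by exact_mod_cast hXs) (by positivity)
    linarith
  obtain ⟨c, hc0, hcle, hc⟩ := minors hs1 u T' ((X : ℤ) ^ (K1 * D)) (one_le_pow₀ hX1) hu hdet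
  have hcoeff : ∀ m, coeff m (∑ a, monomial (mon a) (c a)) = ∑ a, if mon a = m then c a else 0 := by
    intro m
    rw [coeff_sum]
    exact Finset.sum_congr rfl (fun a _ => coeff_monomial _ _ _)
  have hcoeff' : ∀ a, coeff (mon a) (∑ a, monomial (mon a) (c a)) = c a := by
    intro a
    rw [hcoeff, Finset.sum_eq_single a]
    · simp
    · intro b _ hb
      rw [if_neg (fun h => hb (hinj h))]
    · intro h; exact absurd (Finset.mem_univ _) h
  refine ⟨∑ a, monomial (mon a) (c a), ?_, ?_, ?_, ?_⟩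
  · intro h
    apply hc0
    funext a
    rw [← hcoeff' a, h]
    simp
  · refine totalDegree_finsetSum_le (fun a _ => (totalDegree_monomial_le _ _).trans ?_)
    rw [Finsupp.sum_fintype _ _ (fun i => rfl)]
    exact hmon a
  · intro m
    by_cases hm : ∃ a, mon a = m
    · obtain ⟨a, rfl⟩ := hm
      rw [hcoeff']
      refine (hcle a).trans ?_
      rw [← pow_mul, pow_succ, mul_comm]
      exact mul_le_mul_of_nonneg_left (by exact_mod_cast hXs.le) (by positivity)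
    · rw [hcoeff, Finset.sum_eq_zero]
      · rw [abs_zero]; positivity
      · intro a _
        rw [if_neg (fun h => hm ⟨a, h⟩)]
  · intro z hz
    rw [map_sum]
    have h5 := hc z hz
    rw [← h5]
    exact Finset.sum_congr rfl (fun a _ => eval_mon _ _ _)

end Pool.Agent.Helper93.TS
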