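import Mathlib

/-!
TS-07 PigeonC (project TS, MP_464c42_nt). Choice of a divisor `ρ` of `q` and of a residue class modulo a power of `ρ`.

Proof. (Compare `pigeon` in Helper91/CPX/Pigeon.lean.) For every `z ∈ T`, by the greedy lemma (`Helper91/CPX/Greedy.lean`, `greedy`, with `Q = A z`,
`D = ⌈X ^ lam⌉₊`, `W = ⌊X ^ (lam / 2)⌋₊`; or a direct minimal choice of a subset with product `≥ X ^ lam`) there is `Q' ⊆ A z` with
`X ^ lam ≤ ∏ Q' ≤ X ^ (2 lam)`: take `Q'` minimal (for inclusion or cardinality) among the subsets of `A z` with `X ^ lam ≤ ∏ Q'`; if `Q'` is not empty, removing `p ∈ Q'` gives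
`∏ Q' < X ^ lam * p ≤ X ^ (3 lam / 2)`; if it is empty, `∏ Q' = 1 ≤ X ^ (2 lam)`. Put `rf z = ∏ p ∈ Q', p`, a divisor of `q`
(`Finset.prod_primes_dvd`, or `q = ∏ p ∈ q.primeFactors, p` for squarefree `q`), with `(rf z).primeFactors = Q' ⊆ A z` (`Nat.primeFactors_prod`).
The key of `z`: `(rf z, fun i => z i % rf z ^ (2 H + 1))`. The number of keys is at most
`card q.divisors * (X ^ (2 lam (2 H + 1))) ^ card ι ≤ X ^ (lam + 2 lam (2 H + 1) card ι)` (only `ρ` with `X ^ lam ≤ ρ ≤ X ^ (2 lam)` are keys). Take the key with the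
largest image, as in `pigeon`. (`T` nonempty is needed for the existence of `ρ`.)
-/

set_option autoImplicit false

namespace Pool.Agent.Helper93.TS

theorem pigeonC {ι : Type} [Fintype ι] [DecidableEq ι] (lam : ℝ) (hlam : 0 < lam) (H X q : ℕ)
    (hX : 2 ≤ X) (hq : Squarefree q)
    (hW : ∀ p ∈ q.primeFactors, (p : ℝ) ≤ (X : ℝ) ^ (lam / 2))
    (hdiv : (q.divisors.card : ℝ) ≤ (X : ℝ) ^ lam)
    (T : Finset (ι → ℤ)) (hT : T.Nonempty) (M : (ι → ℤ) → ℤ) (A : (ι → ℤ) → Finset ℕ)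
    (hA : ∀ z ∈ T, A z ⊆ q.primeFactors ∧ (X : ℝ) ^ lam ≤ ((∏ p ∈ A z, p : ℕ) : ℝ)) :
    ∃ ρ : ℕ, ρ ∣ q ∧ (X : ℝ) ^ lam ≤ (ρ : ℝ) ∧ (ρ : ℝ) ≤ (X : ℝ) ^ (2 * lam) ∧
      ∃ T' ⊆ T, (∀ z ∈ T', ρ.primeFactors ⊆ A z) ∧
        (∀ z ∈ T', ∀ z' ∈ T', ∀ i, (ρ : ℤ) ^ (2 * H + 1) ∣ z i - z' i) ∧
        ((T.image M).card : ℝ) ≤
          (X : ℝ) ^ (lam + 2 * lam * (2 * H + 1) * (Fintype.card ι : ℝ)) *
            ((T'.image M).card : ℝ) := by
  classical
  have hX1 : (1 : ℝ) < (X : ℝ) := by exact_mod_cast (by omega : 1 < X)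
  have hX0 : (0 : ℝ) < (X : ℝ) := by linarith
  have hq0 : q ≠ 0 := hq.ne_zero
  have h1 : ∀ z : ι → ℤ, ∃ r : ℕ, z ∈ T → (r ∣ q ∧ (X : ℝ) ^ lam ≤ (r : ℝ) ∧
      (r : ℝ) ≤ (X : ℝ) ^ (2 * lam) ∧ r.primeFactors ⊆ A z) := by
    intro z
    by_cases hz : z ∈ T
    swap
    · exact ⟨0, fun h => absurd h hz⟩
    obtain ⟨hA1, hA2⟩ := hA z hz
    have hne : ((A z).powerset.filter
        (fun Q => (X : ℝ) ^ lam ≤ ((∏ p ∈ Q, p : ℕ) : ℝ))).Nonempty :=
      ⟨A z, Finset.mem_filter.2 ⟨Finset.mem_powerset_self _, hA2⟩⟩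
    obtain ⟨Q, hQ, hmin⟩ := Finset.exists_min_image _ Finset.card hne
    rw [Finset.mem_filter, Finset.mem_powerset] at hQ
    obtain ⟨hQA, hQX⟩ := hQ
    have hpr : ∀ p ∈ Q, p.Prime := fun p hp => Nat.prime_of_mem_primeFactors (hA1 (hQA hp))
    refine ⟨∏ p ∈ Q, p, fun _ => ⟨?_, hQX, ?_, ?_⟩⟩
    · exact Finset.prod_primes_dvd _ (fun p hp => (hpr p hp).prime)
        (fun p hp => Nat.dvd_of_mem_primeFactors (hA1 (hQA hp)))
    · rcases Q.eq_empty_or_nonempty with h0 | ⟨p, hp⟩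
      · rw [h0, Finset.prod_empty, Nat.cast_one]
        exact Real.one_le_rpow hX1.le (by linarith)
      · have hlt : ((∏ x ∈ Q.erase p, x : ℕ) : ℝ) < (X : ℝ) ^ lam := by
          by_contra hcon
          have hm : Q.erase p ∈ (A z).powerset.filter
              (fun Q => (X : ℝ) ^ lam ≤ ((∏ p ∈ Q, p : ℕ) : ℝ)) := by
            rw [Finset.mem_filter, Finset.mem_powerset]
            exact ⟨(Finset.erase_subset _ _).trans hQA, not_lt.1 hcon⟩
          have h2 := hmin _ hm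
          have h3 := Finset.card_erase_lt_of_mem hp
          omega
        have hpW : (p : ℝ) ≤ (X : ℝ) ^ (lam / 2) := hW p (hA1 (hQA hp))
        have hp0 : (0 : ℝ) < (p : ℝ) := by exact_mod_cast (hpr p hp).pos
        have h4 : ((∏ x ∈ Q, x : ℕ) : ℝ) = (p : ℝ) * ((∏ x ∈ Q.erase p, x : ℕ) : ℝ) := by
          rw [← Finset.mul_prod_erase Q (fun x => x) hp, Nat.cast_mul]
        rw [h4]
        calc (p : ℝ) * ((∏ x ∈ Q.erase p, x : ℕ) : ℝ)
            ≤ (X : ℝ) ^ (lam / 2) * (X : ℝ) ^ lam :=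
              mul_le_mul hpW hlt.le (Nat.cast_nonneg _) (Real.rpow_nonneg hX0.le _)
          _ = (X : ℝ) ^ (lam / 2 + lam) := (Real.rpow_add hX0 _ _).symm
          _ ≤ (X : ℝ) ^ (2 * lam) :=
              Real.rpow_le_rpow_of_exponent_le hX1.le (by linarith)
    · rw [Nat.primeFactors_prod hpr]
      exact hQA
  choose rf hrf using h1
  set key : (ι → ℤ) → ℕ × (ι → ℤ) :=
    fun z => (rf z, fun i => z i % ((rf z : ℤ) ^ (2 * H + 1))) with hkey
  set R : Finset ℕ := q.divisors.filter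
    (fun r => (X : ℝ) ^ lam ≤ (r : ℝ) ∧ (r : ℝ) ≤ (X : ℝ) ^ (2 * lam)) with hR
  set S : Finset (ℕ × (ι → ℤ)) := R.biUnion fun r =>
    (Fintype.piFinset (fun _ : ι => Finset.Ico (0 : ℤ) ((r : ℤ) ^ (2 * H + 1)))).image
      (fun c => (r, c)) with hS
  have hkeyS : ∀ z ∈ T, key z ∈ S := by
    intro z hz
    obtain ⟨hd, hl, hu, -⟩ := hrf z hz
    rw [hS, Finset.mem_biUnion]
    refine ⟨rf z, ?_, ?_⟩
    · rw [hR, Finset.mem_filter, Nat.mem_divisors]
      exact ⟨⟨hd, hq0⟩, hl, hu⟩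
    · rw [Finset.mem_image]
      refine ⟨fun i => z i % ((rf z : ℤ) ^ (2 * H + 1)), ?_, rfl⟩
      rw [Fintype.mem_piFinset]
      intro i
      have hpos' : 0 < rf z := Nat.pos_of_ne_zero (fun h => by
        rw [h, Nat.cast_zero] at hl
        exact absurd hl (not_le.2 (Real.rpow_pos_of_pos hX0 _)))
      have hpos : (0 : ℤ) < (rf z : ℤ) ^ (2 * H + 1) := by positivity
      rw [Finset.mem_Ico]
      exact ⟨Int.emod_nonneg _ hpos.ne', Int.emod_lt_of_pos _ hpos⟩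
  obtain ⟨z0, hz0⟩ := hT
  have hSne : S.Nonempty := ⟨key z0, hkeyS _ hz0⟩
  obtain ⟨s0, hs0, hmax⟩ := Finset.exists_max_image S
    (fun s => ((T.filter (fun z => key z = s)).image M).card) hSne
  have hs0L : s0.1 ∈ R := by
    rw [hS, Finset.mem_biUnion] at hs0
    obtain ⟨r, hr, h2⟩ := hs0
    rw [Finset.mem_image] at h2
    obtain ⟨c, _, rfl⟩ := h2
    exact hr
  have hScard : (S.card : ℝ) ≤
      (X : ℝ) ^ (lam + 2 * lam * (2 * H + 1) * (Fintype.card ι : ℝ)) := by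
    have h2 : (S.card : ℝ) ≤ ∑ r ∈ R, (((X : ℝ) ^ (2 * lam)) ^ (2 * H + 1)) ^ (Fintype.card ι) := by
      have h3 : S.card ≤ ∑ r ∈ R, ((Fintype.piFinset
          (fun _ : ι => Finset.Ico (0 : ℤ) ((r : ℤ) ^ (2 * H + 1)))).image
            (fun c => (r, c))).card :=
        Finset.card_biUnion_le
      refine le_trans (Nat.cast_le.2 h3) ?_
      rw [Nat.cast_sum]
      refine Finset.sum_le_sum fun r hr => ?_
      rw [hR, Finset.mem_filter] at hr
      refine le_trans (Nat.cast_le.2 Finset.card_image_le) ?_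
      rw [Fintype.card_piFinset]
      have h4 : ((Finset.Ico (0 : ℤ) ((r : ℤ) ^ (2 * H + 1))).card) = r ^ (2 * H + 1) := by
        rw [Int.card_Ico, sub_zero]
        have h5 : ((r : ℤ) ^ (2 * H + 1)) = ((r ^ (2 * H + 1) : ℕ) : ℤ) := by push_cast; ring
        rw [h5, Int.toNat_natCast]
      simp only [h4, Finset.prod_const, Finset.card_univ, Nat.cast_pow]
      exact pow_le_pow_left₀ (by positivity)
        (pow_le_pow_left₀ (Nat.cast_nonneg _) hr.2.2 _) _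
    refine le_trans h2 ?_
    have hRc : (R.card : ℝ) ≤ (X : ℝ) ^ lam :=
      le_trans (Nat.cast_le.2 (Finset.card_le_card (Finset.filter_subset _ _))) hdiv
    have h6 : (((X : ℝ) ^ (2 * lam)) ^ (2 * H + 1)) ^ (Fintype.card ι) =
        (X : ℝ) ^ (2 * lam * (2 * H + 1) * (Fintype.card ι : ℝ)) := by
      rw [Real.rpow_mul hX0.le (2 * lam * (2 * H + 1)), Real.rpow_natCast]
      congr 1
      have h7 : (2 * (H : ℝ) + 1) = ((2 * H + 1 : ℕ) : ℝ) := by push_cast; ring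
      rw [h7, Real.rpow_mul hX0.le (2 * lam), Real.rpow_natCast]
    rw [Finset.sum_const, nsmul_eq_mul, Real.rpow_add hX0, h6]
    exact mul_le_mul_of_nonneg_right hRc (Real.rpow_nonneg hX0.le _)
  have hs0R := hs0L
  rw [hR, Finset.mem_filter, Nat.mem_divisors] at hs0R
  refine ⟨s0.1, hs0R.1.1, hs0R.2.1, hs0R.2.2, T.filter (fun z => key z = s0),
    Finset.filter_subset _ _, ?_, ?_, ?_⟩
  · intro z hz
    rw [Finset.mem_filter] at hz
    have h2 : rf z = s0.1 := congrArg Prod.fst hz.2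
    rw [← h2]
    exact (hrf z hz.1).2.2.2
  · intro z hz z' hz' i
    rw [Finset.mem_filter] at hz hz'
    have h2 : rf z = s0.1 := congrArg Prod.fst hz.2
    have h3 : rf z' = s0.1 := congrArg Prod.fst hz'.2
    have h4 : z i % ((rf z : ℤ) ^ (2 * H + 1)) = s0.2 i := congrFun (congrArg Prod.snd hz.2) i
    have h5 : z' i % ((rf z' : ℤ) ^ (2 * H + 1)) = s0.2 i :=
      congrFun (congrArg Prod.snd hz'.2) i
    rw [h2] at h4
    rw [h3] at h5
    exact Int.ModEq.dvd (show z' i % ((s0.1 : ℤ) ^ (2 * H + 1)) =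
      z i % ((s0.1 : ℤ) ^ (2 * H + 1)) by rw [h4, h5])
  · have h2 : T.image M ⊆ S.biUnion (fun s => (T.filter (fun z => key z = s)).image M) := by
      intro m hm
      rw [Finset.mem_image] at hm
      obtain ⟨z, hz, rfl⟩ := hm
      rw [Finset.mem_biUnion]
      exact ⟨key z, hkeyS z hz, Finset.mem_image_of_mem _ (Finset.mem_filter.2 ⟨hz, rfl⟩)⟩
    have h3 : (T.image M).card ≤
        S.card * ((T.filter (fun z => key z = s0)).image M).card := by
      refine le_trans (Finset.card_le_card h2) (le_trans Finset.card_biUnion_le ?_)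
      refine le_trans (Finset.sum_le_sum hmax) ?_
      rw [Finset.sum_const, smul_eq_mul]
    refine le_trans (Nat.cast_le.2 h3) ?_
    rw [Nat.cast_mul]
    exact mul_le_mul_of_nonneg_right hScard (Nat.cast_nonneg _)

end Pool.Agent.Helper93.TS
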