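import Pool.Agent.Helper87.Camp.Sum
import Pool.Agent.Helper93.TS.DropCore
import Pool.Agent.Helper93.TS.PigeonC

/-!
TS-09 DropC (project TS, MP_464c42_nt). The dimension drop for congruences modulo the primes of `q`.

Proof. (Compare the proof of `drop` in `Helper91/CPX/Drop.lean`.) If `d = 0` there is no `j0`. Let `d ≥ 1`, `n = card ι`, `lam = min ε (δ / (4 (1 + 2 (2 H + 1) n)))`,
so `lam > 0`, `lam ≤ ε` and `lam + 2 lam (2 H + 1) n ≤ δ / 4`. `K = ⌈(K1 + 1) / lam⌉₊`, `D, J` from `growth d _ K`, `s = (D + d).choose d`, `Σ` the sum, `E = Σ + 2 H`,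
`K' = K1 D s + 1`, `κ = lam / 2`. `tau_rpow (lam / 2)` gives `C` with `card q.divisors ≤ C q ^ (lam / 2) ≤ C X ^ (lam / 2)` (`tau q = q.divisors.card`, unfold `Pool.Agent.Helper10.tau`); `X0` with
`C ≤ X0 ^ (lam / 2)` (`X0 = ⌈C ^ (2 / lam)⌉₊`) and larger than `2` and `s!`. Let the data be given. `T` is not empty because `X ^ δ ≤ card (T.image M)`. Apply `pigeonC lam H X q` with
`A z = q.primeFactors.filter (fun p => ¬ p ^ H ∣ jac .. ∧ p ^ E ∣ eval .. (g none))` (`X ^ lam ≤ X ^ ε ≤ ∏ A z`): `ρ`, `T'` with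
`card M(T') ≥ X ^ δ / X ^ (δ / 4) ≥ X ^ (δ / 2)`. `ρ ∣ q` is squarefree; `ρ ^ E ∣ eval .. (g none)`: `ρ = ∏ p ∈ ρ.primeFactors, p`, the `p ^ E` are pairwise coprime and divide it
(`Finset.prod_dvd_of_coprime`). `dropC_core` gives the polynomial.
-/

set_option autoImplicit false

open MvPolynomial

namespace Pool.Agent.Helper93.TS

open Pool.Agent.Helper91.CPX

theorem dropC (ι : Type) [Fintype ι] [DecidableEq ι] (d K1 H : ℕ) (δ ε : ℝ) (hδ : 0 < δ)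
    (hε : 0 < ε) :
    ∃ (D K' X0 E : ℕ) (κ : ℝ), 0 < κ ∧ ∀ X : ℕ, X0 ≤ X → ∀ q : ℕ, Squarefree q → q ≤ X →
      (∀ p ∈ q.primeFactors, (p : ℝ) ≤ (X : ℝ) ^ κ) →
      ∀ (T : Finset (ι → ℤ)) (M : (ι → ℤ) → ℤ) (G : Fin d → MvPolynomial ι ℤ)
        (g : Option ι → MvPolynomial (Fin d ⊕ ι) ℤ) (j0 : Fin d),
        (∀ z ∈ T, ∀ j, |eval z (G j)| ≤ (X : ℤ) ^ K1) →
        (∀ z ∈ T, ∀ i : ι, eval (graphPt G z) (g (some i)) = 0) →
        (∀ z ∈ T, (X : ℝ) ^ ε ≤ ((∏ p ∈ q.primeFactors.filter (fun p : ℕ =>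
          ¬ (p : ℤ) ^ H ∣ jac g j0 (graphPt G z) ∧ (p : ℤ) ^ E ∣ eval (graphPt G z) (g none)),
            p : ℕ) : ℝ)) →
        (X : ℝ) ^ δ ≤ ((T.image M).card : ℝ) →
        ∃ T' ⊆ T, (X : ℝ) ^ (δ / 2) ≤ ((T'.image M).card : ℝ) ∧
          ∃ c : MvPolynomial (Fin d) ℤ, c ≠ 0 ∧ c.totalDegree ≤ D ∧
            (∀ m, |c.coeff m| ≤ (X : ℤ) ^ K') ∧
            ∀ z ∈ T', eval (fun j => eval z (G j)) c = 0 := by
  classical
  rcases Nat.eq_zero_or_pos d with hd0 | hd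
  · subst hd0
    exact ⟨0, 0, 0, 0, 1, one_pos, fun X _ q _ _ _ T M G g j0 => j0.elim0⟩
  have hd' : 1 ≤ d := hd
  set n : ℕ := Fintype.card ι with hn
  set W : ℝ := 1 + 2 * (2 * (H : ℝ) + 1) * (n : ℝ) with hW
  have hW0 : 0 < W := by positivity
  set lam : ℝ := min ε (δ / (4 * W)) with hlamdef
  have hlam : 0 < lam := lt_min hε (by positivity)
  have hlamε : lam ≤ ε := min_le_left _ _
  have hlamδ : lam + 2 * lam * (2 * H + 1) * (n : ℝ) ≤ δ / 4 := by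
    have h1 : lam ≤ δ / (4 * W) := min_le_right _ _
    have h2 : lam * W ≤ δ / (4 * W) * W := mul_le_mul_of_nonneg_right h1 hW0.le
    have h3 : δ / (4 * W) * W = δ / 4 := by field_simp
    have h4 : lam + 2 * lam * (2 * H + 1) * (n : ℝ) = lam * W := by rw [hW]; ring
    rw [h4, ← h3]
    exact h2
  set K : ℕ := ⌈((K1 : ℝ) + 1) / lam⌉₊ with hK
  have hKlam : (K1 : ℝ) + 1 ≤ lam * K := by
    have h1 := Nat.le_ceil (((K1 : ℝ) + 1) / lam)
    rw [← hK, div_le_iff₀ hlam] at h1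
    linarith
  obtain ⟨D, J, hs2, hgrow⟩ := growth d hd' K
  set s : ℕ := (D + d).choose d with hs
  obtain ⟨S, hS⟩ : ∃ S, S = ∑ j ∈ Finset.range J, (s - (j + (d - 1)).choose (d - 1)) := ⟨_, rfl⟩
  obtain ⟨C, hC1, hC⟩ := Pool.Agent.Helper87.Camp.tau_rpow (lam / 2) (by positivity)
  refine ⟨D, K1 * D * s + 1, ⌈C ^ (2 / lam)⌉₊ + 2 + s.factorial + 1, S + 2 * H, lam / 2,
    by positivity, ?_⟩
  intro X hX q hq hqX hqp T M G g j0 h1 h2 h3 h4
  have hX2 : 2 ≤ X := by omega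
  have hX1' : (1 : ℝ) ≤ (X : ℝ) := by exact_mod_cast (by omega : 1 ≤ X)
  have hX0' : (0 : ℝ) < (X : ℝ) := by linarith
  have hC0 : (0 : ℝ) ≤ C := le_trans zero_le_one hC1
  have hCX : C ≤ (X : ℝ) ^ (lam / 2) := by
    have h5 : C ^ (2 / lam) ≤ (X : ℝ) := by
      refine (Nat.le_ceil _).trans ?_
      exact_mod_cast (by omega : ⌈C ^ (2 / lam)⌉₊ ≤ X)
    calc C = (C ^ (2 / lam)) ^ (lam / 2) := by
          rw [← Real.rpow_mul hC0]
          have : 2 / lam * (lam / 2) = 1 := by field_simp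
          rw [this, Real.rpow_one]
      _ ≤ (X : ℝ) ^ (lam / 2) :=
          Real.rpow_le_rpow (Real.rpow_nonneg hC0 _) h5 (by positivity)
  have hq1 : 1 ≤ q := Nat.one_le_iff_ne_zero.2 hq.ne_zero
  have hdiv : (q.divisors.card : ℝ) ≤ (X : ℝ) ^ lam := by
    have h5 : ((Pool.Agent.Helper10.tau q : ℕ) : ℝ) ≤ C * (q : ℝ) ^ (lam / 2) := hC q hq.ne_zero
    have h6 : (q : ℝ) ^ (lam / 2) ≤ (X : ℝ) ^ (lam / 2) :=
      Real.rpow_le_rpow (Nat.cast_nonneg _) (by exact_mod_cast hqX) (by positivity)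
    calc (q.divisors.card : ℝ) = ((Pool.Agent.Helper10.tau q : ℕ) : ℝ) := rfl
      _ ≤ C * (q : ℝ) ^ (lam / 2) := h5
      _ ≤ (X : ℝ) ^ (lam / 2) * (X : ℝ) ^ (lam / 2) :=
          mul_le_mul hCX h6 (Real.rpow_nonneg (Nat.cast_nonneg _) _)
            (Real.rpow_nonneg hX0'.le _)
      _ = (X : ℝ) ^ lam := by
          rw [← Real.rpow_add hX0']
          congr 1
          ring
  have hTne : T.Nonempty := by
    have h9 : (0 : ℝ) < ((T.image M).card : ℝ) :=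
      lt_of_lt_of_le (Real.rpow_pos_of_pos hX0' _) h4
    have h10 : 0 < (T.image M).card := by exact_mod_cast h9
    exact Finset.image_nonempty.mp (Finset.card_pos.mp h10)
  obtain ⟨ρ, hρq, hρX, -, T', hT', h5, h6, h7⟩ := pigeonC lam hlam H X q hX2 hq hqp hdiv T hTne M
    (fun z => q.primeFactors.filter (fun p : ℕ =>
      ¬ (p : ℤ) ^ H ∣ jac g j0 (graphPt G z) ∧
        (p : ℤ) ^ (S + 2 * H) ∣ eval (graphPt G z) (g none)))
    (fun z hz => ⟨Finset.filter_subset _ _,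
      (Real.rpow_le_rpow_of_exponent_le hX1' hlamε).trans (h3 z hz)⟩)
  have hbig : (X : ℝ) ^ (δ / 2) ≤ ((T'.image M).card : ℝ) := by
    have h8 : (X : ℝ) ^ (δ / 4) * (X : ℝ) ^ (δ / 2) ≤
        (X : ℝ) ^ (δ / 4) * ((T'.image M).card : ℝ) := by
      have h9 : (X : ℝ) ^ (δ / 4) * (X : ℝ) ^ (δ / 2) ≤ (X : ℝ) ^ δ := by
        rw [← Real.rpow_add hX0']
        exact Real.rpow_le_rpow_of_exponent_le hX1' (by linarith)
      refine h9.trans (h4.trans (h7.trans ?_))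
      exact mul_le_mul_of_nonneg_right (Real.rpow_le_rpow_of_exponent_le hX1' hlamδ)
        (Nat.cast_nonneg _)
    exact le_of_mul_le_mul_left h8 (Real.rpow_pos_of_pos hX0' _)
  refine ⟨T', hT', hbig, ?_⟩
  have hne : T'.Nonempty := by
    have h9 : (0 : ℝ) < ((T'.image M).card : ℝ) :=
      lt_of_lt_of_le (Real.rpow_pos_of_pos hX0' _) hbig
    have h10 : 0 < (T'.image M).card := by exact_mod_cast h9
    exact Finset.image_nonempty.mp (Finset.card_pos.mp h10)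
  have hρsq : Squarefree ρ := hq.squarefree_of_dvd hρq
  have hmem : ∀ z ∈ T', ∀ p ∈ ρ.primeFactors,
      ¬ (p : ℤ) ^ H ∣ jac g j0 (graphPt G z) ∧
        (p : ℤ) ^ (S + 2 * H) ∣ eval (graphPt G z) (g none) := fun z hz p hp =>
    (Finset.mem_filter.1 (h5 z hz hp)).2
  refine dropC_core (J := J) (E := S + 2 * H) (H := H) hd' hs (by omega) lam X hX2 (by omega)
    ?_ (by rw [hS]) T' hne G g j0
    (fun z hz => h1 z (hT' hz)) (fun z hz => h2 z (hT' hz)) ρ hρsq hρX ?_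
    (fun z hz p hp => (hmem z hz p hp).1) h6
  · have h11 : ((K * D * s + K : ℕ) : ℝ) ≤
        ((∑ j ∈ Finset.range J, (s - (j + (d - 1)).choose (d - 1)) : ℕ) : ℝ) := by
      exact_mod_cast hgrow
    calc ((K1 : ℝ) + 1) * ((D : ℝ) * s + 1) ≤ (lam * K) * ((D : ℝ) * s + 1) :=
          mul_le_mul_of_nonneg_right hKlam (by positivity)
      _ = lam * ((K * D * s + K : ℕ) : ℝ) := by push_cast; ring
      _ ≤ _ := mul_le_mul_of_nonneg_left h11 hlam.le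
  · intro z hz
    have h8 : (ρ : ℤ) = ∏ p ∈ ρ.primeFactors, (p : ℤ) := by
      have h9 := congrArg (fun m : ℕ => (m : ℤ)) (Nat.prod_primeFactors_of_squarefree hρsq)
      beta_reduce at h9
      rw [Nat.cast_prod] at h9
      exact h9.symm
    rw [h8, ← Finset.prod_pow]
    refine Finset.prod_dvd_of_coprime ?_ fun p hp => (hmem z hz p hp).2
    intro p hp p' hp' hpp
    have hp1 : p.Prime := Nat.prime_of_mem_primeFactors hp
    have hp2 : p'.Prime := Nat.prime_of_mem_primeFactors hp'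
    refine IsCoprime.pow ?_
    exact Nat.isCoprime_iff_coprime.2 ((Nat.coprime_primes hp1 hp2).2 hpp)

end Pool.Agent.Helper93.TS
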