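import Pool.Agent.Helper85.VA.Api

/-!
TS-10 Zero (project TS, MP_464c42_nt). Functions vanishing modulo high powers of most primes of `q`.

* `bad q H f`: the product of the primes of `q` whose `H`-th power does not divide `f`.
* `Moduli F q`: the `q ν` are squarefree, at most `X ν`, and their primes are smaller than every power of `X ν`.
* `Zero 𝒮 q Q f`: for all `H`, `j` the points with the property `Q ν` and `bad (q ν) H (f ν z) ^ j > X ν` are a small set.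

Proofs. `bad_pos`: primes are positive. `bad_le_of_imp`: inclusion of the index sets, factors `≥ 1`
(`Finset.prod_le_prod_of_subset_of_one_le'`). `bad_le_mul`: the index set on the left is contained in the union of those on the right;
`∏ over a union ≤ product of the two products` (e.g. `Finset.prod_union_inter` and factors `≥ 1`). `bad_eq_one`: empty product.
`Zero.lin`: by `bad_le_mul` with `H1 = H2 = H`: `bad (u f + v g) ≤ bad f * bad g`; if its `j`-th power exceeds `X` then `(bad f) ^ (2 j)` or `(bad g) ^ (2 j)`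
exceeds `X` (otherwise the square of the product is at most `X ^ 2`). Use `Setup.Small.or`, `Setup.Small.mono`. The other statements are immediate from
`Setup.Small.mono` and `Setup.small_of_eventually`.
-/

set_option autoImplicit false

open MvPolynomial

namespace Pool.Agent.Helper93.TS

open Pool.Agent.Helper91.CPX Pool.Agent.Helper85.VA

/-- The product of the primes of `q` whose `H`-th power does not divide `f`. -/
def bad (q H : ℕ) (f : ℤ) : ℕ := ∏ p ∈ q.primeFactors.filter (fun p : ℕ => ¬ (p : ℤ) ^ H ∣ f), p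

/-- The `q ν` are squarefree, at most `X ν`, and their primes are smaller than every power of `X ν`. -/
def Moduli (F : Frame) (q : ℕ → ℕ) : Prop :=
  (∀ᶠ ν in (F.U : Filter ℕ), Squarefree (q ν) ∧ q ν ≤ F.X ν) ∧
    ∀ j : ℕ, ∀ᶠ ν in (F.U : Filter ℕ), ∀ p ∈ (q ν).primeFactors, p ^ j ≤ F.X ν

theorem bad_pos (q H : ℕ) (f : ℤ) : 1 ≤ bad q H f := by
  unfold bad
  refine Finset.one_le_prod' fun p hp => ?_
  rw [Finset.mem_filter] at hp
  exact (Nat.prime_of_mem_primeFactors hp.1).one_le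

private theorem prod_mono {A B : Finset ℕ} (h : A ⊆ B) (hB : ∀ p ∈ B, 1 ≤ p) :
    ∏ p ∈ A, p ≤ ∏ p ∈ B, p :=
  Finset.prod_le_prod_of_subset_of_one_le' h fun p hp _ => hB p hp

theorem bad_le_of_imp {q H H' : ℕ} {f f' : ℤ}
    (h : ∀ p ∈ q.primeFactors, (p : ℤ) ^ H' ∣ f' → (p : ℤ) ^ H ∣ f) : bad q H f ≤ bad q H' f' := by
  classical
  unfold bad
  refine prod_mono (fun p hp => ?_) fun p hp => ?_
  · rw [Finset.mem_filter] at hp ⊢
    exact ⟨hp.1, fun hc => hp.2 (h p hp.1 hc)⟩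
  · rw [Finset.mem_filter] at hp
    exact (Nat.prime_of_mem_primeFactors hp.1).one_le

theorem bad_le_mul {q H H1 H2 : ℕ} {f f1 f2 : ℤ}
    (h : ∀ p ∈ q.primeFactors, (p : ℤ) ^ H1 ∣ f1 → (p : ℤ) ^ H2 ∣ f2 → (p : ℤ) ^ H ∣ f) :
    bad q H f ≤ bad q H1 f1 * bad q H2 f2 := by
  classical
  unfold bad
  have h1 : ∏ p ∈ q.primeFactors.filter (fun p : ℕ => ¬ (p : ℤ) ^ H ∣ f), p ≤
      ∏ p ∈ q.primeFactors.filter (fun p : ℕ => ¬ (p : ℤ) ^ H1 ∣ f1) ∪
        q.primeFactors.filter (fun p : ℕ => ¬ (p : ℤ) ^ H2 ∣ f2), p := by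
    refine prod_mono (fun p hp => ?_) fun p hp => ?_
    · rw [Finset.mem_filter] at hp
      rw [Finset.mem_union, Finset.mem_filter, Finset.mem_filter]
      by_cases h3 : (p : ℤ) ^ H1 ∣ f1
      · exact Or.inr ⟨hp.1, fun hc => hp.2 (h p hp.1 h3 hc)⟩
      · exact Or.inl ⟨hp.1, h3⟩
    · rw [Finset.mem_union, Finset.mem_filter, Finset.mem_filter] at hp
      rcases hp with hp | hp
      · exact (Nat.prime_of_mem_primeFactors hp.1).one_le
      · exact (Nat.prime_of_mem_primeFactors hp.1).one_le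
  refine h1.trans ?_
  rw [← Finset.prod_union_inter]
  refine Nat.le_mul_of_pos_right _ (Finset.prod_pos fun p hp => ?_)
  rw [Finset.mem_inter, Finset.mem_filter] at hp
  exact (Nat.prime_of_mem_primeFactors hp.1.1).pos

theorem bad_eq_one {q H : ℕ} {f : ℤ} (h : ∀ p ∈ q.primeFactors, (p : ℤ) ^ H ∣ f) :
    bad q H f = 1 := by
  unfold bad
  rw [Finset.filter_false_of_mem fun p hp => not_not.mpr (h p hp), Finset.prod_empty]

section zero

variable {ι : Type} [Fintype ι] [DecidableEq ι]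

/-- At most points with the property `Q`, `f` is divisible by high powers of most primes of `q`. -/
def Zero (𝒮 : Setup ι) (q : ℕ → ℕ) (Q : ℕ → (ι → ℤ) → Prop) (f : ℕ → (ι → ℤ) → ℤ) : Prop :=
  ∀ H j : ℕ, 𝒮.Small (fun ν z => Q ν z ∧ 𝒮.F.X ν < bad (q ν) H (f ν z) ^ j)

variable {𝒮 : Setup ι} {q : ℕ → ℕ} {Q : ℕ → (ι → ℤ) → Prop} {f g : ℕ → (ι → ℤ) → ℤ}

theorem Zero.lin (hf : Zero 𝒮 q Q f) (hg : Zero 𝒮 q Q g) (u v : ℕ → (ι → ℤ) → ℤ) :
    Zero 𝒮 q Q (fun ν z => u ν z * f ν z + v ν z * g ν z) := by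
  intro H j
  refine ((hf H (2 * j)).or (hg H (2 * j))).mono (Filter.Eventually.of_forall fun ν z _ h => ?_)
  obtain ⟨hQ, h⟩ := h
  have h1 : bad (q ν) H (u ν z * f ν z + v ν z * g ν z) ≤
      bad (q ν) H (f ν z) * bad (q ν) H (g ν z) :=
    bad_le_mul fun p _ h1 h2 => dvd_add (Dvd.dvd.mul_left h1 _) (Dvd.dvd.mul_left h2 _)
  have h2 : 𝒮.F.X ν < (bad (q ν) H (f ν z) * bad (q ν) H (g ν z)) ^ j :=
    lt_of_lt_of_le h (Nat.pow_le_pow_left h1 j)
  by_contra hc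
  push Not at hc
  obtain ⟨h3, h4⟩ := hc
  have h3' := h3 hQ
  have h4' := h4 hQ
  have h5 : ((bad (q ν) H (f ν z) * bad (q ν) H (g ν z)) ^ j) ^ 2 ≤ 𝒮.F.X ν ^ 2 := by
    calc ((bad (q ν) H (f ν z) * bad (q ν) H (g ν z)) ^ j) ^ 2 =
        bad (q ν) H (f ν z) ^ (2 * j) * bad (q ν) H (g ν z) ^ (2 * j) := by ring
      _ ≤ 𝒮.F.X ν * 𝒮.F.X ν := Nat.mul_le_mul h3' h4'
      _ = 𝒮.F.X ν ^ 2 := by ring
  exact absurd (lt_of_lt_of_le h2 ((Nat.pow_le_pow_iff_left (by norm_num)).mp h5)) (lt_irrefl _)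

theorem Zero.mul (hf : Zero 𝒮 q Q f) (u : ℕ → (ι → ℤ) → ℤ) :
    Zero 𝒮 q Q (fun ν z => u ν z * f ν z) := by
  intro H j
  refine (hf H j).mono (Filter.Eventually.of_forall fun ν z _ h => ⟨h.1, ?_⟩)
  refine lt_of_lt_of_le h.2 (Nat.pow_le_pow_left ?_ j)
  exact bad_le_of_imp fun p _ h1 => Dvd.dvd.mul_left h1 _

theorem Zero.congr (hf : Zero 𝒮 q Q f)
    (h : ∀ᶠ ν in (𝒮.F.U : Filter ℕ), ∀ z ∈ 𝒮.T ν, f ν z = g ν z) : Zero 𝒮 q Q g := by
  intro H j
  refine (hf H j).mono ?_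
  filter_upwards [h] with ν h1 z hz h2
  rw [h1 z hz]
  exact h2

theorem zero_of_dvd (h : ∀ H : ℕ, ∀ᶠ ν in (𝒮.F.U : Filter ℕ), ∀ z ∈ 𝒮.T ν, Q ν z →
    ∀ p ∈ (q ν).primeFactors, (p : ℤ) ^ H ∣ f ν z) : Zero 𝒮 q Q f := by
  intro H j
  refine 𝒮.small_of_eventually ?_
  filter_upwards [h H] with ν h1 z hz h2
  obtain ⟨hQ, h3⟩ := h2
  rw [bad_eq_one (h1 z hz hQ), one_pow] at h3
  have := 𝒮.F.two_le ν
  omega

end zero

end Pool.Agent.Helper93.TS
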