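import Pool.Agent.Helper85.VA.Stab
import Pool.Agent.Helper93.TS.DropC
import Pool.Agent.Helper93.TS.Zero

/-!
TS-11 StabC (project TS, MP_464c42_nt). STABILITY: a relation between the terms modulo the primes of `q` can be differentiated.

Proof. (Model: `stab` in `Helper85/VA/Stab.lean`; the verification of the vanishing of `g (some i)`, of the bound of the `G j` and of `jac_formula'`, `nabla_map` is the same.)
Write `S(z) = ∑ b, W_b(z) τ_b(z)`, `N(z) = ∑ b, N_b(z) τ_b(z)`, `N_b = nabla G ρ j (EZ b) (W b)`. Let `H`, `i` be given (`i` the exponent in `Zero`) and suppose that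
`B = {Q ∧ X < bad q H N ^ i}` is not small: `X ^ δB ≤ card M(B)` for almost all `ν`. `i ≥ 1` (for `i = 0` the set is empty). Put `δ = δB / 2`, `ε = 1 / (2 i)`, `K1 = ∑ j, CG j` as in `stab`, and
`D, K', X0, E, κ` from `dropC ι d K1 H δ ε`. By `hW E (2 i)` the set `C = {Q ∧ X < bad q E S ^ (2 i)}` is small, so for almost all `ν`: `card M(C) < X ^ (δB / 2)`
(`Ultrafilter.eventually_not`). For almost all `ν` (`X ^ (δB / 2) ≥ 2`): `T0 = 𝒮.sub B ν \ 𝒮.sub C ν` has `card M(T0) ≥ card M(B) - card M(C) ≥ X ^ δB - X ^ (δB / 2) ≥ X ^ (δB / 2)`.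
We apply `dropC` with `T := T0`, `q := q ν`, `G`, `g`, `j0 := j` as in `stab`. The primes of `q ν` are at most `X ^ κ` by `hq.2 n` with `n ≥ 1 / κ`. For `z ∈ T0`:
`bad q H N ≤ (∏ over the p ∈ q with ¬ p ^ H ∣ N and p ^ E ∣ S) * bad q E S`, `X ^ (1 / i) < bad q H N`, `bad q E S ≤ X ^ (1 / (2 i))`, so the product is at least `X ^ (1 / (2 i)) = X ^ ε`;
`N(z) = (∏ z) * jac` (`jac_formula'`, as in `stab`), so `¬ p ^ H ∣ N` implies `¬ p ^ H ∣ jac`, and `eval (graphPt G z) (g none) = S(z)` (`eval_relPoly`): the set of primes in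
`dropC` contains these primes. Then `no_drop F M T bdd max G hinj D K' (δ / 2)` gives the contradiction, as in `stab`.
-/

set_option autoImplicit false

open MvPolynomial

namespace Pool.Agent.Helper93.TS

open Pool.Agent.Helper91.CPX Pool.Agent.Helper85.VA

private theorem prod_le_union (A B C : Finset ℕ) (h : A ⊆ B ∪ C) (hpos : ∀ p ∈ B ∪ C, 1 ≤ p) :
    ∏ p ∈ A, p ≤ (∏ p ∈ B, p) * ∏ p ∈ C, p := by
  have h1 : ∏ p ∈ A, p ≤ ∏ p ∈ B ∪ C, p :=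
    Finset.prod_le_prod_of_subset_of_one_le' h fun p hp _ => hpos p hp
  have h2 : 1 ≤ ∏ p ∈ B ∩ C, p := Finset.one_le_prod' fun p hp =>
    hpos p (Finset.mem_union_left _ (Finset.mem_inter.1 hp).1)
  calc ∏ p ∈ A, p ≤ (∏ p ∈ B ∪ C, p) * 1 := by rw [mul_one]; exact h1
    _ ≤ (∏ p ∈ B ∪ C, p) * ∏ p ∈ B ∩ C, p := Nat.mul_le_mul_left _ h2
    _ = _ := Finset.prod_union_inter

/-- the numerical step: `a ≤ P b`, `X < a ^ i`, `b ^ (2 i) ≤ X` give `X ^ (1 / (2 i)) ≤ P` -/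
private theorem num_step {X a b P i : ℕ} (hX : 2 ≤ X) (hi : 0 < i) (hab : a ≤ P * b)
    (ha : X < a ^ i) (hb : b ^ (2 * i) ≤ X) : (X : ℝ) ^ (1 / (2 * (i : ℝ))) ≤ (P : ℝ) := by
  have hXR : (0 : ℝ) < X := by exact_mod_cast (by omega : 0 < X)
  have hiR : (0 : ℝ) < i := by exact_mod_cast hi
  obtain ⟨y, hy⟩ : ∃ y, y = (X : ℝ) ^ (1 / (2 * (i : ℝ))) := ⟨_, rfl⟩
  have hy0 : 0 < y := by rw [hy]; positivity
  have hyp : y ^ (2 * i) = (X : ℝ) := by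
    rw [hy, ← Real.rpow_natCast, ← Real.rpow_mul hXR.le]
    push_cast
    rw [one_div, inv_mul_cancel₀ (by positivity), Real.rpow_one]
  rw [← hy]
  have hb' : (b : ℝ) ≤ y := by
    have h1 : (b : ℝ) ^ (2 * i) ≤ y ^ (2 * i) := by
      rw [hyp]
      exact_mod_cast hb
    exact le_of_pow_le_pow_left₀ (by omega) hy0.le h1
  by_contra hcon
  rw [not_le] at hcon
  have h2 : (a : ℝ) ≤ y * y := by
    have h3 : (a : ℝ) ≤ (P : ℝ) * b := by exact_mod_cast hab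
    have h4 : (P : ℝ) * b ≤ y * y := mul_le_mul hcon.le hb' (by positivity) hy0.le
    exact h3.trans h4
  have h5 : (a : ℝ) ^ i ≤ X := by
    calc (a : ℝ) ^ i ≤ (y * y) ^ i := pow_le_pow_left₀ (by positivity) h2 i
      _ = y ^ (2 * i) := by rw [two_mul, pow_add, mul_pow]
      _ = X := hyp
  have h6 : (X : ℝ) < (a : ℝ) ^ i := by exact_mod_cast ha
  linarith

/-- the primes are at most `X ^ κ` -/
private theorem prime_step {X p n : ℕ} {κ : ℝ} (hX : 2 ≤ X) (hκ : 0 < κ) (hn : 1 / κ ≤ n)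
    (hp : p ^ n ≤ X) : (p : ℝ) ≤ (X : ℝ) ^ κ := by
  have hXR : (1 : ℝ) ≤ X := by exact_mod_cast (by omega : 1 ≤ X)
  have hnR : (0 : ℝ) < n := lt_of_lt_of_le (by positivity) hn
  have hn0 : n ≠ 0 := by
    rintro rfl
    simp at hnR
  have h1 : ((p : ℝ) ^ n) ^ ((n : ℝ)⁻¹) ≤ (X : ℝ) ^ ((n : ℝ)⁻¹) :=
    Real.rpow_le_rpow (by positivity) (by exact_mod_cast hp) (by positivity)
  rw [Real.pow_rpow_inv_natCast (by positivity) hn0] at h1
  refine h1.trans (Real.rpow_le_rpow_of_exponent_le hXR ?_)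
  rw [inv_le_comm₀ hnR hκ, ← one_div]
  exact hn

theorem stabC {ι : Type} [Fintype ι] [DecidableEq ι] (𝒮 : Setup ι) {β : Type} [Fintype β]
    (τ : Terms 𝒮 β) {d : ℕ} (G : Fin d → MvPolynomial ι (Zb 𝒮.F))
    (ρ : ι → Polynomial (MvPolynomial (Fin d) (Zb 𝒮.F)))
    (hinj : ∀ c : MvPolynomial (Fin d) (K0 𝒮.F),
      aeval (fun j => map (toK 𝒮.F) (G j)) c ∈ vanIdeal 𝒮.F 𝒮.T → c = 0)
    (h2 : ∀ i, 𝒮.cls (subst G i (ρ i)) = 0) (j : Fin d) (q : ℕ → ℕ) (hq : Moduli 𝒮.F q)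
    (Q : ℕ → (ι → ℤ) → Prop) (W : β → MvPolynomial ι (Zb 𝒮.F))
    (hW : Zero 𝒮 q Q (fun ν z => ∑ b, 𝒮.ev ν z (W b) * τ.val ν b z)) :
    Zero 𝒮 q Q (fun ν z =>
      ∑ b, 𝒮.ev ν z (nabla G ρ j (τ.EZ b) (W b)) * τ.val ν b z) := by
  classical
  intro H i hL
  rcases Nat.eq_zero_or_pos i with hi | hi
  · subst hi
    refine 𝒮.small_of_eventually (Filter.Eventually.of_forall fun ν z _ h => ?_) hL
    have := 𝒮.F.two_le ν
    rw [pow_zero] at h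
    omega
  obtain ⟨δB, hδB, hcardB⟩ := hL
  obtain ⟨δ, hδe⟩ : ∃ δ, δ = δB / 2 := ⟨_, rfl⟩
  have hδ : 0 < δ := by rw [hδe]; positivity
  have hiR : (0 : ℝ) < i := by exact_mod_cast hi
  -- polynomial bounds
  choose CG hCG using fun j => poly_bound 𝒮.F 𝒮.T 𝒮.bdd (G j)
  have hCG' : ∀ᶠ ν in (𝒮.F.U : Filter ℕ), ∀ z ∈ 𝒮.T ν, ∀ j,
      |eval z (map (evAt 𝒮.F ν) (G j))| ≤ (𝒮.F.X ν : ℤ) ^ (∑ j, CG j) := by
    have h1 := Filter.eventually_all.mpr hCG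
    filter_upwards [h1] with ν h2 z hz j
    exact (h2 j z hz).trans (𝒮.F.pow_mono ν (Finset.single_le_sum (fun _ _ => Nat.zero_le _)
      (Finset.mem_univ j)))
  have hρ' : ∀ᶠ ν in (𝒮.F.U : Filter ℕ), ∀ i, ∀ z ∈ 𝒮.T ν,
      eval z (map (evAt 𝒮.F ν) (subst G i (ρ i))) = 0 :=
    Filter.eventually_all.mpr fun i => (𝒮.cls_eq_zero_iff _).mp (h2 i)
  obtain ⟨D, K', X0, E, κ, hκ, hdrop⟩ := dropC ι d (∑ j, CG j) H δ (1 / (2 * (i : ℝ))) hδ
    (by positivity)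
  -- the second bad set is small
  have hC : ∀ᶠ ν in (𝒮.F.U : Filter ℕ), ¬ (𝒮.F.X ν : ℝ) ^ δ ≤ (((𝒮.sub (fun ν z => Q ν z ∧
      𝒮.F.X ν < bad (q ν) E (∑ b, 𝒮.ev ν z (W b) * τ.val ν b z) ^ (2 * i)) ν).image
        (𝒮.M ν)).card : ℝ) := by
    rw [Ultrafilter.eventually_not]
    intro h
    exact hW E (2 * i) ⟨δ, hδ, h⟩
  have hbig := 𝒮.F.tends ⌈(2 : ℝ) ^ (1 / δ)⌉₊
  refine no_drop 𝒮.F 𝒮.M 𝒮.T 𝒮.bdd 𝒮.max G hinj D K' (δ / 2) (by positivity) ?_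
  filter_upwards [hcardB, hC, hbig, hCG', hρ', 𝒮.F.tends X0, hq.1, hq.2 ⌈1 / κ⌉₊] with
    ν hcardB hC hbig hCG hρ hX0 hq1 hq2
  have hX2 := 𝒮.F.two_le ν
  have hXR : (0 : ℝ) < 𝒮.F.X ν := by exact_mod_cast (by omega : 0 < 𝒮.F.X ν)
  have hd := hdrop (𝒮.F.X ν) hX0 (q ν) hq1.1 hq1.2
    (fun p hp => prime_step hX2 hκ (Nat.le_ceil _) (hq2 p hp))
    (𝒮.sub (fun ν z => Q ν z ∧ 𝒮.F.X ν < bad (q ν) H
      (∑ b, 𝒮.ev ν z (nabla G ρ j (τ.EZ b) (W b)) * τ.val ν b z) ^ i) ν \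
      𝒮.sub (fun ν z => Q ν z ∧
        𝒮.F.X ν < bad (q ν) E (∑ b, 𝒮.ev ν z (W b) * τ.val ν b z) ^ (2 * i)) ν) (𝒮.M ν)
    (fun j => map (evAt 𝒮.F ν) (G j))
    (fun a => a.elim (rename Sum.inr (relPoly (τ.t ν) (τ.E ν) (fun b => map (evAt 𝒮.F ν) (W b))))
      (fun i => conv i ((ρ i).map (map (evAt 𝒮.F ν))))) j
  refine Exists.imp (fun T' h => ⟨h.1.trans (Finset.sdiff_subset.trans (𝒮.sub_subset ν)), h.2⟩)
    (hd ?_ ?_ ?_ ?_)
  · intro z hz j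
    exact hCG z (𝒮.mem_sub.mp (Finset.mem_sdiff.mp hz).1).1 j
  · intro z hz i
    obtain ⟨hz1, -⟩ := 𝒮.mem_sub.mp (Finset.mem_sdiff.mp hz).1
    change eval (graphPt (fun j => map (evAt 𝒮.F ν) (G j)) z)
        (conv i ((ρ i).map (map (evAt 𝒮.F ν)))) = 0
    rw [conv_eval, ← subst_map]
    exact hρ i z hz1
  · intro z hz
    obtain ⟨hzB, hzC⟩ := Finset.mem_sdiff.mp hz
    obtain ⟨hz1, hzQ, hzN⟩ := 𝒮.mem_sub.mp hzB
    have hzS : bad (q ν) E (∑ b, 𝒮.ev ν z (W b) * τ.val ν b z) ^ (2 * i) ≤ 𝒮.F.X ν := by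
      by_contra hcon
      exact hzC (𝒮.mem_sub.mpr ⟨hz1, hzQ, not_le.mp hcon⟩)
    have hform := jac_formula' (τ.t ν) (τ.E ν) (fun b => map (evAt 𝒮.F ν) (W b))
      (fun j => map (evAt 𝒮.F ν) (G j)) (fun i => (ρ i).map (map (evAt 𝒮.F ν))) j z
    have hN : ∀ b, nabla (fun j => map (evAt 𝒮.F ν) (G j)) (fun i => (ρ i).map (map (evAt 𝒮.F ν))) j
        (fun v => ((τ.E ν b v : ℕ) : ℤ)) (map (evAt 𝒮.F ν) (W b)) =
        map (evAt 𝒮.F ν) (nabla G ρ j (τ.EZ b) (W b)) := by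
      intro b
      rw [nabla_map]
      congr 1
      funext v
      exact (τ.hEZ ν b v).symm
    simp only [hN] at hform
    have hS := eval_relPoly (τ.t ν) (τ.E ν) (fun b => map (evAt 𝒮.F ν) (W b))
      (fun j => map (evAt 𝒮.F ν) (G j)) z
    refine num_step hX2 hi ?_ hzN hzS
    unfold bad
    refine prod_le_union _ _ _ ?_ ?_
    · intro p hp
      rw [Finset.mem_filter] at hp
      rw [Finset.mem_union, Finset.mem_filter, Finset.mem_filter]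
      by_cases hpS : (p : ℤ) ^ E ∣ ∑ b, 𝒮.ev ν z (W b) * τ.val ν b z
      · refine Or.inl ⟨hp.1, ?_, ?_⟩
        · intro hJ
          apply hp.2
          have h3 := Dvd.dvd.mul_left hJ (∏ i, z i)
          rw [hform] at h3
          exact h3
        · change (p : ℤ) ^ E ∣ eval (graphPt (fun j => map (evAt 𝒮.F ν) (G j)) z)
            (rename Sum.inr (relPoly (τ.t ν) (τ.E ν) (fun b => map (evAt 𝒮.F ν) (W b))))
          rw [hS]
          exact hpS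
      · exact Or.inr ⟨hp.1, hpS⟩
    · intro p hp
      rw [Finset.mem_union, Finset.mem_filter, Finset.mem_filter] at hp
      rcases hp with hp | hp <;> exact (Nat.prime_of_mem_primeFactors hp.1).one_lt.le
  · -- the number of values
    obtain ⟨B, hB⟩ : ∃ B, B = 𝒮.sub (fun ν z => Q ν z ∧ 𝒮.F.X ν < bad (q ν) H
      (∑ b, 𝒮.ev ν z (nabla G ρ j (τ.EZ b) (W b)) * τ.val ν b z) ^ i) ν := ⟨_, rfl⟩
    obtain ⟨C, hCe⟩ : ∃ C, C = 𝒮.sub (fun ν z => Q ν z ∧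
        𝒮.F.X ν < bad (q ν) E (∑ b, 𝒮.ev ν z (W b) * τ.val ν b z) ^ (2 * i)) ν := ⟨_, rfl⟩
    rw [← hB] at hcardB ⊢
    rw [← hCe] at hC ⊢
    rw [not_le] at hC
    have h3 : (B.image (𝒮.M ν)).card ≤ ((B \ C).image (𝒮.M ν)).card + (C.image (𝒮.M ν)).card := by
      refine le_trans (Finset.card_le_card ?_) (Finset.card_union_le _ _)
      rw [← Finset.image_union]
      refine Finset.image_subset_image fun z hz => ?_
      rw [Finset.mem_union, Finset.mem_sdiff]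
      by_cases h : z ∈ C
      · exact Or.inr h
      · exact Or.inl ⟨hz, h⟩
    have h3R : ((B.image (𝒮.M ν)).card : ℝ) ≤
        (((B \ C).image (𝒮.M ν)).card : ℝ) + ((C.image (𝒮.M ν)).card : ℝ) := by
      exact_mod_cast h3
    have h4 : (𝒮.F.X ν : ℝ) ^ δB = (𝒮.F.X ν : ℝ) ^ δ * (𝒮.F.X ν : ℝ) ^ δ := by
      rw [← Real.rpow_add hXR]
      congr 1
      rw [hδe]
      ring
    have h5 : (2 : ℝ) ≤ (𝒮.F.X ν : ℝ) ^ δ := by
      have h6 : (2 : ℝ) ^ (1 / δ) ≤ (𝒮.F.X ν : ℝ) :=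
        (Nat.le_ceil _).trans (by exact_mod_cast hbig)
      calc (2 : ℝ) = ((2 : ℝ) ^ (1 / δ)) ^ δ := by
            rw [← Real.rpow_mul (by norm_num), one_div, inv_mul_cancel₀ hδ.ne', Real.rpow_one]
        _ ≤ _ := Real.rpow_le_rpow (by positivity) h6 hδ.le
    rw [h4] at hcardB
    nlinarith

end Pool.Agent.Helper93.TS
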