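import Pool.Agent.Helper85.VA.RelMod
import Pool.Agent.Helper93.TS.StabC

/-!
TS-12 RelModC (project TS, MP_464c42_nt). The subspace of relations between the terms modulo the primes of `q`.

Proof. Copy `Helper85/VA/RelMod.lean` (`relSub`, `om_sum`, `exists_relMod`), replacing `𝒮.Small (... ≠ 0)` by `Zero 𝒮 q Q (...)`: zero: `zero_of_dvd`; sums: `Zero.lin` with
`u ν z = 𝒮.ev ν z s'`, `v ν z = 𝒮.ev ν z s` and `Zero.congr`; multiples: `Zero.mul` with `u ν z = 𝒮.ev ν z P` and `Zero.congr`; stability: `stabC` in place of `stab`.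
-/

set_option autoImplicit false

open MvPolynomial

namespace Pool.Agent.Helper93.TS

open Pool.Agent.Helper91.CPX Pool.Agent.Helper85.VA

/-- The relations between the terms modulo the primes of `q`. -/
def relSetC {ι : Type} [Fintype ι] [DecidableEq ι] {𝒮 : Setup ι} {β : Type} [Fintype β]
    (τ : Terms 𝒮 β) (q : ℕ → ℕ) (Q : ℕ → (ι → ℤ) → Prop) : Set (β → 𝒮.L) :=
  {w | ∃ (s : MvPolynomial ι (Zb 𝒮.F)) (W : β → MvPolynomial ι (Zb 𝒮.F)), 𝒮.cls s ≠ 0 ∧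
    (∀ b, 𝒮.cls (W b) = 𝒮.cls s * w b) ∧
    Zero 𝒮 q Q (fun ν z => ∑ b, 𝒮.ev ν z (W b) * τ.val ν b z)}

/-- The relations between the terms modulo the primes of `q` form a subspace. -/
private def relSubC {ι : Type} [Fintype ι] [DecidableEq ι] (𝒮 : Setup ι) {β : Type} [Fintype β]
    (τ : Terms 𝒮 β) (q : ℕ → ℕ) (Q : ℕ → (ι → ℤ) → Prop) : Submodule 𝒮.L (β → 𝒮.L) where
  carrier := relSetC τ q Q
  zero_mem' := by
    refine ⟨1, fun _ => 0, ?_, fun b => ?_, ?_⟩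
    · rw [map_one]; exact one_ne_zero
    · rw [map_zero, Pi.zero_apply, mul_zero]
    · refine zero_of_dvd fun H => Filter.Eventually.of_forall fun ν z _ _ p _ => ?_
      simp only [map_zero, zero_mul, Finset.sum_const_zero]
      exact dvd_zero _
  add_mem' := by
    rintro w w' ⟨s, W, hs, hW, hS⟩ ⟨s', W', hs', hW', hS'⟩
    refine ⟨s * s', fun b => s' * W b + s * W' b, ?_, fun b => ?_, ?_⟩
    · rw [map_mul]; exact mul_ne_zero hs hs'
    · rw [map_add, map_mul, map_mul, map_mul, hW, hW', Pi.add_apply]; ring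
    · refine (Zero.lin hS hS' (fun ν z => 𝒮.ev ν z s') (fun ν z => 𝒮.ev ν z s)).congr
        (Filter.Eventually.of_forall fun ν z _ => ?_)
      rw [Finset.mul_sum, Finset.mul_sum, ← Finset.sum_add_distrib]
      refine Finset.sum_congr rfl fun b _ => ?_
      rw [map_add, map_mul, map_mul]; ring
  smul_mem' := by
    rintro y w ⟨s, W, hs, hW, hS⟩
    obtain ⟨P, R, hR, hPR⟩ := 𝒮.exists_frac y
    refine ⟨R * s, fun b => P * W b, ?_, fun b => ?_, ?_⟩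
    · rw [map_mul]; exact mul_ne_zero hR hs
    · rw [map_mul, map_mul, hW, ← hPR, Pi.smul_apply, smul_eq_mul]; ring
    · refine (Zero.mul hS (fun ν z => 𝒮.ev ν z P)).congr
        (Filter.Eventually.of_forall fun ν z _ => ?_)
      rw [Finset.mul_sum]
      refine Finset.sum_congr rfl fun b _ => ?_
      rw [map_mul]; ring

private theorem om_sum {ι : Type} [Fintype ι] [DecidableEq ι] (𝒮 : Setup ι) {d : ℕ}
    (δ : Fin d → 𝒮.Der) (D : 𝒮.Der) (c : Fin d → 𝒮.L) (hc : ∀ y, D y = ∑ j, c j * δ j y)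
    (e : ι → Zb 𝒮.F) : 𝒮.om e D = ∑ j, c j * 𝒮.om e (δ j) := by
  simp only [Setup.om, hc, Finset.mul_sum, Finset.sum_div]
  rw [Finset.sum_comm]
  refine Finset.sum_congr rfl fun j _ => Finset.sum_congr rfl fun v _ => ?_
  ring

theorem exists_relModC {ι : Type} [Fintype ι] [DecidableEq ι] (𝒮 : Setup ι) {β : Type} [Fintype β]
    (τ : Terms 𝒮 β) (q : ℕ → ℕ) (hq : Moduli 𝒮.F q) (Q : ℕ → (ι → ℤ) → Prop) :
    ∃ W : Submodule 𝒮.L (β → 𝒮.L), (∀ w, w ∈ W ↔ w ∈ relSetC τ q Q) ∧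
      ∀ D : 𝒮.Der, ∀ w ∈ W, (fun b => D (w b) + 𝒮.om (τ.EZ b) D * w b) ∈ W := by
  refine ⟨relSubC 𝒮 τ q Q, fun w => Iff.rfl, ?_⟩
  obtain ⟨d, G, ρ, δ, hinj, h2, h3, h4, h5⟩ := exists_coords 𝒮
  have key : ∀ j, ∀ w ∈ relSubC 𝒮 τ q Q,
      (fun b => δ j (w b) + 𝒮.om (τ.EZ b) (δ j) * w b) ∈ relSubC 𝒮 τ q Q := by
    intro j w hw
    obtain ⟨s, W, hs, hW, hS⟩ := hw
    have hn : (fun b => 𝒮.cls (nabla G ρ j (τ.EZ b) (W b))) ∈ relSubC 𝒮 τ q Q := by
      refine ⟨1, fun b => nabla G ρ j (τ.EZ b) (W b), ?_, fun b => ?_, ?_⟩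
      · rw [map_one]; exact one_ne_zero
      · rw [map_one, one_mul]
      · exact stabC 𝒮 τ G ρ hinj h2 j q hq Q W hS
    have hden := cls_den_ne 𝒮 G ρ h3
    have hw' : w ∈ relSubC 𝒮 τ q Q := ⟨s, W, hs, hW, hS⟩
    have e : (fun b => δ j (w b) + 𝒮.om (τ.EZ b) (δ j) * w b) =
        (𝒮.cls (den G ρ) * 𝒮.cls s)⁻¹ • (fun b => 𝒮.cls (nabla G ρ j (τ.EZ b) (W b))) +
          (-(δ j (𝒮.cls s) / 𝒮.cls s)) • w := by
      funext b
      rw [Pi.add_apply, Pi.smul_apply, Pi.smul_apply, smul_eq_mul, smul_eq_mul,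
        cls_nabla 𝒮 G ρ δ h3 h4 j, hW, Derivation.leibniz, smul_eq_mul, smul_eq_mul]
      field_simp
      ring
    rw [e]
    exact Submodule.add_mem _ (Submodule.smul_mem _ _ hn) (Submodule.smul_mem _ _ hw')
  intro D w hw
  obtain ⟨c, hc⟩ := h5 D
  have e : (fun b => D (w b) + 𝒮.om (τ.EZ b) D * w b) =
      ∑ j, c j • (fun b => δ j (w b) + 𝒮.om (τ.EZ b) (δ j) * w b) := by
    funext b
    rw [Finset.sum_apply, hc, om_sum 𝒮 δ D c hc, Finset.sum_mul, ← Finset.sum_add_distrib]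
    refine Finset.sum_congr rfl fun j _ => ?_
    rw [Pi.smul_apply, smul_eq_mul]; ring
  rw [e]
  exact Submodule.sum_mem _ fun j _ => Submodule.smul_mem _ _ (key j w hw)

end Pool.Agent.Helper93.TS
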