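import Pool.Agent.Helper85.VA.ClassSum
import Pool.Agent.Helper93.TS.RelModC
import Pool.Agent.Helper93.TS.DivS

/-!
TS-14 ClassSumC (project TS, MP_464c42_nt). The sums over the classes vanish modulo the primes of `q`.

Proof. Copy `class_sum` (`Helper85/VA/ClassSum.lean`). `exists_relModC`; the constant vector `1` is in it (`s = 1`, `W = 1`, `h0` and `Zero.congr`). `class_mem` gives `s`, `V` with `𝒮.cls s ≠ 0`, `𝒮.cls (V b) = 𝒮.cls s` for
`b` in the class of `b0`, `0` otherwise, and `Zero (∑ V_b τ_b)`. For almost all `ν` and all `z ∈ T ν`: `V_b(z) = s(z)` resp. `0` (`cls_eq_iff`, `cls_eq_zero_iff`), so `∑ V_b(z) τ_b(z) = s(z) * (class sum)`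
(`Zero.congr`), and `zero_div` cancels `s`.
-/

set_option autoImplicit false

open MvPolynomial

namespace Pool.Agent.Helper93.TS

open Pool.Agent.Helper91.CPX Pool.Agent.Helper85.VA

open scoped Classical in
theorem class_sumC {ι : Type} [Fintype ι] [DecidableEq ι] (𝒮 : Setup ι) {β : Type} [Fintype β]
    (τ : Terms 𝒮 β) (q : ℕ → ℕ) (hq : Moduli 𝒮.F q) (Q : ℕ → (ι → ℤ) → Prop)
    (h0 : Zero 𝒮 q Q (fun ν z => ∑ b, τ.val ν b z)) (b0 : β) :
    Zero 𝒮 q Q (fun ν z =>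
      ∑ b, (if Rel (fun b => 𝒮.om (τ.EZ b)) b0 b then τ.val ν b z else 0)) := by
  obtain ⟨W, hW1, hW2⟩ := exists_relModC 𝒮 τ q hq Q
  have h1 : (fun _ : β => (1 : 𝒮.L)) ∈ W := by
    rw [hW1]
    refine ⟨1, fun _ => 1, ?_, fun b => ?_, ?_⟩
    · rw [map_one]
      exact one_ne_zero
    · rw [map_one, one_mul]
    · refine h0.congr (Filter.Eventually.of_forall fun ν z _ => ?_)
      refine Finset.sum_congr rfl fun b _ => ?_
      rw [map_one, one_mul]
  have h2 := class_mem (fun b => 𝒮.om (τ.EZ b)) W hW2 _ h1 b0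
  rw [hW1] at h2
  obtain ⟨s, V, hs, hV, hsm⟩ := h2
  have h3 : ∀ b, ∀ᶠ ν in (𝒮.F.U : Filter ℕ), ∀ z ∈ 𝒮.T ν, 𝒮.ev ν z (V b) =
      if Rel (fun b => 𝒮.om (τ.EZ b)) b0 b then 𝒮.ev ν z s else 0 := by
    intro b
    by_cases hb : Rel (fun b => 𝒮.om (τ.EZ b)) b0 b
    · have h4 := hV b
      simp only [if_pos hb, mul_one] at h4 ⊢
      exact (𝒮.cls_eq_iff _ _).mp h4
    · have h4 := hV b
      simp only [if_neg hb, mul_zero] at h4 ⊢
      exact (𝒮.cls_eq_zero_iff _).mp h4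
  have h4 := Filter.eventually_all.mpr h3
  refine zero_div s hs (hsm.congr ?_)
  filter_upwards [h4] with ν h5 z hz
  rw [Finset.mul_sum]
  refine Finset.sum_congr rfl fun b _ => ?_
  rw [h5 b z hz]
  split_ifs <;> ring

end Pool.Agent.Helper93.TS
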