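import Pool.Agent.Helper93.TS.Fam

/-!
TS-19 CountKC (project TS, MP_464c42_nt). The number of integers with bounded radical outside `R0`.

Proof. Let `θ = 1 / ((j + 1) (m + 1))`; `KC j m` has the property of `smooth_count θ` (`Exists.choose_spec`). For `A ∈ P` let `ρ(A) = ∏ p ∈ A.primeFactors.filter (¬ p ∣ R0), p ∈ [1, R]`. For a fixed value `ρ` all
primes of `A` divide `R0 * ρ`, so the number of these `A` is at most `KC N^θ (R0 ρ)^θ ≤ KC N^θ (R0 R)^θ` (`R0 ρ ≥ 1`); sum over the at most `R` values `ρ` (as `count_A` in `Helper85/VA/CountA.lean`).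
With `N = X ^ m`, `R0 ≤ X ^ (C m)`, `R ≤ X`: `N^θ (R0 R)^θ ≤ X ^ ((m + C m + 1) θ) ≤ X ^ ((C + 1) / (j + 1))` (`m + C m + 1 ≤ (C + 1) (m + 1)`), and `KC ≤ X ^ (1 / (j + 1))` from `hK`.
-/

set_option autoImplicit false

open MvPolynomial

namespace Pool.Agent.Helper93.TS

open Pool.Agent.Helper91.CPX Pool.Agent.Helper85.VA

theorem one_le_KC (j m : ℕ) : 1 ≤ KC j m :=
  (smooth_count _ (kc_pos j m)).choose_spec.1

theorem count_KC (j m C X R0 R : ℕ) (hX : 2 ≤ X) (hK : KC j m ^ (j + 1) ≤ (X : ℝ))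
    (hR0 : 1 ≤ R0) (hR0X : R0 ≤ X ^ (C * m)) (hR : 1 ≤ R) (hRX : R ≤ X) (P : Finset ℕ)
    (hP : ∀ A ∈ P, 1 ≤ A ∧ A ≤ X ^ m ∧
      ∏ p ∈ A.primeFactors.filter (fun p => ¬ p ∣ R0), p ≤ R) :
    (P.card : ℝ) ≤ (R : ℝ) * (X : ℝ) ^ (((C : ℝ) + 2) / ((j : ℝ) + 1)) := by
  have hsm := (smooth_count _ (kc_pos j m)).choose_spec.2
  change ∀ R : ℕ, 1 ≤ R → ∀ N : ℕ, 1 ≤ N → ∀ F : Finset ℕ,
      (∀ v ∈ F, 1 ≤ v ∧ v ≤ N ∧ ∀ p : ℕ, p.Prime → p ∣ v → p ∣ R) →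
      (F.card : ℝ) ≤ KC j m * (N : ℝ) ^ (1 / (((j : ℝ) + 1) * ((m : ℝ) + 1))) *
        (R : ℝ) ^ (1 / (((j : ℝ) + 1) * ((m : ℝ) + 1))) at hsm
  set θ : ℝ := 1 / (((j : ℝ) + 1) * ((m : ℝ) + 1)) with hθ
  have hθ0 : 0 < θ := kc_pos j m
  have hX1 : (1 : ℝ) ≤ (X : ℝ) := by exact_mod_cast (show 1 ≤ X by omega)
  have hX0 : (0 : ℝ) < (X : ℝ) := by linarith
  have hK1 : 1 ≤ KC j m := one_le_KC j m
  have hK0 : 0 ≤ KC j m := by linarith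
  have hN1 : 1 ≤ X ^ m := Nat.one_le_pow _ _ (by omega)
  have hmaps : ∀ A ∈ P, (∏ p ∈ A.primeFactors.filter (fun p => ¬ p ∣ R0), p) ∈
      Finset.Icc 1 R := by
    intro A hA
    refine Finset.mem_Icc.2 ⟨?_, (hP A hA).2.2⟩
    refine Nat.one_le_iff_ne_zero.2 (Finset.prod_ne_zero_iff.2 (fun p hp => ?_))
    exact (Nat.prime_of_mem_primeFactors (Finset.mem_filter.1 hp).1).ne_zero
  -- the constant
  have hKX : KC j m ≤ (X : ℝ) ^ (1 / ((j : ℝ) + 1)) := by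
    have h1 := Real.pow_rpow_inv_natCast hK0 (Nat.succ_ne_zero j)
    have h2 : (KC j m ^ (j + 1)) ^ (((j + 1 : ℕ) : ℝ)⁻¹) ≤ (X : ℝ) ^ (((j + 1 : ℕ) : ℝ)⁻¹) :=
      Real.rpow_le_rpow (by positivity) hK (by positivity)
    have h3 : (((j + 1 : ℕ) : ℝ)⁻¹) = 1 / ((j : ℝ) + 1) := by
      push_cast
      rw [one_div]
    have h4 : (KC j m ^ (j + 1)) ^ (((j + 1 : ℕ) : ℝ)⁻¹) = KC j m := h1
    rw [h4, h3] at h2
    exact h2
  -- the bound for the product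
  have hfin : KC j m * ((X ^ m : ℕ) : ℝ) ^ θ * (((R0 * R : ℕ)) : ℝ) ^ θ ≤
      (X : ℝ) ^ (((C : ℝ) + 2) / ((j : ℝ) + 1)) := by
    have e1 : ((X ^ m : ℕ) : ℝ) ^ θ = (X : ℝ) ^ ((m : ℝ) * θ) := by
      rw [Nat.cast_pow, ← Real.rpow_natCast, ← Real.rpow_mul hX0.le]
    have e2 : (((R0 * R : ℕ)) : ℝ) ^ θ ≤ (X : ℝ) ^ (((C : ℝ) * m + 1) * θ) := by
      have h1 : R0 * R ≤ X ^ (C * m + 1) := by
        rw [pow_succ]
        exact Nat.mul_le_mul hR0X hRX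
      have h2 : (((R0 * R : ℕ)) : ℝ) ≤ (X : ℝ) ^ ((C : ℝ) * m + 1) := by
        have h3 : (((R0 * R : ℕ)) : ℝ) ≤ ((X ^ (C * m + 1) : ℕ) : ℝ) := by exact_mod_cast h1
        refine h3.trans (le_of_eq ?_)
        rw [Nat.cast_pow, ← Real.rpow_natCast]
        push_cast
        rfl
      calc (((R0 * R : ℕ)) : ℝ) ^ θ ≤ ((X : ℝ) ^ ((C : ℝ) * m + 1)) ^ θ :=
            Real.rpow_le_rpow (by positivity) h2 hθ0.le
        _ = (X : ℝ) ^ (((C : ℝ) * m + 1) * θ) := by rw [← Real.rpow_mul hX0.le]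
    have e3 : 1 / ((j : ℝ) + 1) + ((m : ℝ) * θ + ((C : ℝ) * m + 1) * θ) ≤
        ((C : ℝ) + 2) / ((j : ℝ) + 1) := by
      have hj : (0 : ℝ) < (j : ℝ) + 1 := by positivity
      have hm : (0 : ℝ) < (m : ℝ) + 1 := by positivity
      have hC : (0 : ℝ) ≤ (C : ℝ) := Nat.cast_nonneg _
      have h5 : ((C : ℝ) + 2) / ((j : ℝ) + 1) = 1 / ((j : ℝ) + 1) + ((C : ℝ) + 1) * ((m : ℝ) + 1) * θ := by
        rw [hθ]
        field_simp
        ring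
      rw [h5]
      have h6 : (m : ℝ) + ((C : ℝ) * m + 1) ≤ ((C : ℝ) + 1) * ((m : ℝ) + 1) := by nlinarith
      have h7 := mul_le_mul_of_nonneg_right h6 hθ0.le
      linarith
    calc KC j m * ((X ^ m : ℕ) : ℝ) ^ θ * (((R0 * R : ℕ)) : ℝ) ^ θ
        ≤ (X : ℝ) ^ (1 / ((j : ℝ) + 1)) * (X : ℝ) ^ ((m : ℝ) * θ) *
            (X : ℝ) ^ (((C : ℝ) * m + 1) * θ) := by
          rw [e1]
          have h8 : 0 ≤ (X : ℝ) ^ ((m : ℝ) * θ) := by positivity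
          exact mul_le_mul (mul_le_mul_of_nonneg_right hKX h8) e2 (by positivity) (by positivity)
      _ = (X : ℝ) ^ (1 / ((j : ℝ) + 1) + ((m : ℝ) * θ + ((C : ℝ) * m + 1) * θ)) := by
          rw [mul_assoc, ← Real.rpow_add hX0, ← Real.rpow_add hX0]
      _ ≤ (X : ℝ) ^ (((C : ℝ) + 2) / ((j : ℝ) + 1)) := Real.rpow_le_rpow_of_exponent_le hX1 e3
  rw [Finset.card_eq_sum_card_fiberwise hmaps]
  push_cast
  have hfib : ∀ ρ ∈ Finset.Icc 1 R,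
      ((P.filter (fun A => ∏ p ∈ A.primeFactors.filter (fun p => ¬ p ∣ R0), p = ρ)).card : ℝ) ≤
        (X : ℝ) ^ (((C : ℝ) + 2) / ((j : ℝ) + 1)) := by
    intro ρ hρ
    obtain ⟨hρ1, hρR⟩ := Finset.mem_Icc.1 hρ
    have hb := hsm (R0 * ρ) (Nat.mul_pos hR0 hρ1) (X ^ m) hN1
      (P.filter (fun A => ∏ p ∈ A.primeFactors.filter (fun p => ¬ p ∣ R0), p = ρ)) (by
        intro A hA
        obtain ⟨hA1, hA2⟩ := Finset.mem_filter.1 hA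
        obtain ⟨h1, h2, -⟩ := hP A hA1
        refine ⟨h1, h2, fun p hp hpA => ?_⟩
        by_cases hpS : p ∣ R0
        · exact Dvd.dvd.mul_right hpS _
        · refine Dvd.dvd.mul_left ?_ _
          rw [← hA2]
          exact Finset.dvd_prod_of_mem (fun p => p) (Finset.mem_filter.2
            ⟨Nat.mem_primeFactors.2 ⟨hp, hpA, by omega⟩, hpS⟩))
    refine hb.trans (le_trans ?_ hfin)
    have h9 : (((R0 * ρ : ℕ)) : ℝ) ^ θ ≤ (((R0 * R : ℕ)) : ℝ) ^ θ := by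
      refine Real.rpow_le_rpow (by positivity) ?_ hθ0.le
      exact_mod_cast Nat.mul_le_mul_left R0 hρR
    exact mul_le_mul_of_nonneg_left h9 (by positivity)
  refine (Finset.sum_le_sum hfib).trans ?_
  rw [Finset.sum_const, Nat.card_Icc, nsmul_eq_mul]
  simp only [Nat.add_sub_cancel]
  exact le_rfl

end Pool.Agent.Helper93.TS
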