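import Pool.Agent.Helper93.TS.NSCore

/-!
TS-27 CountT (project TS, MP_464c42_nt). The count for fixed coefficients and exponents.

Proof. Copy `VA_count` (`Helper85/VA/Count.lean`, with its private lemma `va_card`). Negate and choose `m ν ≥ ν`, `S ν`, and `B ν = 2 ^ ((ν * m ν + ν + 1) ^ 2) + ∏ p ∈ (S ν).filter Nat.Prime, p + ⌈∑ j ∈ Finset.range (ν + 1), KC j (m ν) ^ (j + 1)⌉₊ + 1`,
`C = B ν ^ ((n + 1) * k) + 1`, to get `X ν ≥ B ν`, `a, e, T`. The frame `F` as there. `Fam F m S a e T`: `hm`, `hX`, `he` as there; `hK j`: for `ν ≥ j` the term `KC j (m ν) ^ (j + 1)` is one of the nonnegative terms of the sum (`one_le_KC`);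
`hS`: the product is at most `B ν ≤ X ν`; `ha`, `bdd`, `pts` from the properties of `T ν` (`tot` unfolds to the sum). `Large F (code a e) T` as there (with `δ = ε`). `NS_falseT` is the contradiction.
-/

set_option autoImplicit false

open MvPolynomial

namespace Pool.Agent.Helper93.TS

open Pool.Agent.Helper91.CPX Pool.Agent.Helper85.VA

private theorem ts_card {N k : ℕ} (X : ℕ) (T : Finset (Fin (N + 1) × Fin k → ℤ))
    (hT : ∀ z ∈ T, ∀ v, 1 ≤ z v ∧ z v ≤ (X : ℤ)) : T.card ≤ X ^ ((N + 1) * k) := by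
  classical
  have hsub : T ⊆ Fintype.piFinset fun _ : Fin (N + 1) × Fin k => Finset.Icc (1 : ℤ) X := by
    intro z hz
    rw [Fintype.mem_piFinset]
    intro i
    rw [Finset.mem_Icc]
    exact hT z hz i
  refine (Finset.card_le_card hsub).trans (le_of_eq ?_)
  rw [Fintype.card_piFinset]
  simp

theorem ts_count (n k : ℕ) (ε : ℝ) (hε : 0 < ε) :
    ∃ m0 : ℕ, ∀ m : ℕ, m0 ≤ m → ∀ S : Finset ℕ, ∃ C : ℝ, ∀ X : ℕ, 2 ≤ X →
      ∀ a : Fin (n + 1) → ℤ, (∀ i, a i ≠ 0) → ∀ e : Fin (n + 1) → Fin k → ℕ,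
        (∀ i j, m ≤ e i j ∧ e i j ≤ m * X) →
      ∀ T : Finset (Fin (n + 1) × Fin k → ℤ),
        (∀ z ∈ T, (∀ v, 1 ≤ z v ∧ z v ≤ (X : ℤ)) ∧ (∀ i, |xval a e z i| ≤ (X : ℤ) ^ m) ∧
          |∑ i, xval a e z i| ≤ (X : ℤ) ^ m ∧ Prim (xval a e z) ∧
          (∀ J : Finset (Fin (n + 1)), J.Nonempty → ∑ i ∈ J, xval a e z i ≠ 0) ∧
          ∀ p : ℕ, p.Prime → p ∉ S → (p : ℤ) ∣ ∑ i, xval a e z i →
            (p : ℤ) ^ m ∣ ∑ i, xval a e z i) →
        ((T.image (xval a e)).card : ℝ) ≤ C * (X : ℝ) ^ ε := by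
  classical
  by_contra hcon
  push Not at hcon
  choose m hm S h using hcon
  let B : ℕ → ℕ := fun ν => 2 ^ ((ν * m ν + ν + 1) ^ 2) + (∏ p ∈ (S ν).filter Nat.Prime, p) +
    ⌈∑ j ∈ Finset.range (ν + 1), |KC j (m ν)| ^ (j + 1)⌉₊ + 1
  have h' := fun ν => h ν ((B ν : ℝ) ^ ((n + 1) * k) + 1)
  choose X hX2 a ha e he T hT hcard using h'
  have hX1 : ∀ ν, (1 : ℝ) ≤ (X ν : ℝ) ^ ε := by
    intro ν
    have : (1 : ℝ) ≤ (X ν : ℝ) := by exact_mod_cast (by have := hX2 ν; omega : 1 ≤ X ν)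
    exact Real.one_le_rpow this hε.le
  have hBX : ∀ ν, B ν ≤ X ν := by
    intro ν
    by_contra hlt
    push Not at hlt
    have h1 : (T ν).card ≤ X ν ^ ((n + 1) * k) := ts_card (X ν) (T ν) (fun z hz => (hT ν z hz).1)
    have h2 : X ν ^ ((n + 1) * k) ≤ B ν ^ ((n + 1) * k) := Nat.pow_le_pow_left hlt.le _
    have h3 : (((T ν).image (xval (a ν) (e ν))).card : ℝ) ≤ (B ν : ℝ) ^ ((n + 1) * k) := by
      exact_mod_cast (Finset.card_image_le.trans (h1.trans h2))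
    have h4 := hcard ν
    have h5 : (B ν : ℝ) ^ ((n + 1) * k) + 1 ≤ ((B ν : ℝ) ^ ((n + 1) * k) + 1) * (X ν : ℝ) ^ ε :=
      le_mul_of_one_le_right (by positivity) (hX1 ν)
    linarith
  have hB1 : ∀ ν, 2 ^ ((ν * m ν + ν + 1) ^ 2) ≤ B ν := fun ν =>
    ((Nat.le_add_right _ _).trans (Nat.le_add_right _ _)).trans (Nat.le_succ _)
  have hB2 : ∀ ν, ∏ p ∈ (S ν).filter Nat.Prime, p ≤ B ν := fun ν =>
    ((Nat.le_add_left _ _).trans (Nat.le_add_right _ _)).trans (Nat.le_succ _)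
  have hB3 : ∀ ν, ⌈∑ j ∈ Finset.range (ν + 1), |KC j (m ν)| ^ (j + 1)⌉₊ ≤ B ν := fun ν =>
    (Nat.le_add_left _ _).trans (Nat.le_succ _)
  have hpow : ∀ C ν : ℕ, C ≤ ν → 2 ^ ((C * m ν + C + 1) ^ 2) ≤ X ν := by
    intro C ν hC
    have h1 : C * m ν + C + 1 ≤ ν * m ν + ν + 1 := by
      have := Nat.mul_le_mul_right (m ν) hC
      omega
    have h2 : 2 ^ ((C * m ν + C + 1) ^ 2) ≤ 2 ^ ((ν * m ν + ν + 1) ^ 2) :=
      Nat.pow_le_pow_right (by norm_num) (Nat.pow_le_pow_left h1 2)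
    exact h2.trans ((hB1 ν).trans (hBX ν))
  have hνX : ∀ ν, ν ≤ X ν := by
    intro ν
    have h1 := hpow ν ν le_rfl
    have h2 : ν ≤ (ν * m ν + ν + 1) ^ 2 := by nlinarith [Nat.zero_le (ν * m ν)]
    exact h2.trans ((Nat.lt_two_pow_self).le.trans h1)
  have hmX : ∀ ν, 1 ≤ ν → m ν ≤ X ν := by
    intro ν hν
    have h1 := hpow ν ν le_rfl
    have h2 : m ν ≤ (ν * m ν + ν + 1) ^ 2 := by
      have h3 : m ν ≤ ν * m ν := Nat.le_mul_of_pos_left _ hν
      nlinarith [Nat.zero_le (ν * m ν)]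
    exact h2.trans ((Nat.lt_two_pow_self).le.trans h1)
  have hat : ∀ C : ℕ, ∀ᶠ ν in (Filter.hyperfilter ℕ : Filter ℕ), C ≤ ν := by
    intro C
    exact Nat.hyperfilter_le_atTop (Filter.eventually_ge_atTop C)
  let F : Frame := ⟨Filter.hyperfilter ℕ, X, hX2, fun C => by
    filter_upwards [hat C] with ν hν
    exact hν.trans (hνX ν)⟩
  have hF : Fam F m S a e T := by
    refine ⟨?_, ?_, ?_, ?_, ha, ?_, ?_, ?_⟩
    · intro C
      filter_upwards [hat C] with ν hν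
      exact hν.trans (hm ν)
    · intro C
      filter_upwards [hat C] with ν hν
      exact hpow C ν hν
    · intro j
      filter_upwards [hat j] with ν hν
      have h1 : |KC j (m ν)| ^ (j + 1) ≤ ∑ j ∈ Finset.range (ν + 1), |KC j (m ν)| ^ (j + 1) :=
        Finset.single_le_sum (f := fun j => |KC j (m ν)| ^ (j + 1))
          (fun _ _ => pow_nonneg (abs_nonneg _) _) (Finset.mem_range.2 (Nat.lt_succ_of_le hν))
      have h2 : ∑ j ∈ Finset.range (ν + 1), |KC j (m ν)| ^ (j + 1) ≤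
          (⌈∑ j ∈ Finset.range (ν + 1), |KC j (m ν)| ^ (j + 1)⌉₊ : ℝ) := Nat.le_ceil _
      have h3 : (⌈∑ j ∈ Finset.range (ν + 1), |KC j (m ν)| ^ (j + 1)⌉₊ : ℝ) ≤ (X ν : ℝ) := by
        exact_mod_cast (hB3 ν).trans (hBX ν)
      have h4 : KC j (m ν) ^ (j + 1) ≤ |KC j (m ν)| ^ (j + 1) := by
        rw [← abs_pow]
        exact le_abs_self _
      exact ((h4.trans h1).trans h2).trans h3
    · exact Filter.Eventually.of_forall fun ν => (hB2 ν).trans (hBX ν)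
    · filter_upwards [hat 1] with ν hν i j
      refine ⟨(he ν i j).1, ?_⟩
      have h1 : e ν i j ≤ X ν ^ 2 := by
        refine (he ν i j).2.trans ?_
        rw [pow_two]
        exact Nat.mul_le_mul_right _ (hmX ν hν)
      exact_mod_cast h1
    · intro ν z hz v
      exact (hT ν z hz).1 v
    · exact Filter.Eventually.of_forall fun ν z hz => (hT ν z hz).2
  refine NS_falseT F hF ⟨ε, hε, Filter.Eventually.of_forall fun ν => ?_⟩
  have h4 := hcard ν
  have h5 : (X ν : ℝ) ^ ε ≤ ((B ν : ℝ) ^ ((n + 1) * k) + 1) * (X ν : ℝ) ^ ε := by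
    have h6 : (1 : ℝ) ≤ (B ν : ℝ) ^ ((n + 1) * k) + 1 := by
      have : (0 : ℝ) ≤ (B ν : ℝ) ^ ((n + 1) * k) := by positivity
      linarith
    exact le_mul_of_one_le_left (by positivity) h6
  have h7 : ((T ν).image (code a e ν)).card = ((T ν).image (xval (a ν) (e ν))).card := by
    have h8 : ((T ν).image (code a e ν)) =
        ((T ν).image (xval (a ν) (e ν))).image fun x => (Encodable.encode x : ℤ) := by
      rw [Finset.image_image]
      rfl
    rw [h8]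
    refine Finset.card_image_of_injective _ fun x y hxy => ?_
    exact Encodable.encode_injective (by exact_mod_cast hxy)
  show (X ν : ℝ) ^ ε ≤ (((T ν).image (code a e ν)).card : ℝ)
  rw [h7]
  exact h5.trans h4.le

end Pool.Agent.Helper93.TS
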