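import Mathlib

/-!
TS-17 Cramer (project TS, MP_464c42_nt). If the vector `(1, ..., 1)` is in the span of integer vectors with entries at most `W` it is a combination
of at most `card I` of them with denominator at most `(card I)! W ^ (card I)`.

Proof. Choose a finite subset of `P` of minimal cardinality `s` such that `1` is in the span of the `w t` (`Submodule.mem_span_finite_of_mem_span`, then minimality;
`Submodule.mem_span_image_iff_exists_fun` or `Finsupp.mem_span_image_iff_linearCombination`), enumerated by an injective `t : Fin s → Θ`: `1 = ∑_k lam_k w (t k)` over `ℚ`. By minimality the vectors `w (t k)` are linearly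
independent (a relation `∑ a_k w (t k) = 0` with `a_k ≠ 0` allows to eliminate `w (t k)` from the span). So `s ≤ card I` (`LinearIndependent.fintype_card_le_finrank`) and the matrix `(w (t k) i)` of rank `s` has a
nonsingular `s x s` minor: an injective `r : Fin s → I` with `Δ = det (w (t k) (r i)) ≠ 0` (Mathlib: `Matrix.exists_submatrix_det_ne_zero`-type lemma if available, or: row rank = column rank, choose
linearly independent columns with `exists_linearIndependent`; or copy the maximal minor argument in `Helper91/CPX/Minors.lean`: take the largest `r` with a nonzero `r x r` minor, if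
`r < s` the expansion of the `(r+1) x (r+1)` minors gives a nontrivial linear relation between the `w (t k)`). Let `A = (w (t k) (r i))_{i, k}` (rows `i`, columns `k`), `A lam = 1`, so
`det A • lam = adjugate A * 1` : `det A * lam_k = c_k` with integers `c_k = ∑_i (adjugate A) k i`. Hence `det A = det A * 1 = ∑_k c_k w (t k) i` for every `i : I` (over `ℚ`, so over `ℤ`).
`|det A| ≤ s! W ^ s` (`Matrix.det_le`, see `minors_det_le_h46` in `Helper91/CPX/Minors.lean`).
-/

set_option autoImplicit false

namespace Pool.Agent.Helper93.TS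

/-- Linearly independent rows: there is a nonsingular maximal square submatrix. -/
private theorem exists_minor {I : Type} [Fintype I] [DecidableEq I] {s : ℕ} (M : Matrix (Fin s) I ℚ)
    (h : LinearIndependent ℚ M.row) : ∃ r : Fin s → I, IsUnit (M.submatrix id r) := by
  classical
  have h1 : M.rank = s := by rw [h.rank_matrix, Fintype.card_fin]
  rw [Matrix.rank_eq_finrank_span_cols] at h1
  have h2 : Submodule.span ℚ (Set.range M.col) = ⊤ := by
    refine Submodule.eq_top_of_finrank_eq ?_
    rw [h1, Module.finrank_fin_fun]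
  obtain ⟨b, hb1, hb2, hb3⟩ := exists_linearIndependent ℚ (Set.range M.col)
  rw [h2] at hb2
  obtain ⟨bb, hbb⟩ : ∃ bb : Module.Basis b ℚ (Fin s → ℚ), ∀ i : b, bb i = (i : Fin s → ℚ) := by
    refine ⟨Module.Basis.mk hb3 ?_, fun i => ?_⟩
    · rw [Subtype.range_coe, hb2]
    · rw [Module.Basis.mk_apply]
  have : Fintype b := FiniteDimensional.fintypeBasisIndex bb
  have hcard : Fintype.card b = s := by
    have := Module.finrank_eq_card_basis bb
    rw [Module.finrank_fin_fun] at this
    exact this.symm
  let e : Fin s ≃ b := (Fintype.equivFinOfCardEq hcard).symm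
  have hr : ∀ k : Fin s, ∃ i : I, M.col i = (e k : Fin s → ℚ) := fun k => hb1 (e k).2
  choose r hr using hr
  refine ⟨r, ?_⟩
  rw [← Matrix.linearIndependent_cols_iff_isUnit]
  have h3 : (M.submatrix id r).col = (fun i : b => (i : Fin s → ℚ)) ∘ e := by
    funext k
    rw [Function.comp_apply, ← hr k]
    rfl
  rw [h3]
  exact hb3.comp _ e.injective

theorem cramer_span {I : Type} [Fintype I] [DecidableEq I] {Θ : Type} (W : ℤ)
    (w : Θ → I → ℤ) (P : Set Θ) (hw : ∀ t ∈ P, ∀ i, |w t i| ≤ W)
    (h : (fun _ : I => (1 : ℚ)) ∈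
      Submodule.span ℚ ((fun (t : Θ) (i : I) => ((w t i : ℤ) : ℚ)) '' P)) :
    ∃ (s : ℕ) (t : Fin s → Θ) (Δ : ℤ) (c : Fin s → ℤ), s ≤ Fintype.card I ∧ (∀ k, t k ∈ P) ∧
      Δ ≠ 0 ∧ |Δ| ≤ (s.factorial : ℤ) * W ^ s ∧ ∀ i, Δ = ∑ k, c k * w (t k) i := by
  classical
  obtain ⟨v, hv⟩ : ∃ v : Θ → I → ℚ, v = fun (t : Θ) (i : I) => ((w t i : ℤ) : ℚ) := ⟨_, rfl⟩
  have hvt : ∀ t i, v t i = ((w t i : ℤ) : ℚ) := fun t i => by rw [hv]
  rw [← hv] at h
  obtain ⟨b, hb1, hb2, hb3⟩ := exists_linearIndependent ℚ (v '' P)
  rw [← hb2] at h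
  have : Finite b := hb3.finite
  have : Fintype b := Fintype.ofFinite b
  obtain ⟨s, hs⟩ : ∃ s, s = Fintype.card b := ⟨_, rfl⟩
  let e : Fin s ≃ b := (Fintype.equivFinOfCardEq hs.symm).symm
  have ht : ∀ k : Fin s, ∃ t : Θ, t ∈ P ∧ v t = (e k : I → ℚ) := fun k => hb1 (e k).2
  choose t ht1 ht2 using ht
  have hli : LinearIndependent ℚ (fun k => v (t k)) := by
    have h3 : (fun k => v (t k)) = (fun i : b => (i : I → ℚ)) ∘ e := by
      funext k
      rw [ht2]
      rfl
    rw [h3]
    exact hb3.comp _ e.injective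
  have hsI : s ≤ Fintype.card I := by
    have := hli.fintype_card_le_finrank
    rwa [Fintype.card_fin, Module.finrank_fintype_fun_eq_card] at this
  have hspan : (fun _ : I => (1 : ℚ)) ∈ Submodule.span ℚ (Set.range fun k => v (t k)) := by
    have h4 : b ⊆ Set.range fun k => v (t k) := by
      intro x hx
      refine ⟨e.symm ⟨x, hx⟩, ?_⟩
      show v (t (e.symm ⟨x, hx⟩)) = x
      rw [ht2, Equiv.apply_symm_apply]
    exact Submodule.span_mono h4 h
  rw [Submodule.mem_span_range_iff_exists_fun] at hspan
  obtain ⟨lam, hlam⟩ := hspan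
  have hlam' : ∀ i, ∑ k, lam k * ((w (t k) i : ℤ) : ℚ) = 1 := by
    intro i
    have := congrFun hlam i
    rw [Finset.sum_apply] at this
    simp only [Pi.smul_apply, smul_eq_mul, hvt] at this
    exact this
  obtain ⟨r, hr⟩ := exists_minor (Matrix.of fun (k : Fin s) (i : I) => v (t k) i) hli
  obtain ⟨A, hA⟩ : ∃ A : Matrix (Fin s) (Fin s) ℤ, A = Matrix.of fun l k => w (t k) (r l) := ⟨_, rfl⟩
  have hAe : ∀ l k, A l k = w (t k) (r l) := fun l k => by rw [hA]; rfl
  have hAQ : (Matrix.of fun (k : Fin s) (i : I) => v (t k) i).submatrix id r =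
      (A.map (Int.castRingHom ℚ)).transpose := by
    ext k l
    rw [Matrix.submatrix_apply, Matrix.of_apply, Matrix.transpose_apply, Matrix.map_apply, hAe, hvt]
    rfl
  rw [hAQ, Matrix.isUnit_transpose, Matrix.isUnit_iff_isUnit_det] at hr
  have hdetQ : (A.map (Int.castRingHom ℚ)).det = ((A.det : ℤ) : ℚ) := by
    have := (RingHom.map_det (Int.castRingHom ℚ) A).symm
    rw [RingHom.mapMatrix_apply] at this
    rw [this]
    rfl
  have hdet : A.det ≠ 0 := by
    intro h0
    rw [hdetQ, h0, Int.cast_zero] at hr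
    exact hr.ne_zero rfl
  have hc : ∀ k, ((A.det : ℤ) : ℚ) * lam k = ((∑ l, A.adjugate k l : ℤ) : ℚ) := by
    intro k
    have h5 : ∀ k k' : Fin s, (∑ l, A.adjugate k l * A l k') = if k = k' then A.det else 0 := by
      intro k k'
      have := congrFun (congrFun (Matrix.adjugate_mul A) k) k'
      rw [Matrix.mul_apply, Matrix.smul_apply, Matrix.one_apply, smul_eq_mul, mul_ite, mul_one,
        mul_zero] at this
      exact this
    calc ((A.det : ℤ) : ℚ) * lam k
        = ∑ k', (((if k = k' then A.det else 0) : ℤ) : ℚ) * lam k' := by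
          rw [Finset.sum_eq_single k]
          · rw [if_pos rfl]
          · intro k' _ hk'
            rw [if_neg (Ne.symm hk'), Int.cast_zero, zero_mul]
          · intro hk
            exact absurd (Finset.mem_univ k) hk
      _ = ∑ k', (((∑ l, A.adjugate k l * A l k') : ℤ) : ℚ) * lam k' := by
          refine Finset.sum_congr rfl fun k' _ => ?_
          rw [h5]
      _ = ∑ l, ((A.adjugate k l : ℤ) : ℚ) * ∑ k', lam k' * ((w (t k') (r l) : ℤ) : ℚ) := by
          simp only [Int.cast_sum, Int.cast_mul, Finset.sum_mul, Finset.mul_sum, hAe]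
          rw [Finset.sum_comm]
          refine Finset.sum_congr rfl fun l _ => Finset.sum_congr rfl fun k' _ => ?_
          ring
      _ = ((∑ l, A.adjugate k l : ℤ) : ℚ) := by
          rw [Int.cast_sum]
          refine Finset.sum_congr rfl fun l _ => ?_
          rw [hlam', mul_one]
  refine ⟨s, t, A.det, fun k => ∑ l, A.adjugate k l, hsI, ht1, hdet, ?_, fun i => ?_⟩
  · have h6 := Matrix.det_le (A := A) (abv := AbsoluteValue.abs) (x := W)
      (fun l k => by
        show |A l k| ≤ W
        rw [hAe]
        exact hw _ (ht1 k) _)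
    rw [Fintype.card_fin, nsmul_eq_mul] at h6
    exact h6
  · have h7 : ((A.det : ℤ) : ℚ) = ((∑ k, (∑ l, A.adjugate k l) * w (t k) i : ℤ) : ℚ) := by
      calc ((A.det : ℤ) : ℚ) = ((A.det : ℤ) : ℚ) * ∑ k, lam k * ((w (t k) i : ℤ) : ℚ) := by
            rw [hlam', mul_one]
        _ = ∑ k, (((A.det : ℤ) : ℚ) * lam k) * ((w (t k) i : ℤ) : ℚ) := by
            rw [Finset.mul_sum]
            exact Finset.sum_congr rfl fun k _ => by ring
        _ = _ := by
            rw [Int.cast_sum]
            refine Finset.sum_congr rfl fun k _ => ?_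
            rw [hc k, Int.cast_mul]
    exact_mod_cast h7

end Pool.Agent.Helper93.TS
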