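import Pool.Agent.Helper91.CPX.DetDvd
import Pool.Agent.Helper93.TS.ImplicitC

/-!
TS-03 DMC (project TS, MP_464c42_nt). The determinant lemma for a composite modulus and congruences.

Proof. Copy `DM` of `Helper91/CPX/DM.lean`: let `s0` be the exponent (the sum), apply `implicitC` with `N = s0` (`ρ ^ s0` divides all
`g_a(Q k)` because `s0 ≤ E`). The rest is unchanged (`ℓ` there is nowhere used to be prime except through `implicit`).
-/

set_option autoImplicit false

open MvPolynomial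

namespace Pool.Agent.Helper93.TS

open Pool.Agent.Helper91.CPX

theorem DMC {σ κ : Type} [Fintype σ] [DecidableEq σ] [Fintype κ] [DecidableEq κ] {s : ℕ}
    (ρ : ℕ) (v : κ ↪ σ) (g : κ → MvPolynomial σ ℤ) (Q0 : σ → ℤ)
    (hdet : IsCoprime (ρ : ℤ) (Matrix.det (Matrix.of fun a b : κ => eval Q0 (pderiv (v b) (g a)))))
    (f : Fin s → MvPolynomial σ ℤ) (Q : Fin s → σ → ℤ)
    (hQ : ∀ k i, (ρ : ℤ) ∣ Q k i - Q0 i) (E : ℕ) (hg : ∀ k a, (ρ : ℤ) ^ E ∣ eval (Q k) (g a))
    (J m : ℕ) (hm : Fintype.card κ + m = Fintype.card σ)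
    (hE : ∑ j ∈ Finset.range J, (s - (j + m).choose m) ≤ E) :
    (ρ : ℤ) ^ (∑ j ∈ Finset.range J, (s - (j + m).choose m)) ∣
      Matrix.det (Matrix.of fun a k : Fin s => eval (Q k) (f a)) := by
  classical
  obtain ⟨E', hE'⟩ : ∃ E', E' = ∑ j ∈ Finset.range J, (s - (j + m).choose m) := ⟨_, rfl⟩
  rw [← hE'] at hE ⊢
  have hg' : ∀ k a, (ρ : ℤ) ^ E' ∣ eval (Q k) (g a) := fun k a => (pow_dvd_pow _ hE).trans (hg k a)
  obtain ⟨Ψ, hΨ⟩ := implicitC ρ v g Q0 hdet E'
  -- the substitution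
  obtain ⟨r, hr⟩ : ∃ r : σ → MvPolynomial {i : σ // i ∉ Set.range v} ℤ, r = fun i =>
      if h : i ∈ Set.range v then C (Q0 i) + Ψ h.choose else C (Q0 i) + X ⟨i, h⟩ := ⟨_, rfl⟩
  have hcard : Fintype.card {i : σ // i ∉ Set.range v} = m := by
    have h1 : Fintype.card {i : σ // ¬ (i ∈ Set.range v)} =
        Fintype.card σ - Fintype.card {i : σ // i ∈ Set.range v} :=
      Fintype.card_subtype_compl _
    have h2 : Fintype.card {i : σ // i ∈ Set.range v} = Fintype.card κ := by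
      have := Fintype.card_congr (Equiv.ofInjective v v.injective)
      rw [this]
    rw [h1, h2]
    omega
  -- the divided coordinates
  have hθ : ∀ k i, ∃ t : ℤ, Q k i - Q0 i = ρ * t := fun k i => hQ k i
  choose θ hθ using hθ
  have h1 := det_dvd (ρ : ℤ) (fun a => bind₁ r (f a)) (fun k (i : {i : σ // i ∉ Set.range v}) => θ k i.1) J
  rw [hcard, ← hE'] at h1
  -- congruence of the entries
  have h2 : ∀ a k, (ρ : ℤ) ^ E' ∣ eval (Q k) (f a) -
      eval (fun i : {i : σ // i ∉ Set.range v} => (ρ : ℤ) * θ k i.1) (bind₁ r (f a)) := by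
    intro a k
    have h3 : eval (fun i : {i : σ // i ∉ Set.range v} => (ρ : ℤ) * θ k i.1) (bind₁ r (f a)) =
        eval (fun i => eval (fun i : {i : σ // i ∉ Set.range v} => (ρ : ℤ) * θ k i.1) (r i)) (f a) := by
      rw [← eval₂_id, ← eval₂_id, ← coe_eval₂Hom, ← coe_eval₂Hom, eval₂Hom_bind₁]
      rfl
    rw [h3]
    apply eval_congr_dvd
    intro i
    by_cases hi : i ∈ Set.range v
    · have h4 : r i = C (Q0 i) + Ψ hi.choose := by rw [hr]; simp only [dif_pos hi]
      have h5 := hΨ (Q k) (hQ k) (hg' k) hi.choose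
      rw [hi.choose_spec] at h5
      have h6 : (fun i : {i : σ // i ∉ Set.range v} => Q k i.1 - Q0 i.1) =
          (fun i : {i : σ // i ∉ Set.range v} => (ρ : ℤ) * θ k i.1) := by
        funext j; exact hθ k j.1
      rw [h6] at h5
      rw [h4, map_add, eval_C]
      convert h5 using 1
      ring
    · have h4 : r i = C (Q0 i) + X ⟨i, hi⟩ := by rw [hr]; simp only [dif_neg hi]
      rw [h4, map_add, eval_C, eval_X]
      have h5 := hθ k i
      have h6 : Q k i - (Q0 i + ρ * θ k i) = 0 := by rw [← h5]; ring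
      change (ρ : ℤ) ^ E' ∣ Q k i - (Q0 i + ρ * θ k i)
      rw [h6]
      exact dvd_zero _
  -- congruence of the determinants
  have h7 : (Int.castRingHom (ZMod (ρ ^ E')))
      (Matrix.det (Matrix.of fun a k : Fin s => eval (Q k) (f a))) =
      (Int.castRingHom (ZMod (ρ ^ E'))) (Matrix.det (Matrix.of fun a k : Fin s =>
        eval (fun i : {i : σ // i ∉ Set.range v} => (ρ : ℤ) * θ k i.1) (bind₁ r (f a)))) := by
    rw [RingHom.map_det, RingHom.map_det]
    congr 1
    ext a k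
    simp only [RingHom.mapMatrix_apply, Matrix.map_apply, Matrix.of_apply]
    have h8 := h2 a k
    have h9 : ((ρ : ℤ) ^ E') = ((ρ ^ E' : ℕ) : ℤ) := by push_cast; rfl
    rw [h9] at h8
    have h10 := (ZMod.intCast_zmod_eq_zero_iff_dvd _ (ρ ^ E')).mpr h8
    rw [eq_intCast, eq_intCast]
    rw [Int.cast_sub] at h10
    exact sub_eq_zero.mp h10
  have h9 : ((ρ : ℤ) ^ E') = ((ρ ^ E' : ℕ) : ℤ) := by push_cast; rfl
  rw [h9] at h1 ⊢
  rw [← ZMod.intCast_zmod_eq_zero_iff_dvd] at h1 ⊢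
  rw [eq_intCast, eq_intCast] at h7
  rw [h7]
  exact h1

end Pool.Agent.Helper93.TS
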