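import Mathlib

/-!
TS-20 DecC (project TS, MP_464c42_nt). Splitting off the large primes of an `m`-full integer.

Proof. Let `a = c.natAbs > 0` and `L` the set of the primes `p ∣ a` with `¬ p ∣ R0` and `X < p ^ j`. Claim `card L ≤ j`: otherwise (in particular `L` has a subset `L'` with `j` elements, and `j ≥ 1` since for
`j = 0` the condition `X < p ^ 0 = 1` is impossible, so `L` is empty): for `p ∈ L'` `p ^ m ∣ a` (`hfull`), so `∏_{L'} p ^ m ∣ a` (pairwise coprime), `(∏_{L'} p) ^ m ≤ X ^ m`, `∏_{L'} p ≤ X`; but `(∏_{L'} p) ^ j = ∏_{L'} p ^ j > X ^ j`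
(`j ≥ 1` factors, each `> X`), so `∏_{L'} p > X`. Let `e : L → Fin j` be injective (`card L ≤ j`), `w i = p` if `i = e p`, `1` if `i` is not in the image; `f i = v_p(a)` resp. `m` (`Nat.factorization`). For `p ∈ L`: `v_p(a) ≥ m`, and
`2 ^ (v_p(a)) ≤ p ^ (v_p(a)) ≤ a ≤ X ^ m`, so `f i ≤ Nat.log 2 (X ^ m)`; also `m ≤ Nat.log 2 (X ^ m)` as `2 ^ m ≤ X ^ m`; `p ≤ X` because `p ^ m ≤ X ^ m`. `∏_i w i ^ f i = ∏_{p ∈ L} p ^ v_p(a)` divides `a`
(`Nat.factorization_prod_pow_eq_self`), the quotient `A'` has the prime factors of `a` outside `L`. `A = c.sign * A'`. A prime `p ∣ A'` with `¬ p ∣ R0` divides `a` and is not in `L`, so `p ^ j ≤ X`.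
(It is enough to show `¬ p ∣ A'` for `p ∈ L`: `v_p(A') = 0`.)
-/

set_option autoImplicit false

namespace Pool.Agent.Helper93.TS

theorem decomp_c (j m X R0 : ℕ) (hm : 1 ≤ m) (hX : 2 ≤ X) (c : ℤ) (hc : c ≠ 0)
    (hcX : |c| ≤ (X : ℤ) ^ m)
    (hfull : ∀ p : ℕ, p.Prime → ¬ p ∣ R0 → (p : ℤ) ∣ c → (p : ℤ) ^ m ∣ c) :
    ∃ (A : ℤ) (w f : Fin j → ℕ), c = A * ∏ i, (w i : ℤ) ^ f i ∧ A ≠ 0 ∧ A.natAbs ≤ X ^ m ∧
      (∀ i, 1 ≤ w i ∧ w i ≤ X ∧ m ≤ f i ∧ f i ≤ Nat.log 2 (X ^ m)) ∧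
      ∀ p ∈ A.natAbs.primeFactors, ¬ p ∣ R0 → p ∈ c.natAbs.primeFactors ∧ p ^ j ≤ X := by
  classical
  obtain ⟨a, ha⟩ : ∃ a, a = c.natAbs := ⟨_, rfl⟩
  have ha0 : a ≠ 0 := by rw [ha]; exact Int.natAbs_ne_zero.2 hc
  have haX : a ≤ X ^ m := by
    have h1 : ((c.natAbs : ℕ) : ℤ) ≤ ((X ^ m : ℕ) : ℤ) := by
      rw [Int.natCast_natAbs]
      push_cast
      exact hcX
    rw [ha]
    exact_mod_cast h1
  obtain ⟨L, hL⟩ : ∃ L, L = a.primeFactors.filter (fun p => ¬ p ∣ R0 ∧ X < p ^ j) := ⟨_, rfl⟩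
  have hLmem : ∀ p, p ∈ L ↔ p ∈ a.primeFactors ∧ ¬ p ∣ R0 ∧ X < p ^ j := fun p => by
    rw [hL, Finset.mem_filter]
  have hLsub : L ⊆ a.primeFactors := by rw [hL]; exact Finset.filter_subset _ _
  have hv : ∀ p ∈ L, m ≤ a.factorization p := by
    intro p hp
    obtain ⟨h1, h2, -⟩ := (hLmem p).1 hp
    have hpp := Nat.prime_of_mem_primeFactors h1
    have h3 : (p : ℤ) ∣ c := by
      rw [← Int.dvd_natAbs, ← ha]
      exact_mod_cast Nat.dvd_of_mem_primeFactors h1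
    have h4 := hfull p hpp h2 h3
    rw [← Int.dvd_natAbs, ← ha] at h4
    have h5 : p ^ m ∣ a := by exact_mod_cast h4
    exact (hpp.pow_dvd_iff_le_factorization ha0).1 h5
  have hafac : ∏ p ∈ a.primeFactors, p ^ a.factorization p = a := by
    have := Nat.prod_factorization_pow_eq_self ha0
    rw [Finsupp.prod, Nat.support_factorization] at this
    exact this
  have hcard : L.card ≤ j := by
    by_contra hcon
    rw [not_le] at hcon
    obtain ⟨L', hL', hL'c⟩ := Finset.exists_subset_card_eq hcon.le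
    rcases Nat.eq_zero_or_pos j with hj | hj
    · subst hj
      obtain ⟨p, hp⟩ := Finset.card_pos.1 hcon
      have h1 := ((hLmem p).1 hp).2.2
      rw [pow_zero] at h1
      omega
    · have h1 : (∏ p ∈ L', p) ^ m ∣ a := by
        rw [← Finset.prod_pow]
        refine (Finset.prod_dvd_prod_of_dvd _ (fun p => p ^ a.factorization p) fun p hp =>
          pow_dvd_pow p (hv p (hL' hp))).trans ?_
        have h2 := Finset.prod_dvd_prod_of_subset L' a.primeFactors (fun p => p ^ a.factorization p)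
          (hL'.trans hLsub)
        rwa [hafac] at h2
      have h2 : (∏ p ∈ L', p) ^ m ≤ X ^ m := (Nat.le_of_dvd (Nat.pos_of_ne_zero ha0) h1).trans haX
      have h3 : ∏ p ∈ L', p ≤ X := (Nat.pow_le_pow_iff_left (by omega)).1 h2
      have hne : L'.Nonempty := Finset.card_pos.1 (by omega)
      have h4 : X ^ j < (∏ p ∈ L', p) ^ j := by
        rw [← Finset.prod_pow]
        calc X ^ j = ∏ _p ∈ L', X := by rw [Finset.prod_const, hL'c]
          _ < ∏ p ∈ L', p ^ j := Finset.prod_lt_prod_of_nonempty (fun _ _ => by omega)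
              (fun p hp => ((hLmem p).1 (hL' hp)).2.2) hne
      have h5 := (Nat.pow_le_pow_left h3 j)
      omega
  have hle : Fintype.card {x // x ∈ L} ≤ Fintype.card (Fin j) := by
    rw [Fintype.card_coe, Fintype.card_fin]
    exact hcard
  obtain ⟨e⟩ := Function.Embedding.nonempty_of_card_le hle
  obtain ⟨w, hw⟩ : ∃ w : Fin j → ℕ, w = Function.extend e (fun x : {x // x ∈ L} => (x : ℕ))
    (fun _ => 1) := ⟨_, rfl⟩
  obtain ⟨f, hf⟩ : ∃ f : Fin j → ℕ, f = Function.extend e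
    (fun x : {x // x ∈ L} => a.factorization x) (fun _ => m) := ⟨_, rfl⟩
  have hwe : ∀ x, w (e x) = x := fun x => by rw [hw]; exact e.injective.extend_apply _ _ x
  have hfe : ∀ x, f (e x) = a.factorization x := fun x => by
    rw [hf]; exact e.injective.extend_apply _ _ x
  have hwn : ∀ i, (¬ ∃ x, e x = i) → w i = 1 := fun i hi => by
    rw [hw, Function.extend_apply' _ _ _ hi]
  have hfn : ∀ i, (¬ ∃ x, e x = i) → f i = m := fun i hi => by
    rw [hf, Function.extend_apply' _ _ _ hi]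
  have hprod : ∏ i, w i ^ f i = ∏ p ∈ L, p ^ a.factorization p := by
    have h1 : ∏ i, w i ^ f i = ∏ i ∈ Finset.univ.map e, w i ^ f i := by
      symm
      refine Finset.prod_subset (Finset.subset_univ _) fun i _ hi => ?_
      rw [hwn i, one_pow]
      rintro ⟨x, rfl⟩
      exact hi (Finset.mem_map_of_mem e (Finset.mem_univ x))
    rw [h1, Finset.prod_map]
    have h2 : ∀ x : {x // x ∈ L}, w (e x) ^ f (e x) = (x : ℕ) ^ a.factorization (x : ℕ) := fun x => by
      rw [hwe, hfe]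
    rw [Finset.prod_congr rfl fun x _ => h2 x]
    exact Finset.prod_coe_sort L (fun p => p ^ a.factorization p)
  obtain ⟨A', hA'⟩ : ∃ A', A' = ∏ p ∈ a.primeFactors \ L, p ^ a.factorization p := ⟨_, rfl⟩
  have haA : A' * ∏ p ∈ L, p ^ a.factorization p = a := by
    rw [hA', Finset.prod_sdiff hLsub, hafac]
  have hA'd : A' ∣ a := Dvd.intro _ haA
  have hA'0 : A' ≠ 0 := fun h => ha0 (Nat.eq_zero_of_zero_dvd (h ▸ hA'd))
  have hsign : c.sign.natAbs = 1 := by
    rw [Int.natAbs_sign_of_ne_zero hc]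
  have hAabs : (c.sign * (A' : ℤ)).natAbs = A' := by
    rw [Int.natAbs_mul, hsign, one_mul, Int.natAbs_natCast]
  refine ⟨c.sign * A', w, f, ?_, ?_, ?_, ?_, ?_⟩
  · have h1 : (∏ i, (w i : ℤ) ^ f i) = ((∏ p ∈ L, p ^ a.factorization p : ℕ) : ℤ) := by
      rw [← hprod]
      push_cast
      rfl
    rw [h1, mul_assoc]
    have h2 : (A' : ℤ) * ((∏ p ∈ L, p ^ a.factorization p : ℕ) : ℤ) = (a : ℤ) := by
      exact_mod_cast haA
    rw [h2, ha]
    exact (Int.sign_mul_natAbs c).symm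
  · rw [← Int.natAbs_ne_zero, hAabs]
    exact hA'0
  · rw [hAabs]
    exact (Nat.le_of_dvd (Nat.pos_of_ne_zero ha0) hA'd).trans haX
  · intro i
    have hX0 : 0 < X := by omega
    by_cases hi : ∃ x, e x = i
    · obtain ⟨x, rfl⟩ := hi
      rw [hwe, hfe]
      have hx := (hLmem x).1 x.2
      have hpp := Nat.prime_of_mem_primeFactors hx.1
      have h1 := hv x x.2
      have h2 : (x : ℕ) ^ a.factorization (x : ℕ) ≤ X ^ m :=
        (Nat.le_of_dvd (Nat.pos_of_ne_zero ha0) (Nat.ordProj_dvd a x)).trans haX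
      refine ⟨hpp.one_le, ?_, h1, ?_⟩
      · have h3 : (x : ℕ) ^ m ≤ X ^ m := (Nat.pow_le_pow_right hpp.pos h1).trans h2
        exact (Nat.pow_le_pow_iff_left (by omega)).1 h3
      · refine Nat.le_log_of_pow_le (by norm_num) ?_
        exact (Nat.pow_le_pow_left hpp.two_le _).trans h2
    · rw [hwn i hi, hfn i hi]
      refine ⟨le_rfl, by omega, le_rfl, ?_⟩
      refine Nat.le_log_of_pow_le (by norm_num) ?_
      exact Nat.pow_le_pow_left hX _
  · intro p hp hpR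
    rw [hAabs] at hp
    have hpp := Nat.prime_of_mem_primeFactors hp
    have hpA := Nat.dvd_of_mem_primeFactors hp
    have h1 : p ∈ a.primeFactors := Nat.mem_primeFactors.2 ⟨hpp, hpA.trans hA'd, ha0⟩
    rw [← ha]
    refine ⟨h1, ?_⟩
    rw [hA'] at hpA
    obtain ⟨q, hq, hpq⟩ := (Prime.dvd_finsetProd_iff hpp.prime _).1 hpA
    rw [Finset.mem_sdiff] at hq
    have hqp := Nat.prime_of_mem_primeFactors hq.1
    have h2 : p = q := (Nat.prime_dvd_prime_iff_eq hpp hqp).1 (hpp.dvd_of_dvd_pow hpq)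
    rw [← h2] at hq
    by_contra hcon
    exact hq.2 ((hLmem p).2 ⟨h1, hpR, not_le.1 hcon⟩)

end Pool.Agent.Helper93.TS
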