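import Pool.Agent.Helper93.MT.CardNS

/-!
TS-29 ExcCount (project TS, MP_464c42_nt). The universal exceptional set `Exc S m k θ` and its counting function.

Proof. Put `r = 1 / m - θ k / m`, `ε = (s - r) / 2 > 0` (if `r < s`), so `1 / m + ε - θ k / m < s`. For `i ≥ 0` let `D_i = {a ∈ Exc : 2 ^ i ≤ |a| ≤ 2 ^ (i + 1)}` (`|a| ≥ 1`, take `i = Nat.log 2 |a|`). For `a ∈ D_i`: `|a| ^ θ ≥ (2 ^ i) ^ θ =: W ≥ 1` (`θ ≥ 0`), so `a` is not `Short S m k W` (`Short` is monotone in `W`), and `a ∈ Aset S m (2 ^ (i + 1))`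
(`mem_Aset`), so `a ∈ NS S m k (2 ^ (i + 1)) W`, and by `card_ns` `card D_i ≤ C (2 ^ (i + 1)) ^ (1 / m + ε) (2 ^ i) ^ (- θ k / m) ≤ C' (2 ^ i) ^ (1 / m + ε - θ k / m) ≤ C' (2 ^ i) ^ s` with `C' = C 2 ^ (1 / m + ε)`. The set
`{a ∈ Exc : |a| ≤ X}` is the union of the `D_i`, `i ≤ Nat.log 2 X`, so it is finite with at most `C' ∑_{i ≤ log_2 X} (2 ^ s) ^ i ≤ C' (2 ^ s) ^ (log_2 X + 1) / (2 ^ s - 1) ≤ C'' X ^ s` elements (`s > 0`, geometric sum `Finset.geom_sum`,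
`2 ^ (Nat.log 2 X) ≤ X`).
-/

set_option autoImplicit false

open Pool.Agent.Helper87.Camp Pool.Agent.Helper91.CPX Pool.Agent.Helper93.MT

namespace Pool.Agent.Helper93.TS

/-- The universal exceptional set: the `m`-full integers (outside `S`) which are not short. -/
def Exc (S : Finset ℕ) (m k : ℕ) (θ : ℝ) : Set ℤ :=
  {a | a ≠ 0 ∧ NFull S m a.natAbs ∧ ¬ Short S m k ((a.natAbs : ℝ) ^ θ) a}

private theorem short_mono {S : Finset ℕ} {m k : ℕ} {W W' : ℝ} (h : W ≤ W') {a : ℤ}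
    (ha : Short S m k W a) : Short S m k W' a := by
  obtain ⟨s, y, h1, h2, h3, h4, h5⟩ := ha
  exact ⟨s, y, h1, h2, h3, h4, h5.trans h⟩

theorem exc_count (S : Finset ℕ) (m k : ℕ) (hm : 1 ≤ m) (θ : ℝ) (hθ : 0 ≤ θ) (s : ℝ) (hs : 0 < s)
    (hk : 1 / (m : ℝ) - θ * k / m < s) :
    ∃ C : ℝ, 0 ≤ C ∧ ∀ X : ℕ, 1 ≤ X → {a ∈ Exc S m k θ | |a| ≤ (X : ℤ)}.Finite ∧
      ({a ∈ Exc S m k θ | |a| ≤ (X : ℤ)}.ncard : ℝ) ≤ C * (X : ℝ) ^ s := by
  set r : ℝ := 1 / (m : ℝ) - θ * k / m with hr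
  set ε : ℝ := (s - r) / 2 with hε
  have hε0 : 0 < ε := by rw [hε]; linarith
  obtain ⟨C, hC, h⟩ := card_ns S m k hm ε hε0
  set q : ℝ := (2 : ℝ) ^ s with hq
  have hq1 : 1 < q := Real.one_lt_rpow (by norm_num) hs
  have hq0 : 0 < q := by linarith
  set C' : ℝ := C * (2 : ℝ) ^ (1 / (m : ℝ) + ε) with hC'
  have hC'0 : 0 ≤ C' := by positivity
  refine ⟨C' * (q / (q - 1)), by
    have : 0 < q - 1 := by linarith
    positivity, fun X hX => ?_⟩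
  set L := Nat.log 2 X with hL
  set T : Finset ℤ := (Finset.range (L + 1)).biUnion
    (fun i => NS S m k (2 ^ (i + 1)) (((2 : ℝ) ^ i) ^ θ)) with hT
  have hsub : {a ∈ Exc S m k θ | |a| ≤ (X : ℤ)} ⊆ (T : Set ℤ) := by
    rintro a ⟨⟨ha0, haF, haS⟩, haX⟩
    have hn0 : a.natAbs ≠ 0 := Int.natAbs_ne_zero.mpr ha0
    have hnX : a.natAbs ≤ X := by
      zify
      exact haX
    have h1 : 2 ^ Nat.log 2 a.natAbs ≤ a.natAbs := Nat.pow_log_le_self 2 hn0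
    have h2 : a.natAbs < 2 ^ (Nat.log 2 a.natAbs + 1) := Nat.lt_pow_succ_log_self (by norm_num) _
    rw [hT, Finset.coe_biUnion]
    simp only [Set.mem_iUnion]
    refine ⟨Nat.log 2 a.natAbs, ?_, ?_⟩
    · rw [Finset.mem_coe, Finset.mem_range]
      exact Nat.lt_succ_of_le (Nat.log_mono_right hnX)
    · rw [Finset.mem_coe, mem_NS, mem_Aset]
      refine ⟨⟨ha0, h2.le, haF⟩, fun hsh => haS (short_mono ?_ hsh)⟩
      apply Real.rpow_le_rpow (by positivity) _ hθ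
      exact_mod_cast h1
  have hfin : {a ∈ Exc S m k θ | |a| ≤ (X : ℤ)}.Finite := T.finite_toSet.subset hsub
  refine ⟨hfin, ?_⟩
  have h1 : ({a ∈ Exc S m k θ | |a| ≤ (X : ℤ)}.ncard : ℝ) ≤ (T.card : ℝ) := by
    have := Set.ncard_le_ncard hsub T.finite_toSet
    rw [Set.ncard_coe_finset] at this
    exact_mod_cast this
  have h2 : (T.card : ℝ) ≤ ∑ i ∈ Finset.range (L + 1),
      ((NS S m k (2 ^ (i + 1)) (((2 : ℝ) ^ i) ^ θ)).card : ℝ) := by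
    have := Finset.card_biUnion_le (s := Finset.range (L + 1))
      (t := fun i => NS S m k (2 ^ (i + 1)) (((2 : ℝ) ^ i) ^ θ))
    rw [← hT] at this
    exact_mod_cast this
  have h3 : ∀ i : ℕ, ((NS S m k (2 ^ (i + 1)) (((2 : ℝ) ^ i) ^ θ)).card : ℝ) ≤ C' * q ^ i := by
    intro i
    have hi1 : (1 : ℝ) ≤ (2 : ℝ) ^ i := one_le_pow₀ (by norm_num)
    have hi0 : (0 : ℝ) < (2 : ℝ) ^ i := by positivity
    have h4 := h (2 ^ (i + 1)) Nat.one_le_two_pow (((2 : ℝ) ^ i) ^ θ) (Real.one_le_rpow hi1 hθ)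
    refine h4.trans ?_
    have h5 : ((2 ^ (i + 1) : ℕ) : ℝ) ^ (1 / (m : ℝ) + ε) =
        (2 : ℝ) ^ (1 / (m : ℝ) + ε) * ((2 : ℝ) ^ i) ^ (1 / (m : ℝ) + ε) := by
      rw [← Real.mul_rpow (by norm_num) hi0.le]
      congr 1
      push_cast
      ring
    have h6 : (((2 : ℝ) ^ i) ^ θ) ^ (-((k : ℝ) / (m : ℝ))) =
        ((2 : ℝ) ^ i) ^ (-(θ * k / m)) := by
      rw [← Real.rpow_mul hi0.le]
      congr 1
      ring
    have h7 : q ^ i = ((2 : ℝ) ^ i) ^ s := by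
      rw [hq, ← Real.rpow_natCast, ← Real.rpow_mul (by norm_num), ← Real.rpow_natCast 2 i,
        ← Real.rpow_mul (by norm_num), mul_comm]
    rw [h5, h6, h7, hC']
    calc C * ((2 : ℝ) ^ (1 / (m : ℝ) + ε) * ((2 : ℝ) ^ i) ^ (1 / (m : ℝ) + ε)) *
          ((2 : ℝ) ^ i) ^ (-(θ * k / m))
        = C * (2 : ℝ) ^ (1 / (m : ℝ) + ε) * (((2 : ℝ) ^ i) ^ (1 / (m : ℝ) + ε) *
          ((2 : ℝ) ^ i) ^ (-(θ * k / m))) := by ring
      _ = C * (2 : ℝ) ^ (1 / (m : ℝ) + ε) * ((2 : ℝ) ^ i) ^ (r + ε) := by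
          rw [← Real.rpow_add hi0]
          congr 2
          rw [hr]
          ring
      _ ≤ C * (2 : ℝ) ^ (1 / (m : ℝ) + ε) * ((2 : ℝ) ^ i) ^ s := by
          apply mul_le_mul_of_nonneg_left _ (by positivity)
          apply Real.rpow_le_rpow_of_exponent_le hi1
          rw [hε]
          linarith
  have h4 : ∑ i ∈ Finset.range (L + 1), q ^ i ≤ q / (q - 1) * (X : ℝ) ^ s := by
    have hq2 : 0 < q - 1 := by linarith
    rw [geom_sum_eq (ne_of_gt hq1), div_mul_eq_mul_div]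
    apply div_le_div_of_nonneg_right _ hq2.le
    have h5 : q ^ L ≤ (X : ℝ) ^ s := by
      have h6 : q ^ L = ((2 : ℝ) ^ L) ^ s := by
        rw [hq, ← Real.rpow_natCast, ← Real.rpow_mul (by norm_num), ← Real.rpow_natCast 2 L,
          ← Real.rpow_mul (by norm_num), mul_comm]
      rw [h6]
      apply Real.rpow_le_rpow (by positivity) _ hs.le
      have := Nat.pow_log_le_self 2 (show X ≠ 0 by omega)
      exact_mod_cast this
    calc q ^ (L + 1) - 1 ≤ q ^ (L + 1) := by linarith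
      _ = q * q ^ L := by ring
      _ ≤ q * (X : ℝ) ^ s := mul_le_mul_of_nonneg_left h5 hq0.le
  calc ({a ∈ Exc S m k θ | |a| ≤ (X : ℤ)}.ncard : ℝ) ≤ (T.card : ℝ) := h1
    _ ≤ ∑ i ∈ Finset.range (L + 1), C' * q ^ i := h2.trans (Finset.sum_le_sum fun i _ => h3 i)
    _ = C' * ∑ i ∈ Finset.range (L + 1), q ^ i := by rw [Finset.mul_sum]
    _ ≤ C' * (q / (q - 1) * (X : ℝ) ^ s) := mul_le_mul_of_nonneg_left h4 hC'0
    _ = C' * (q / (q - 1)) * (X : ℝ) ^ s := by ring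

end Pool.Agent.Helper93.TS
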