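import Pool.Agent.Helper91.CPX.Defs

/-!
TS-23 Overspill (project TS, MP_464c42_nt).

Proof. `J ν = Nat.findGreatest (fun j => P j ν) (F.X ν)` (classical decidability). For fixed `j`: for almost all `ν` `P j ν` and `j ≤ X ν` (`F.tends j`), so `j ≤ J ν` (`Nat.le_findGreatest`). For almost all `ν` `P 0 ν`, so
`P (J ν) ν` (`Nat.findGreatest_spec`).
-/

set_option autoImplicit false

namespace Pool.Agent.Helper93.TS

open Pool.Agent.Helper91.CPX

theorem overspill (F : Frame) (P : ℕ → ℕ → Prop)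
    (h : ∀ j : ℕ, ∀ᶠ ν in (F.U : Filter ℕ), P j ν) :
    ∃ J : ℕ → ℕ, (∀ j : ℕ, ∀ᶠ ν in (F.U : Filter ℕ), j ≤ J ν) ∧
      ∀ᶠ ν in (F.U : Filter ℕ), P (J ν) ν := by
  classical
  refine ⟨fun ν => Nat.findGreatest (fun j => P j ν) (F.X ν), fun j => ?_, ?_⟩
  · filter_upwards [h j, F.tends j] with ν h1 h2
    exact Nat.le_findGreatest h2 h1
  · filter_upwards [h 0] with ν h1
    exact Nat.findGreatest_spec (P := fun j => P j ν) (Nat.zero_le _) h1

end Pool.Agent.Helper93.TS
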