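import Pool.Agent.Helper85.VA.NSF
import Pool.Agent.Helper91.CPX.Smooth
import Pool.Agent.Helper93.TS.Zero

/-!
# Project TS (MP_464c42_nt): the families of points (definitions)

* `KC j m`: the constant of `smooth_count` for the exponent `1 / ((j + 1) (m + 1))`.
* `code`: the code of the vector of coordinates `xval`.
* `tot`: the sum of the coordinates.
* `sm j X R0 c`: the product of the primes of `c` which do not divide `R0` and are at most `X ^ (1 / j)`.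
* `Fam`: the properties of the families of points.
-/

set_option autoImplicit false

open MvPolynomial

namespace Pool.Agent.Helper93.TS

open Pool.Agent.Helper91.CPX Pool.Agent.Helper85.VA

theorem kc_pos (j m : ℕ) : (0 : ℝ) < 1 / (((j : ℝ) + 1) * ((m : ℝ) + 1)) := by positivity

/-- The constant of `smooth_count` for the exponent `1 / ((j + 1) (m + 1))`. -/
noncomputable def KC (j m : ℕ) : ℝ := (smooth_count _ (kc_pos j m)).choose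

/-- The code of the vector of coordinates. -/
def code {n k : ℕ} (a : ℕ → Fin (n + 1) → ℤ) (e : ℕ → Fin (n + 1) → Fin k → ℕ) :
    ℕ → (Fin (n + 1) × Fin k → ℤ) → ℤ :=
  fun ν z => (Encodable.encode (xval (a ν) (e ν) z) : ℤ)

/-- The sum of the coordinates. -/
def tot {n k : ℕ} (a : ℕ → Fin (n + 1) → ℤ) (e : ℕ → Fin (n + 1) → Fin k → ℕ) (ν : ℕ)
    (z : Fin (n + 1) × Fin k → ℤ) : ℤ := ∑ i, xval (a ν) (e ν) z i

/-- The product of the primes of `c` which do not divide `R0` and whose `j`-th power is at most `X`. -/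
def sm (j X R0 : ℕ) (c : ℤ) : ℕ :=
  ∏ p ∈ c.natAbs.primeFactors.filter (fun p => ¬ p ∣ R0 ∧ p ^ j ≤ X), p

/-- The properties of the families of points. -/
structure Fam (F : Frame) {n k : ℕ} (m : ℕ → ℕ) (S : ℕ → Finset ℕ) (a : ℕ → Fin (n + 1) → ℤ)
    (e : ℕ → Fin (n + 1) → Fin k → ℕ) (T : ℕ → Finset (Fin (n + 1) × Fin k → ℤ)) : Prop where
  hm : ∀ C : ℕ, ∀ᶠ ν in (F.U : Filter ℕ), C ≤ m ν
  hX : ∀ C : ℕ, ∀ᶠ ν in (F.U : Filter ℕ), 2 ^ ((C * m ν + C + 1) ^ 2) ≤ F.X ν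
  hK : ∀ j : ℕ, ∀ᶠ ν in (F.U : Filter ℕ), KC j (m ν) ^ (j + 1) ≤ (F.X ν : ℝ)
  hS : ∀ᶠ ν in (F.U : Filter ℕ), ∏ p ∈ (S ν).filter Nat.Prime, p ≤ F.X ν
  ha : ∀ ν i, a ν i ≠ 0
  he : ∀ᶠ ν in (F.U : Filter ℕ), ∀ i j, m ν ≤ e ν i j ∧ (e ν i j : ℤ) ≤ (F.X ν : ℤ) ^ 2
  bdd : Bdd F T
  pts : ∀ᶠ ν in (F.U : Filter ℕ), ∀ z ∈ T ν,
    (∀ i, |xval (a ν) (e ν) z i| ≤ (F.X ν : ℤ) ^ m ν) ∧ |tot a e ν z| ≤ (F.X ν : ℤ) ^ m ν ∧
      Prim (xval (a ν) (e ν) z) ∧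
      (∀ J : Finset (Fin (n + 1)), J.Nonempty → ∑ i ∈ J, xval (a ν) (e ν) z i ≠ 0) ∧
      ∀ p : ℕ, p.Prime → p ∉ S ν → (p : ℤ) ∣ tot a e ν z → (p : ℤ) ^ m ν ∣ tot a e ν z

theorem Fam.mono {F : Frame} {n k : ℕ} {m : ℕ → ℕ} {S : ℕ → Finset ℕ} {a : ℕ → Fin (n + 1) → ℤ}
    {e : ℕ → Fin (n + 1) → Fin k → ℕ} {T T' : ℕ → Finset (Fin (n + 1) × Fin k → ℤ)}
    (h : Fam F m S a e T) (hT : ∀ ν, T' ν ⊆ T ν) : Fam F m S a e T' where
  hm := h.hm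
  hX := h.hX
  hK := h.hK
  hS := h.hS
  ha := h.ha
  he := h.he
  bdd := fun ν z hz => h.bdd ν z (hT ν hz)
  pts := by
    filter_upwards [h.pts] with ν h1 z hz
    exact h1 z (hT ν hz)

end Pool.Agent.Helper93.TS
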