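import Pool.Agent.Helper93.MT.AllShort
import Pool.Agent.Helper93.TS.Fam

/-!
TS-21 FixedData (project TS, MP_464c42_nt). If the sum of the coordinates is also a product of few powers with fixed exponents the family is not
large (the theorem of project VA).

Proof. Suppose `Large`. Choose `w ν z` from `hdec`. Apply `NS_falseU F (N := n + 1) (D := 1) (r := 1) (k := k + j) (H := 0)` with `c = fun _ _ _ => 1` (`|1| ≤ X ^ 0`), `m`, the coefficients `a' ν = Fin.snoc (a ν) (- A ν)`
(all nonzero), exponents `e' ν (castSucc i) = Fin.append (e ν i) (fun _ => m ν)`, `e' ν (last) = Fin.append (fun _ => m ν) (f ν)` (between `m ν` and `X ^ 2`; `m ν ≤ X ^ 2` by `hX`), and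
`T' ν` = the image of `T ν` under `z ↦ z'`, `z' (castSucc i, t) = Fin.append (fun t => z (i, t)) (fun _ => 1) t`, `z' (last, t) = Fin.append (fun _ => 1) (w ν z) t` (for `ν` in the good set; elsewhere `T' ν = ∅`, so that
`Bdd` holds for all `ν`). Then `xval (a' ν) (e' ν) z' (castSucc i) = xval (a ν) (e ν) z i` (`Fin.prod_univ_add`, factors `1 ^ _`), `xval .. z' (last) = - A ∏ w ^ f = - tot`. So: all are at most `X ^ m` in absolute value (`pts`);
`fval = ∑_i x'_i = 0` (`Fin.sum_univ_castSucc`; `fval` of the form with all coefficients `1` is the sum of the coordinates: `as_sum`, `as_mval`, `as_unit_bij` in `Helper93/MT/AllShort.lean`, private there: copy them);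
`Prim x'` because `Prim x`; `NonDeg`: let `lam` be not constant; there is an index `i` with `lam i ≠ lam (last)` (otherwise constant), so `i = castSucc i0`; take `s = 0`, `n' = lam i`: the sum over the `b` with `wt lam b = n'` is
the sum of the `x'_l` with `lam l = n'` (see `AllShort.lean`, `as_wt`), all these `l` are `castSucc`, a nonempty sum `∑_{l ∈ J} xval (a ν) (e ν) z l ≠ 0` by `pts`. `Large` for the codes of `x'`: `x` is a function of `x'` (`x = x' ∘ castSucc`),
`T ν → T' ν` is onto, so `card (image of code' on T' ν) ≥ card (image of code on T ν)`: the image of `xval` on `T ν` is the image of the image of `xval'` on `T' ν`, `Finset.card_image_le`; `Encodable.encode` is injective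
(see the end of `VA_count` in `Helper85/VA/Count.lean`).
-/

set_option autoImplicit false

open MvPolynomial

namespace Pool.Agent.Helper93.TS

open Pool.Agent.Helper91.CPX Pool.Agent.Helper85.VA

/-- unit vectors -/
private def fd_unit (n : ℕ) (i : Fin (n + 1 + 1)) : Exps (n + 1) 1 :=
  ⟨fun i' => if i' = i then 1 else 0, by
    rw [Finset.sum_eq_single i]
    · simp
    · intro b _ hb
      simp [hb]
    · intro h
      exact absurd (Finset.mem_univ i) h⟩

private lemma fd_unit_bij (n : ℕ) : Function.Bijective (fd_unit n) := by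
  constructor
  · intro i i' hii
    have h1 := congrArg (fun b : Exps (n + 1) 1 => b.1 i) hii
    unfold fd_unit at h1
    simp only [if_true] at h1
    by_contra hne
    rw [if_neg hne] at h1
    exact absurd h1 (by decide)
  · intro b
    obtain ⟨b, hb⟩ := b
    have h1 : ∃ i, b i ≠ 0 := by
      by_contra hcon
      push Not at hcon
      simp [hcon] at hb
    obtain ⟨i, hi⟩ := h1
    have hi1 : (b i : ℕ) = 1 := by
      have h2 := (b i).isLt
      have h3 : (b i : ℕ) ≠ 0 := fun h => hi (Fin.ext h)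
      omega
    refine ⟨i, ?_⟩
    apply Subtype.ext
    funext i'
    change (if i' = i then (1 : Fin (1 + 1)) else 0) = b i'
    by_cases hii : i' = i
    · rw [if_pos hii, hii]
      exact Fin.ext hi1.symm
    · rw [if_neg hii]
      have h4 : ∑ j ∈ Finset.univ.erase i, (b j : ℕ) = 0 := by
        have h5 := Finset.add_sum_erase Finset.univ (fun j => (b j : ℕ)) (Finset.mem_univ i)
        omega
      have h6 := (Finset.sum_eq_zero_iff.1 h4) i' (Finset.mem_erase.2 ⟨hii, Finset.mem_univ _⟩)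
      exact Fin.ext h6.symm

private lemma fd_mval (n : ℕ) (i : Fin (n + 1 + 1)) (x : Fin (n + 1 + 1) → ℤ) :
    mval (fd_unit n i) x = x i := by
  unfold mval fd_unit
  simp only
  rw [Finset.prod_eq_single i]
  · simp
  · intro b _ hb
    simp [hb]
  · intro h
    exact absurd (Finset.mem_univ i) h

private lemma fd_wt (n : ℕ) (i : Fin (n + 1 + 1)) (lam : Fin (n + 1 + 1) → ℕ) :
    wt lam (fd_unit n i) = lam i := by
  unfold wt fd_unit
  simp only
  rw [Finset.sum_eq_single i]
  · simp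
  · intro b _ hb
    simp [hb]
  · intro h
    exact absurd (Finset.mem_univ i) h

private lemma fd_sum (n : ℕ) (f : Exps (n + 1) 1 → ℤ) :
    ∑ b, f b = ∑ i, f (fd_unit n i) :=
  (Function.Bijective.sum_comp (fd_unit_bij n) f).symm

theorem fixed_small (F : Frame) {n k : ℕ} (j : ℕ) {m : ℕ → ℕ} {S : ℕ → Finset ℕ}
    {a : ℕ → Fin (n + 1) → ℤ} {e : ℕ → Fin (n + 1) → Fin k → ℕ}
    {T : ℕ → Finset (Fin (n + 1) × Fin k → ℤ)} (hF : Fam F m S a e T) (A : ℕ → ℤ)
    (hA : ∀ ν, A ν ≠ 0) (f : ℕ → Fin j → ℕ)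
    (hf : ∀ᶠ ν in (F.U : Filter ℕ), ∀ i, m ν ≤ f ν i ∧ (f ν i : ℤ) ≤ (F.X ν : ℤ) ^ 2)
    (hdec : ∀ᶠ ν in (F.U : Filter ℕ), ∀ z ∈ T ν, ∃ w : Fin j → ℤ,
      (∀ i, 1 ≤ w i ∧ w i ≤ (F.X ν : ℤ)) ∧ tot a e ν z = A ν * ∏ i, w i ^ f ν i) :
    ¬ Large F (code a e) T := by
  classical
  intro hL
  have hw0 : ∀ (ν : ℕ) (z : Fin (n + 1) × Fin k → ℤ), ∃ w : Fin j → ℤ,
      (∀ z ∈ T ν, ∃ w : Fin j → ℤ, (∀ i, 1 ≤ w i ∧ w i ≤ (F.X ν : ℤ)) ∧
        tot a e ν z = A ν * ∏ i, w i ^ f ν i) → z ∈ T ν →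
      (∀ i, 1 ≤ w i ∧ w i ≤ (F.X ν : ℤ)) ∧ tot a e ν z = A ν * ∏ i, w i ^ f ν i := by
    intro ν z
    by_cases h : (∀ z ∈ T ν, ∃ w : Fin j → ℤ, (∀ i, 1 ≤ w i ∧ w i ≤ (F.X ν : ℤ)) ∧
        tot a e ν z = A ν * ∏ i, w i ^ f ν i) ∧ z ∈ T ν
    · obtain ⟨w, hw⟩ := h.1 z h.2
      exact ⟨w, fun _ _ => hw⟩
    · exact ⟨fun _ => 0, fun h1 h2 => absurd ⟨h1, h2⟩ h⟩
  choose w hw using hw0
  obtain ⟨Good, hGood⟩ : ∃ Good : ℕ → Prop, Good = fun ν => ∀ z ∈ T ν, ∃ w : Fin j → ℤ,
      (∀ i, 1 ≤ w i ∧ w i ≤ (F.X ν : ℤ)) ∧ tot a e ν z = A ν * ∏ i, w i ^ f ν i := ⟨_, rfl⟩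
  have hw' : ∀ ν z, Good ν → z ∈ T ν →
      (∀ i, 1 ≤ w ν z i ∧ w ν z i ≤ (F.X ν : ℤ)) ∧
        tot a e ν z = A ν * ∏ i, w ν z i ^ f ν i := by
    intro ν z h1 h2
    rw [hGood] at h1
    exact hw ν z h1 h2
  have hgood : ∀ᶠ ν in (F.U : Filter ℕ), Good ν := by
    filter_upwards [hdec] with ν h
    rw [hGood]
    exact h
  obtain ⟨a', ha'⟩ : ∃ a' : ℕ → Fin (n + 1 + 1) → ℤ, a' = fun ν => Fin.snoc (a ν) (-A ν) :=
    ⟨_, rfl⟩
  obtain ⟨e', he'⟩ : ∃ e' : ℕ → Fin (n + 1 + 1) → Fin (k + j) → ℕ,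
      e' = fun ν => Fin.snoc (α := fun _ => Fin (k + j) → ℕ)
        (fun i => Fin.append (e ν i) (fun _ => m ν)) (Fin.append (fun _ => m ν) (f ν)) :=
    ⟨_, rfl⟩
  obtain ⟨g, hg⟩ : ∃ g : ℕ → (Fin (n + 1) × Fin k → ℤ) → (Fin (n + 1 + 1) × Fin (k + j) → ℤ),
      g = fun ν z v => Fin.snoc (α := fun _ => Fin (k + j) → ℤ)
        (fun i => Fin.append (fun t => z (i, t)) (fun _ => 1))
        (Fin.append (fun _ => 1) (w ν z)) v.1 v.2 := ⟨_, rfl⟩
  have hx1 : ∀ ν z i, xval (a' ν) (e' ν) (g ν z) (Fin.castSucc i) = xval (a ν) (e ν) z i := by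
    intro ν z i
    unfold xval
    rw [ha', he', hg]
    simp only [Fin.snoc_castSucc]
    rw [Fin.prod_univ_add]
    simp only [Fin.append_left, Fin.append_right, one_pow, Finset.prod_const_one, mul_one]
  have hx2 : ∀ ν z, xval (a' ν) (e' ν) (g ν z) (Fin.last (n + 1)) =
      -(A ν * ∏ i, w ν z i ^ f ν i) := by
    intro ν z
    unfold xval
    rw [ha', he', hg]
    simp only [Fin.snoc_last]
    rw [Fin.prod_univ_add]
    simp only [Fin.append_left, Fin.append_right, one_pow, Finset.prod_const_one, one_mul,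
      neg_mul]
  obtain ⟨T', hT'⟩ : ∃ T' : ℕ → Finset (Fin (n + 1 + 1) × Fin (k + j) → ℤ),
      T' = fun ν => if Good ν then (T ν).image (g ν) else ∅ := ⟨_, rfl⟩
  have hT'g : ∀ ν, Good ν → T' ν = (T ν).image (g ν) := by
    intro ν h
    rw [hT']
    exact if_pos h
  have hT'mem : ∀ ν z', z' ∈ T' ν → Good ν ∧ ∃ z ∈ T ν, g ν z = z' := by
    intro ν z' hz'
    by_cases h : Good ν
    · rw [hT'g ν h, Finset.mem_image] at hz'
      exact ⟨h, hz'⟩
    · rw [hT'] at hz'
      simp only [if_neg h] at hz'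
      exact absurd hz' (Finset.notMem_empty _)
  refine NS_falseU F (n + 1) 1 1 (k + j) 0 m hF.hm hF.hX (fun _ _ _ => 1) ?_ a' ?_ e' ?_ T' ?_ ?_ ?_
  · exact Filter.Eventually.of_forall fun ν s b => by simp
  · intro ν i
    rw [ha']
    refine Fin.lastCases ?_ (fun i => ?_) i
    · simp only [Fin.snoc_last]
      exact neg_ne_zero.2 (hA ν)
    · simp only [Fin.snoc_castSucc]
      exact hF.ha ν i
  · filter_upwards [hF.he, hf, hF.hX 1] with ν h1 h2 h3
    have hmX : (m ν : ℤ) ≤ (F.X ν : ℤ) ^ 2 := by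
      have e1 : m ν ≤ (1 * m ν + 1 + 1) ^ 2 := by nlinarith [Nat.zero_le (m ν)]
      have e2 : m ν ≤ F.X ν := (e1.trans (Nat.lt_two_pow_self).le).trans h3
      have e3 : F.X ν ≤ F.X ν ^ 2 := Nat.le_self_pow (by norm_num) _
      exact_mod_cast e2.trans e3
    intro i t
    rw [he']
    refine Fin.lastCases ?_ (fun i => ?_) i
    · simp only [Fin.snoc_last]
      refine Fin.addCases (fun t => ?_) (fun t => ?_) t
      · simp only [Fin.append_left]
        exact ⟨le_rfl, hmX⟩
      · simp only [Fin.append_right]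
        exact h2 t
    · simp only [Fin.snoc_castSucc]
      refine Fin.addCases (fun t => ?_) (fun t => ?_) t
      · simp only [Fin.append_left]
        exact h1 i t
      · simp only [Fin.append_right]
        exact ⟨le_rfl, hmX⟩
  · intro ν z' hz' v
    obtain ⟨hG, z, hz, rfl⟩ := hT'mem ν z' hz'
    have hX1 : (1 : ℤ) ≤ (F.X ν : ℤ) := F.one_le ν
    obtain ⟨i, t⟩ := v
    rw [hg]
    refine Fin.lastCases ?_ (fun i => ?_) i
    · simp only [Fin.snoc_last]
      refine Fin.addCases (fun t => ?_) (fun t => ?_) t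
      · simp only [Fin.append_left]
        exact ⟨le_rfl, hX1⟩
      · simp only [Fin.append_right]
        exact (hw' ν z hG hz).1 t
    · simp only [Fin.snoc_castSucc]
      refine Fin.addCases (fun t => ?_) (fun t => ?_) t
      · simp only [Fin.append_left]
        exact hF.bdd ν z hz (i, t)
      · simp only [Fin.append_right]
        exact ⟨le_rfl, hX1⟩
  · filter_upwards [hF.pts] with ν hp z' hz'
    obtain ⟨hG, z, hz, rfl⟩ := hT'mem ν z' hz'
    obtain ⟨p1, p2, p3, p4, -⟩ := hp z hz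
    have htot := (hw' ν z hG hz).2
    have hlast : xval (a' ν) (e' ν) (g ν z) (Fin.last (n + 1)) = -tot a e ν z := by
      rw [hx2, htot]
    refine ⟨fun i => ?_, fun s => ?_, fun p hp' => ?_, ?_⟩
    · refine Fin.lastCases ?_ (fun i => ?_) i
      · rw [hlast, abs_neg]
        exact p2
      · rw [hx1]
        exact p1 i
    · unfold fval
      rw [fd_sum n]
      have h1 : ∑ i, xval (a' ν) (e' ν) (g ν z) i = 0 := by
        rw [Fin.sum_univ_castSucc, hlast]
        simp only [hx1]
        unfold tot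
        exact add_neg_cancel _
      rw [← h1]
      apply Finset.sum_congr rfl
      intro i _
      rw [fd_mval, one_mul]
    · obtain ⟨i, hi⟩ := p3 p hp'
      exact ⟨Fin.castSucc i, by rw [hx1]; exact hi⟩
    · rintro lam ⟨i, i', hii⟩
      have hex : ∃ i0 : Fin (n + 1), lam (Fin.castSucc i0) ≠ lam (Fin.last (n + 1)) := by
        by_contra hcon
        push Not at hcon
        have hall : ∀ i, lam i = lam (Fin.last (n + 1)) := by
          intro i
          refine Fin.lastCases rfl (fun i => ?_) i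
          exact hcon i
        exact hii ((hall i).trans (hall i').symm)
      obtain ⟨i0, hi0⟩ := hex
      refine ⟨0, lam (Fin.castSucc i0), ?_⟩
      have h1 : ∑ b ∈ Finset.univ.filter
          (fun b : Exps (n + 1) 1 => wt lam b = lam (Fin.castSucc i0)),
            (1 : ℤ) * mval b (xval (a' ν) (e' ν) (g ν z)) =
          ∑ i ∈ Finset.univ.filter (fun i : Fin (n + 1) =>
            lam (Fin.castSucc i) = lam (Fin.castSucc i0)), xval (a ν) (e ν) z i := by
        rw [Finset.sum_filter, fd_sum n, Finset.sum_filter, Fin.sum_univ_castSucc]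
        rw [fd_wt, if_neg (fun h => hi0 h.symm), add_zero]
        apply Finset.sum_congr rfl
        intro i' _
        rw [fd_wt, fd_mval, one_mul, hx1]
      rw [h1]
      exact p4 _ ⟨i0, by simp⟩
  · obtain ⟨δ, hδ, hLe⟩ := hL
    refine ⟨δ, hδ, ?_⟩
    filter_upwards [hLe, hgood] with ν h1 hG
    refine h1.trans ?_
    have henc : ∀ {N K : ℕ} (S : Finset (Fin (N + 1) × Fin K → ℤ)) (b : Fin (N + 1) → ℤ)
        (d : Fin (N + 1) → Fin K → ℕ),
        (S.image fun z => (Encodable.encode (xval b d z) : ℤ)).card =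
          (S.image (xval b d)).card := by
      intro N K S b d
      have h8 : (S.image fun z => (Encodable.encode (xval b d z) : ℤ)) =
          (S.image (xval b d)).image fun x => (Encodable.encode x : ℤ) := by
        rw [Finset.image_image]
        rfl
      rw [h8]
      refine Finset.card_image_of_injective _ fun x y hxy => ?_
      exact Encodable.encode_injective (by exact_mod_cast hxy)
    have e1 : ((T ν).image (code a e ν)).card = ((T ν).image (xval (a ν) (e ν))).card :=
      henc (T ν) (a ν) (e ν)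
    have e2 := henc (T' ν) (a' ν) (e' ν)
    rw [e1, e2]
    have e3 : (T ν).image (xval (a ν) (e ν)) =
        ((T' ν).image (xval (a' ν) (e' ν))).image (fun x i => x (Fin.castSucc i)) := by
      rw [hT'g ν hG, Finset.image_image, Finset.image_image]
      apply Finset.image_congr
      intro z _
      funext i
      exact (hx1 ν z i).symm
    rw [e3]
    exact_mod_cast Finset.card_image_le

end Pool.Agent.Helper93.TS
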