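import Pool.Agent.Helper85.VA.CountAU
import Pool.Agent.Helper93.TS.CountKC
import Pool.Agent.Helper93.TS.DecC
import Pool.Agent.Helper93.TS.FixedData

/-!
TS-22 SmoothBound (project TS, MP_464c42_nt). The sum of the coordinates has a large smooth part for most points.

Proof. Suppose not. By `Ultrafilter.eventually_not` for almost all `ν`: `X ^ (δ / 2) ≤ card (image of code on T1 ν)`, `T1 ν = {z ∈ T ν : sm j X R0 (tot z) ≤ X ^ (δ / 4)}`. Let `J0 = ⌈16 (C + 2) / δ⌉₊`, so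
`(C + 2) / (J0 + 1) ≤ δ / 16`. For `ν` in a set of the ultrafilter (all properties of `hF`, `hR0`, `hSR`, `hK J0`, and `X` large) and `z ∈ T1 ν` apply `decomp_c j (m ν) X R0` to `c = tot z` (`≠ 0`: `pts` with `J = univ`;
`hfull`: if `¬ p ∣ R0` then `p ∉ S ν` by `hSR`, so `pts`): data `A(z)`, `w`, `f(z)`. The `A(z)`: `1 ≤ |A| ≤ X ^ m`, and `∏ {p ∣ A, ¬ p ∣ R0} p ≤ sm j X R0 c ≤ X ^ (δ / 4)` (inclusion of index sets), so with `R = ⌊X ^ (δ / 4)⌋₊`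
(`1 ≤ R ≤ X` as `δ ≤ 1`), `count_KC J0`: at most `2 X ^ (δ / 4) X ^ (δ / 16)` values of `A(z)` (two signs). The `f(z)`: at most `(Nat.log 2 (X ^ m) + 1) ^ j ≤ (m (Nat.log 2 X + 1) + 1) ^ j` values, and with
`l = Nat.log 2 X + 1`: `m ≤ l`, so at most `(l ^ 2 + 1) ^ j ≤ (2 l) ^ (2 j) ≤ X ^ (δ / 32)` for `X` large (`log_pow_le` in `Helper85/VA/CountAU.lean`; `m ≤ l` because `2 ^ ((m + 1) ^ 2) ≤ X`). So some pair
`(A ν, f ν)` is attained by a set `T2 ν ⊆ T1 ν` of points with at least `X ^ (δ / 2) / (2 X ^ (5 δ / 16) X ^ (δ / 32)) ≥ X ^ (δ / 16)` codes (pigeonhole: the image of the code on `T1 ν` is the union over the data of the images, `Finset.card_biUnion_le`,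
`Finset.exists_max_image`; `X ^ (δ / 16) ≥ 2`). Put `A ν = 1`, `f ν = fun _ => m ν`, `T2 ν = ∅` for the other `ν`. `T2` is large, contradicting `fixed_small F j (hF.mono ..) A .. f` (`f i ≤ Nat.log 2 (X ^ m) ≤ m X ≤ X ^ 2`).
-/

set_option autoImplicit false

open MvPolynomial

namespace Pool.Agent.Helper93.TS

open Pool.Agent.Helper91.CPX Pool.Agent.Helper85.VA

private theorem pig {α β γ : Type} [DecidableEq α] [DecidableEq β] [DecidableEq γ] (T : Finset α)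
    (g : α → γ) (dat : α → β) (D : Finset β) (hD : ∀ z ∈ T, dat z ∈ D) (hne : T.Nonempty) :
    ∃ b ∈ D, (T.image g).card ≤ D.card * ((T.filter (fun z => dat z = b)).image g).card := by
  have hDne : D.Nonempty := by
    obtain ⟨z, hz⟩ := hne
    exact ⟨_, hD z hz⟩
  obtain ⟨b, hb, hmax⟩ := Finset.exists_max_image D
    (fun b => ((T.filter (fun z => dat z = b)).image g).card) hDne
  refine ⟨b, hb, ?_⟩
  have h1 : T.image g ⊆ D.biUnion (fun b => (T.filter (fun z => dat z = b)).image g) := by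
    intro y hy
    obtain ⟨z, hz, rfl⟩ := Finset.mem_image.mp hy
    rw [Finset.mem_biUnion]
    exact ⟨dat z, hD z hz, Finset.mem_image_of_mem _ (Finset.mem_filter.mpr ⟨hz, rfl⟩)⟩
  calc (T.image g).card ≤ _ := Finset.card_le_card h1
    _ ≤ ∑ b ∈ D, ((T.filter (fun z => dat z = b)).image g).card := Finset.card_biUnion_le
    _ ≤ D.card • ((T.filter (fun z => dat z = b)).image g).card :=
        Finset.sum_le_card_nsmul _ _ _ fun b' hb' => hmax b' hb'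
    _ = _ := by rw [smul_eq_mul]

/-- a set of integers has at most twice as many elements as its set of absolute values -/
private theorem card_abs (P : Finset ℤ) : P.card ≤ 2 * (P.image Int.natAbs).card := by
  classical
  have h1 : P ⊆ (P.image Int.natAbs).image (fun n : ℕ => (n : ℤ)) ∪
      (P.image Int.natAbs).image (fun n : ℕ => -(n : ℤ)) := by
    intro x hx
    rw [Finset.mem_union, Finset.mem_image, Finset.mem_image]
    have h2 : x.natAbs ∈ P.image Int.natAbs := Finset.mem_image_of_mem _ hx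
    rcases Int.natAbs_eq x with h | h
    · exact Or.inl ⟨x.natAbs, h2, h.symm⟩
    · exact Or.inr ⟨x.natAbs, h2, h.symm⟩
  calc P.card ≤ _ := Finset.card_le_card h1
    _ ≤ _ := Finset.card_union_le _ _
    _ ≤ (P.image Int.natAbs).card + (P.image Int.natAbs).card :=
        add_le_add Finset.card_image_le Finset.card_image_le
    _ = _ := by ring

private theorem log_pow_X {X m : ℕ} (hm : m ≤ Nat.log 2 X + 1) :
    Nat.log 2 (X ^ m) ≤ (Nat.log 2 X + 1) ^ 2 := by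
  have h1 : X < 2 ^ (Nat.log 2 X + 1) := Nat.lt_pow_succ_log_self (by norm_num) X
  have h2 : X ^ m ≤ 2 ^ ((Nat.log 2 X + 1) * m) := by
    rw [pow_mul]
    exact Nat.pow_le_pow_left h1.le m
  calc Nat.log 2 (X ^ m) ≤ Nat.log 2 (2 ^ ((Nat.log 2 X + 1) * m)) := Nat.log_mono_right h2
    _ = (Nat.log 2 X + 1) * m := Nat.log_pow (by norm_num) _
    _ ≤ (Nat.log 2 X + 1) * (Nat.log 2 X + 1) := Nat.mul_le_mul_left _ hm
    _ = _ := by ring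

private theorem fixed_nu {α : Type} [DecidableEq α] (j m X R0 C J0 : ℕ) (δ : ℝ) (hδ : 0 < δ)
    (hδ1 : δ ≤ 1) (T1 : Finset α) (c cd : α → ℤ) (hX : 2 ≤ X) (hm : 1 ≤ m)
    (hml : m ≤ Nat.log 2 X + 1) (hK : KC J0 m ^ (J0 + 1) ≤ (X : ℝ)) (hR0 : 1 ≤ R0)
    (hR0X : R0 ≤ X ^ (C * m)) (hc : ∀ z ∈ T1, c z ≠ 0 ∧ |c z| ≤ (X : ℤ) ^ m ∧
      (∀ p : ℕ, p.Prime → ¬ p ∣ R0 → (p : ℤ) ∣ c z → (p : ℤ) ^ m ∣ c z) ∧
      (sm j X R0 (c z) : ℝ) ≤ (X : ℝ) ^ (δ / 4))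
    (hJ0 : ((C : ℝ) + 2) / ((J0 : ℝ) + 1) ≤ δ / 16)
    (hlog : 4 ^ j * ((Nat.log 2 X + 1 : ℕ) : ℝ) ^ (2 * j) ≤ (X : ℝ) ^ (δ / 32))
    (h2 : (2 : ℝ) ≤ (X : ℝ) ^ (δ / 16))
    (hcard : (X : ℝ) ^ (δ / 2) ≤ ((T1.image cd).card : ℝ)) :
    ∃ (A : ℤ) (f : Fin j → ℕ) (T2 : Finset α), T2 ⊆ T1 ∧ A ≠ 0 ∧
      (∀ i, m ≤ f i ∧ f i ≤ Nat.log 2 (X ^ m)) ∧
      (∀ z ∈ T2, ∃ w : Fin j → ℕ, (∀ i, 1 ≤ w i ∧ w i ≤ X) ∧ c z = A * ∏ i, (w i : ℤ) ^ f i) ∧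
      (X : ℝ) ^ (δ / 16) ≤ ((T2.image cd).card : ℝ) := by
  have hXR : (0 : ℝ) < X := by exact_mod_cast (by omega : 0 < X)
  have hXR1 : (1 : ℝ) ≤ X := by exact_mod_cast (by omega : 1 ≤ X)
  have hdec : ∀ z, ∃ (A : ℤ) (w f : Fin j → ℕ), z ∈ T1 → (c z = A * ∏ i, (w i : ℤ) ^ f i ∧
      A ≠ 0 ∧ A.natAbs ≤ X ^ m ∧
      (∀ i, 1 ≤ w i ∧ w i ≤ X ∧ m ≤ f i ∧ f i ≤ Nat.log 2 (X ^ m)) ∧
      ∀ p ∈ A.natAbs.primeFactors, ¬ p ∣ R0 → p ∈ (c z).natAbs.primeFactors ∧ p ^ j ≤ X) := by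
    intro z
    by_cases hz : z ∈ T1
    · obtain ⟨h3, h4, h5, -⟩ := hc z hz
      obtain ⟨A, w, f, h6⟩ := decomp_c j m X R0 hm hX (c z) h3 h4 h5
      exact ⟨A, w, f, fun _ => h6⟩
    · exact ⟨0, 0, 0, fun h => absurd h hz⟩
  choose A w f hA using hdec
  have hne : T1.Nonempty := by
    rw [Finset.nonempty_iff_ne_empty]
    rintro rfl
    rw [Finset.image_empty, Finset.card_empty, Nat.cast_zero] at hcard
    have : (0 : ℝ) < (X : ℝ) ^ (δ / 2) := by positivity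
    linarith
  obtain ⟨b, hb, hpig⟩ := pig T1 cd (fun z => (A z, f z))
    ((T1.image A) ×ˢ (Fintype.piFinset fun _ : Fin j => Finset.range (Nat.log 2 (X ^ m) + 1)))
    (fun z hz => by
      rw [Finset.mem_product]
      refine ⟨Finset.mem_image_of_mem _ hz, ?_⟩
      rw [Fintype.mem_piFinset]
      intro i
      rw [Finset.mem_range]
      exact Nat.lt_succ_of_le ((hA z hz).2.2.2.1 i).2.2.2) hne
  -- the number of values of `A`
  obtain ⟨R, hR⟩ : ∃ R, R = ⌊(X : ℝ) ^ (δ / 4)⌋₊ := ⟨_, rfl⟩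
  have hR1 : 1 ≤ R := by
    rw [hR]
    exact Nat.le_floor (by
      rw [Nat.cast_one]
      exact Real.one_le_rpow hXR1 (by positivity))
  have hRle : (R : ℝ) ≤ (X : ℝ) ^ (δ / 4) := by
    rw [hR]
    exact Nat.floor_le (by positivity)
  have hRX : R ≤ X := by
    have h3 : (X : ℝ) ^ (δ / 4) ≤ X := by
      calc (X : ℝ) ^ (δ / 4) ≤ (X : ℝ) ^ (1 : ℝ) :=
            Real.rpow_le_rpow_of_exponent_le hXR1 (by linarith)
        _ = X := Real.rpow_one _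
    exact_mod_cast hRle.trans h3
  have hcA : (((T1.image A).image Int.natAbs).card : ℝ) ≤ (X : ℝ) ^ (δ / 4) * (X : ℝ) ^ (δ / 16) := by
    have h3 := count_KC J0 m C X R0 R hX hK hR0 hR0X hR1 hRX ((T1.image A).image Int.natAbs) (by
      intro y hy
      obtain ⟨x, hx, rfl⟩ := Finset.mem_image.mp hy
      obtain ⟨z, hz, rfl⟩ := Finset.mem_image.mp hx
      obtain ⟨-, h4, h5, -, h6⟩ := hA z hz
      refine ⟨Nat.one_le_iff_ne_zero.mpr (Int.natAbs_ne_zero.mpr h4), h5, ?_⟩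
      rw [hR]
      refine Nat.le_floor ?_
      refine le_trans ?_ (hc z hz).2.2.2
      have h7 : ∏ p ∈ (A z).natAbs.primeFactors.filter (fun p => ¬ p ∣ R0), p ≤
          sm j X R0 (c z) := by
        unfold sm
        refine Finset.prod_le_prod_of_subset_of_one_le' ?_ ?_
        · intro p hp
          rw [Finset.mem_filter] at hp ⊢
          obtain ⟨h8, h9⟩ := h6 p hp.1 hp.2
          exact ⟨h8, hp.2, h9⟩
        · intro p hp _
          exact (Nat.prime_of_mem_primeFactors (Finset.mem_filter.mp hp).1).one_lt.le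
      exact_mod_cast h7)
    refine h3.trans (mul_le_mul hRle ?_ (by positivity) (by positivity))
    exact Real.rpow_le_rpow_of_exponent_le hXR1 hJ0
  have hcA' : (((T1.image A).card : ℕ) : ℝ) ≤ 2 * ((X : ℝ) ^ (δ / 4) * (X : ℝ) ^ (δ / 16)) := by
    have h3 : (((T1.image A).card : ℕ) : ℝ) ≤ 2 * (((T1.image A).image Int.natAbs).card : ℝ) := by
      exact_mod_cast card_abs (T1.image A)
    linarith
  -- the number of values of `f`
  have hcf : (((Fintype.piFinset fun _ : Fin j =>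
      Finset.range (Nat.log 2 (X ^ m) + 1)).card : ℕ) : ℝ) ≤ (X : ℝ) ^ (δ / 32) := by
    rw [Fintype.card_piFinset, Finset.prod_const, Finset.card_range, Finset.card_univ,
      Fintype.card_fin]
    refine le_trans ?_ hlog
    have h3 := log_pow_X hml
    have h4 : (Nat.log 2 (X ^ m) + 1) ^ j ≤ 4 ^ j * (Nat.log 2 X + 1) ^ (2 * j) := by
      rw [pow_mul, ← mul_pow]
      refine Nat.pow_le_pow_left ?_ j
      have h5 : 1 ≤ (Nat.log 2 X + 1) ^ 2 := Nat.one_le_pow _ _ (by omega)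
      omega
    exact_mod_cast h4
  have hM : (X : ℝ) ^ (δ / 16) ≤
      (((T1.filter (fun z => (A z, f z) = b)).image cd).card : ℝ) := by
    rw [Finset.card_product] at hpig
    obtain ⟨M, hMe⟩ : ∃ M : ℝ, M = (((T1.filter (fun z => (A z, f z) = b)).image cd).card : ℝ) :=
      ⟨_, rfl⟩
    have hM0 : 0 ≤ M := by rw [hMe]; positivity
    have hpigR : ((T1.image cd).card : ℝ) ≤ ((T1.image A).card : ℝ) *
        ((Fintype.piFinset fun _ : Fin j => Finset.range (Nat.log 2 (X ^ m) + 1)).card : ℝ) *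
          M := by
      rw [hMe]
      exact_mod_cast hpig
    rw [← hMe]
    have h3 : (X : ℝ) ^ (δ / 2) ≤ 2 * ((X : ℝ) ^ (δ / 4) * (X : ℝ) ^ (δ / 16)) *
        (X : ℝ) ^ (δ / 32) * M := by
      refine (hcard.trans hpigR).trans ?_
      refine mul_le_mul_of_nonneg_right ?_ hM0
      exact mul_le_mul hcA' hcf (by positivity) (by positivity)
    have h4 : (X : ℝ) ^ (δ / 2) = ((X : ℝ) ^ (δ / 4) * (X : ℝ) ^ (δ / 16) * (X : ℝ) ^ (δ / 32)) *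
        ((X : ℝ) ^ (δ / 16) * (X : ℝ) ^ (3 * δ / 32)) := by
      rw [← Real.rpow_add hXR, ← Real.rpow_add hXR, ← Real.rpow_add hXR, ← Real.rpow_add hXR]
      congr 1
      ring
    have h5 : (2 : ℝ) ≤ (X : ℝ) ^ (3 * δ / 32) :=
      h2.trans (Real.rpow_le_rpow_of_exponent_le hXR1 (by linarith))
    obtain ⟨u, hu⟩ : ∃ u, u = (X : ℝ) ^ (δ / 4) * (X : ℝ) ^ (δ / 16) * (X : ℝ) ^ (δ / 32) := ⟨_, rfl⟩
    have hu0 : 0 < u := by rw [hu]; positivity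
    rw [h4] at h3
    have h6 : u * ((X : ℝ) ^ (δ / 16) * (X : ℝ) ^ (3 * δ / 32)) ≤ u * (2 * M) := by
      rw [hu]
      linarith
    have h7 := le_of_mul_le_mul_left h6 hu0
    have h8 : (X : ℝ) ^ (δ / 16) * 2 ≤ (X : ℝ) ^ (δ / 16) * (X : ℝ) ^ (3 * δ / 32) :=
      mul_le_mul_of_nonneg_left h5 (by positivity)
    linarith
  have hne2 : (T1.filter (fun z => (A z, f z) = b)).Nonempty := by
    rw [Finset.nonempty_iff_ne_empty]
    intro h3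
    rw [h3, Finset.image_empty, Finset.card_empty, Nat.cast_zero] at hM
    have : (0 : ℝ) < (X : ℝ) ^ (δ / 16) := by positivity
    linarith
  obtain ⟨z0, hz0⟩ := hne2
  obtain ⟨hz0T, hz0b⟩ := Finset.mem_filter.mp hz0
  obtain ⟨-, h4, -, h5, -⟩ := hA z0 hz0T
  subst hz0b
  refine ⟨A z0, f z0, _, Finset.filter_subset _ _, h4, fun i => (h5 i).2.2, ?_, hM⟩
  intro z hz
  obtain ⟨hzT, hzb⟩ := Finset.mem_filter.mp hz
  obtain ⟨h6, -, -, h7, -⟩ := hA z hzT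
  rw [Prod.mk.injEq] at hzb
  refine ⟨w z, fun i => ⟨(h7 i).1, (h7 i).2.1⟩, ?_⟩
  rw [h6, hzb.1, hzb.2]

theorem smooth_bound (F : Frame) {n k : ℕ} {m : ℕ → ℕ} {S : ℕ → Finset ℕ}
    {a : ℕ → Fin (n + 1) → ℤ} {e : ℕ → Fin (n + 1) → Fin k → ℕ}
    {T : ℕ → Finset (Fin (n + 1) × Fin k → ℤ)} (hF : Fam F m S a e T) (R0 : ℕ → ℕ) (C : ℕ)
    (hR0 : ∀ᶠ ν in (F.U : Filter ℕ), 1 ≤ R0 ν ∧ R0 ν ≤ F.X ν ^ (C * m ν))
    (hSR : ∀ᶠ ν in (F.U : Filter ℕ), ∀ p ∈ S ν, p.Prime → p ∣ R0 ν) (δ : ℝ) (hδ : 0 < δ)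
    (hδ1 : δ ≤ 1) (j : ℕ) :
    ∀ᶠ ν in (F.U : Filter ℕ),
      ((((T ν).filter (fun z => (sm j (F.X ν) (R0 ν) (tot a e ν z) : ℝ) ≤
        (F.X ν : ℝ) ^ (δ / 4))).image (code a e ν)).card : ℝ) < (F.X ν : ℝ) ^ (δ / 2) := by
  classical
  by_contra hcon
  rw [← Ultrafilter.eventually_not] at hcon
  obtain ⟨J0, hJ0e⟩ : ∃ J0, J0 = ⌈16 * ((C : ℝ) + 2) / δ⌉₊ := ⟨_, rfl⟩
  have hJ0 : ((C : ℝ) + 2) / ((J0 : ℝ) + 1) ≤ δ / 16 := by
    have h1 : 16 * ((C : ℝ) + 2) / δ ≤ J0 := by rw [hJ0e]; exact Nat.le_ceil _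
    rw [div_le_iff₀ hδ] at h1
    rw [div_le_iff₀ (by positivity)]
    nlinarith
  obtain ⟨C2, hC2, hlog⟩ := log_pow_le (2 * j) (δ / 64) (by positivity)
  have hgood : ∀ᶠ ν in (F.U : Filter ℕ), ∃ (A : ℤ) (f : Fin j → ℕ)
      (T2 : Finset (Fin (n + 1) × Fin k → ℤ)), T2 ⊆ T ν ∧ A ≠ 0 ∧
      (∀ i, m ν ≤ f i ∧ (f i : ℤ) ≤ (F.X ν : ℤ) ^ 2) ∧
      (∀ z ∈ T2, ∃ w : Fin j → ℤ, (∀ i, 1 ≤ w i ∧ w i ≤ (F.X ν : ℤ)) ∧
        tot a e ν z = A * ∏ i, w i ^ f i) ∧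
      (F.X ν : ℝ) ^ (δ / 16) ≤ ((T2.image (code a e ν)).card : ℝ) := by
    filter_upwards [hcon, hF.hm 1, hF.hX 1, hF.hK J0, hF.pts, hR0, hSR,
      F.tends ⌈(4 ^ j * C2) ^ (64 / δ)⌉₊, F.tends ⌈(2 : ℝ) ^ (16 / δ)⌉₊] with
      ν hcon hm1 hX1 hK hpts hR0 hSR hbig1 hbig2
    have hX := F.two_le ν
    have hXR : (0 : ℝ) < F.X ν := by exact_mod_cast (by omega : 0 < F.X ν)
    have hml : m ν ≤ Nat.log 2 (F.X ν) + 1 := by
      have h1 : (1 * m ν + 1 + 1) ^ 2 ≤ Nat.log 2 (F.X ν) :=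
        Nat.le_log_of_pow_le (by norm_num) hX1
      nlinarith
    have hlog' : 4 ^ j * ((Nat.log 2 (F.X ν) + 1 : ℕ) : ℝ) ^ (2 * j) ≤
        (F.X ν : ℝ) ^ (δ / 32) := by
      have h1 := hlog (F.X ν) (by omega)
      have h3 : (4 : ℝ) ^ j * C2 ≤ (F.X ν : ℝ) ^ (δ / 64) := by
        have h4 : ((4 : ℝ) ^ j * C2) ^ (64 / δ) ≤ (F.X ν : ℝ) :=
          (Nat.le_ceil _).trans (by exact_mod_cast hbig1)
        calc (4 : ℝ) ^ j * C2 = (((4 : ℝ) ^ j * C2) ^ (64 / δ)) ^ (δ / 64) := by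
              rw [← Real.rpow_mul (by positivity), div_mul_div_comm, mul_comm 64 δ,
                div_self (by positivity), Real.rpow_one]
          _ ≤ _ := Real.rpow_le_rpow (by positivity) h4 (by positivity)
      calc 4 ^ j * ((Nat.log 2 (F.X ν) + 1 : ℕ) : ℝ) ^ (2 * j) ≤
          4 ^ j * (C2 * (F.X ν : ℝ) ^ (δ / 64)) := mul_le_mul_of_nonneg_left h1 (by positivity)
        _ = (4 ^ j * C2) * (F.X ν : ℝ) ^ (δ / 64) := by ring
        _ ≤ (F.X ν : ℝ) ^ (δ / 64) * (F.X ν : ℝ) ^ (δ / 64) :=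
            mul_le_mul_of_nonneg_right h3 (by positivity)
        _ = (F.X ν : ℝ) ^ (δ / 32) := by
            rw [← Real.rpow_add hXR]
            congr 1
            ring
    have h2 : (2 : ℝ) ≤ (F.X ν : ℝ) ^ (δ / 16) := by
      have h4 : (2 : ℝ) ^ (16 / δ) ≤ (F.X ν : ℝ) :=
        (Nat.le_ceil _).trans (by exact_mod_cast hbig2)
      calc (2 : ℝ) = ((2 : ℝ) ^ (16 / δ)) ^ (δ / 16) := by
            rw [← Real.rpow_mul (by norm_num), div_mul_div_comm, mul_comm 16 δ,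
              div_self (by positivity), Real.rpow_one]
        _ ≤ _ := Real.rpow_le_rpow (by positivity) h4 (by positivity)
    obtain ⟨A, f, T2, hT2, hA, hf, hdec, hcard⟩ := fixed_nu j (m ν) (F.X ν) (R0 ν) C J0 δ hδ hδ1
      ((T ν).filter (fun z => (sm j (F.X ν) (R0 ν) (tot a e ν z) : ℝ) ≤
        (F.X ν : ℝ) ^ (δ / 4))) (tot a e ν) (code a e ν) hX hm1 hml hK hR0.1 hR0.2
      (fun z hz => by
        obtain ⟨hz1, hz2⟩ := Finset.mem_filter.mp hz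
        obtain ⟨-, h3, -, h4, h5⟩ := hpts z hz1
        exact ⟨h4 Finset.univ Finset.univ_nonempty, h3,
          fun p hp hpR hpc => h5 p hp (fun hpS => hpR (hSR p hpS hp)) hpc, hz2⟩)
      hJ0 hlog' h2 (not_lt.mp hcon)
    refine ⟨A, f, T2, hT2.trans (Finset.filter_subset _ _), hA, ?_, ?_, hcard⟩
    · intro i
      refine ⟨(hf i).1, ?_⟩
      have h3 := log_pow_X hml
      have h4 : Nat.log 2 (F.X ν) + 1 ≤ F.X ν := Nat.log_lt_self 2 (by omega)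
      have h5 : (Nat.log 2 (F.X ν) + 1) ^ 2 ≤ (F.X ν) ^ 2 := Nat.pow_le_pow_left h4 2
      have h6 : f i ≤ (F.X ν) ^ 2 := ((hf i).2.trans h3).trans h5
      exact_mod_cast h6
    · intro z hz
      obtain ⟨w, hw, hwc⟩ := hdec z hz
      refine ⟨fun i => (w i : ℤ), fun i => ⟨?_, ?_⟩, hwc⟩
      · exact Nat.one_le_cast.mpr (hw i).1
      · exact Nat.cast_le.mpr (hw i).2
  have hch : ∀ ν, ∃ (A : ℤ) (f : Fin j → ℕ) (T2 : Finset (Fin (n + 1) × Fin k → ℤ)),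
      A ≠ 0 ∧ T2 ⊆ T ν ∧ ((∃ (A : ℤ) (f : Fin j → ℕ)
      (T2 : Finset (Fin (n + 1) × Fin k → ℤ)), T2 ⊆ T ν ∧ A ≠ 0 ∧
      (∀ i, m ν ≤ f i ∧ (f i : ℤ) ≤ (F.X ν : ℤ) ^ 2) ∧
      (∀ z ∈ T2, ∃ w : Fin j → ℤ, (∀ i, 1 ≤ w i ∧ w i ≤ (F.X ν : ℤ)) ∧
        tot a e ν z = A * ∏ i, w i ^ f i) ∧
      (F.X ν : ℝ) ^ (δ / 16) ≤ ((T2.image (code a e ν)).card : ℝ)) →
      ((∀ i, m ν ≤ f i ∧ (f i : ℤ) ≤ (F.X ν : ℤ) ^ 2) ∧
      (∀ z ∈ T2, ∃ w : Fin j → ℤ, (∀ i, 1 ≤ w i ∧ w i ≤ (F.X ν : ℤ)) ∧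
        tot a e ν z = A * ∏ i, w i ^ f i) ∧
      (F.X ν : ℝ) ^ (δ / 16) ≤ ((T2.image (code a e ν)).card : ℝ))) := by
    intro ν
    by_cases h : (∃ (A : ℤ) (f : Fin j → ℕ)
      (T2 : Finset (Fin (n + 1) × Fin k → ℤ)), T2 ⊆ T ν ∧ A ≠ 0 ∧
      (∀ i, m ν ≤ f i ∧ (f i : ℤ) ≤ (F.X ν : ℤ) ^ 2) ∧
      (∀ z ∈ T2, ∃ w : Fin j → ℤ, (∀ i, 1 ≤ w i ∧ w i ≤ (F.X ν : ℤ)) ∧
        tot a e ν z = A * ∏ i, w i ^ f i) ∧
      (F.X ν : ℝ) ^ (δ / 16) ≤ ((T2.image (code a e ν)).card : ℝ))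
    · obtain ⟨A, f, T2, h1, h2, h3⟩ := h
      exact ⟨A, f, T2, h2, h1, fun _ => h3⟩
    · exact ⟨1, 0, ∅, one_ne_zero, Finset.empty_subset _, fun h' => absurd h' h⟩
  choose A f T2 hA hT2 hsp using hch
  refine fixed_small F j (hF.mono hT2) A hA f ?_ ?_ ⟨δ / 16, by positivity, ?_⟩
  · filter_upwards [hgood] with ν h
    exact (hsp ν h).1
  · filter_upwards [hgood] with ν h
    exact (hsp ν h).2.1
  · filter_upwards [hgood] with ν h
    exact (hsp ν h).2.2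

end Pool.Agent.Helper93.TS
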