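import Pool.Agent.Helper91.CPX.Greedy
import Pool.Agent.Helper93.TS.SmoothBound
import Pool.Agent.Helper93.TS.Overspill

/-!
TS-24 ExistsQ (project TS, MP_464c42_nt). A modulus `q` dividing the sum of the coordinates for a large set of points.

Proof. Let `X ^ δ ≤ card (image of code on T ν)` for almost all `ν`; we may assume `δ ≤ 1` (replace `δ` by `min δ 1`). `smooth_bound` for every `j` and `overspill` give `J` with `J ν → ∞` and, for almost all `ν`,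
`card (code (T ν ∩ {sm (J ν) X R0 (tot z) ≤ X ^ (δ / 4)})) < X ^ (δ / 2)`. Let `T0 ν` be the complement in `T ν`: `X ^ (δ / 4) < sm (J ν) ..`, and `card code (T0 ν) ≥ X ^ δ - X ^ (δ / 2) ≥ X ^ (3 δ / 4)` for `X` large.
For `z ∈ T0 ν` let `𝒬 = ((tot z).natAbs.primeFactors.filter (¬ p ∣ R0 ∧ p ^ J ≤ X))` and apply `greedy` (`Helper91/CPX/Greedy.lean`) with `D = ⌈X ^ (δ / 16)⌉₊`, `W = ⌊X ^ (δ / 16)⌋₊` (for almost all `ν`: `J ν ≥ 16 / δ`, so `p ≤ X ^ (1 / J) ≤ X ^ (δ / 16)`):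
as `∏ 𝒬 > X ^ (δ / 4) ≥ D` there is `𝒬' ⊆ 𝒬` with `X ^ (δ / 16) ≤ d(z) := ∏ 𝒬' ≤ D W ≤ X ^ (δ / 4)` (`D ≤ 2 X ^ (δ / 16) ≤ X ^ (δ / 8)`). The number of possible `d(z)` is at most `X ^ (δ / 4)`; pigeonhole: `q ν` with at least
`X ^ (3 δ / 4 - δ / 4) = X ^ (δ / 2)` codes on `{z ∈ T0 ν : d(z) = q ν}` (see `pigeon`). Put `q ν = 1` for the exceptional `ν`. `δ' = δ / 16`. `Squarefree (q ν)` (product of distinct primes), its prime factors are in `𝒬'` (`Nat.primeFactors_prod`),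
divide `tot z`, do not divide `R0 ν`, and satisfy `p ^ (J ν) ≤ X`, so `p ^ j ≤ X` for `j ≤ J ν`. `q ν ≤ X ^ (δ / 4) ≤ X`.
-/

set_option autoImplicit false

open MvPolynomial

namespace Pool.Agent.Helper93.TS

open Pool.Agent.Helper91.CPX Pool.Agent.Helper85.VA

private theorem pig {α β γ : Type} [DecidableEq α] [DecidableEq β] [DecidableEq γ] (T : Finset α)
    (g : α → γ) (dat : α → β) (D : Finset β) (hD : ∀ z ∈ T, dat z ∈ D) (hne : T.Nonempty) :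
    ∃ b ∈ D, (T.image g).card ≤ D.card * ((T.filter (fun z => dat z = b)).image g).card := by
  have hDne : D.Nonempty := by
    obtain ⟨z, hz⟩ := hne
    exact ⟨_, hD z hz⟩
  obtain ⟨b, hb, hmax⟩ := Finset.exists_max_image D
    (fun b => ((T.filter (fun z => dat z = b)).image g).card) hDne
  refine ⟨b, hb, ?_⟩
  have h1 : T.image g ⊆ D.biUnion (fun b => (T.filter (fun z => dat z = b)).image g) := by
    intro y hy
    obtain ⟨z, hz, rfl⟩ := Finset.mem_image.mp hy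
    rw [Finset.mem_biUnion]
    exact ⟨dat z, hD z hz, Finset.mem_image_of_mem _ (Finset.mem_filter.mpr ⟨hz, rfl⟩)⟩
  calc (T.image g).card ≤ _ := Finset.card_le_card h1
    _ ≤ ∑ b ∈ D, ((T.filter (fun z => dat z = b)).image g).card := Finset.card_biUnion_le
    _ ≤ D.card • ((T.filter (fun z => dat z = b)).image g).card :=
        Finset.sum_le_card_nsmul _ _ _ fun b' hb' => hmax b' hb'
    _ = _ := by rw [smul_eq_mul]

private theorem sqf_prod (Q : Finset ℕ) (hQ : ∀ p ∈ Q, p.Prime) : Squarefree (∏ p ∈ Q, p) := by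
  classical
  induction Q using Finset.induction_on with
  | empty =>
    rw [Finset.prod_empty]
    exact squarefree_one
  | insert a Q ha ih =>
    rw [Finset.prod_insert ha, Nat.squarefree_mul_iff]
    refine ⟨?_, (hQ a (Finset.mem_insert_self a Q)).prime.squarefree,
      ih fun p hp => hQ p (Finset.mem_insert_of_mem hp)⟩
    refine Nat.Coprime.prod_right fun p hp => ?_
    rw [Nat.coprime_primes (hQ a (Finset.mem_insert_self a Q)) (hQ p (Finset.mem_insert_of_mem hp))]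
    rintro rfl
    exact ha hp

private theorem q_nu {α : Type} [DecidableEq α] (J X R0 : ℕ) (δ : ℝ) (hδ : 0 < δ) (hδ1 : δ ≤ 1)
    (T : Finset α) (c cd : α → ℤ) (hX : 2 ≤ X) (hJ : 16 / δ ≤ (J : ℝ))
    (hsm : (((T.filter (fun z => (sm J X R0 (c z) : ℝ) ≤ (X : ℝ) ^ (δ / 4))).image cd).card : ℝ) <
      (X : ℝ) ^ (δ / 2))
    (h2 : (2 : ℝ) ≤ (X : ℝ) ^ (δ / 16)) (hcard : (X : ℝ) ^ δ ≤ ((T.image cd).card : ℝ)) :
    ∃ q : ℕ, (Squarefree q ∧ q ≤ X) ∧ (∀ p ∈ q.primeFactors, p ^ J ≤ X ∧ ¬ p ∣ R0) ∧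
      (X : ℝ) ^ (δ / 16) ≤ (q : ℝ) ∧
      (X : ℝ) ^ (δ / 16) ≤
        (((T.filter (fun z => ∀ p ∈ q.primeFactors, (p : ℤ) ∣ c z)).image cd).card : ℝ) := by
  classical
  have hXR : (0 : ℝ) < X := by exact_mod_cast (by omega : 0 < X)
  have hXR1 : (1 : ℝ) ≤ X := by exact_mod_cast (by omega : 1 ≤ X)
  obtain ⟨T0, hT0⟩ : ∃ T0, T0 = T.filter (fun z => ¬ (sm J X R0 (c z) : ℝ) ≤ (X : ℝ) ^ (δ / 4)) :=
    ⟨_, rfl⟩
  -- many codes on `T0`
  have hT0card : (X : ℝ) ^ (3 * δ / 4) ≤ ((T0.image cd).card : ℝ) := by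
    have h3 : (T.image cd).card ≤
        ((T.filter (fun z => (sm J X R0 (c z) : ℝ) ≤ (X : ℝ) ^ (δ / 4))).image cd).card +
        (T0.image cd).card := by
      have h4 : T = T.filter (fun z => (sm J X R0 (c z) : ℝ) ≤ (X : ℝ) ^ (δ / 4)) ∪ T0 := by
        rw [hT0]
        exact (Finset.filter_union_filter_not_eq _ _).symm
      have h5 : T.image cd = (T.filter (fun z => (sm J X R0 (c z) : ℝ) ≤ (X : ℝ) ^ (δ / 4))).image cd ∪
          T0.image cd := by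
        rw [← Finset.image_union, ← h4]
      rw [h5]
      exact Finset.card_union_le _ _
    have h3' : ((T.image cd).card : ℝ) ≤
        (((T.filter (fun z => (sm J X R0 (c z) : ℝ) ≤ (X : ℝ) ^ (δ / 4))).image cd).card : ℝ) +
        ((T0.image cd).card : ℝ) := by exact_mod_cast h3
    have h6 : (X : ℝ) ^ δ = (X : ℝ) ^ (3 * δ / 4) * (X : ℝ) ^ (δ / 4) := by
      rw [← Real.rpow_add hXR]
      congr 1
      ring
    have h7 : (2 : ℝ) ≤ (X : ℝ) ^ (δ / 4) :=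
      h2.trans (Real.rpow_le_rpow_of_exponent_le hXR1 (by linarith))
    have h8 : (X : ℝ) ^ (δ / 2) ≤ (X : ℝ) ^ (3 * δ / 4) :=
      Real.rpow_le_rpow_of_exponent_le hXR1 (by linarith)
    have h9 : (0 : ℝ) < (X : ℝ) ^ (3 * δ / 4) := by positivity
    have h10 : (X : ℝ) ^ (3 * δ / 4) * 2 ≤ (X : ℝ) ^ (3 * δ / 4) * (X : ℝ) ^ (δ / 4) :=
      mul_le_mul_of_nonneg_left h7 h9.le
    linarith
  -- the partial products
  have hX16 : (1 : ℝ) ≤ (X : ℝ) ^ (δ / 16) := by linarith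
  have hX8 : (X : ℝ) ^ (δ / 8) = (X : ℝ) ^ (δ / 16) * (X : ℝ) ^ (δ / 16) := by
    rw [← Real.rpow_add hXR]
    congr 1
    ring
  have hJ0 : (0 : ℝ) < J := lt_of_lt_of_le (by positivity) hJ
  have hsel : ∀ z, ∃ Q' : Finset ℕ, z ∈ T0 → (∀ p ∈ Q', p.Prime ∧ p ^ J ≤ X ∧ ¬ p ∣ R0 ∧ (p : ℤ) ∣ c z) ∧
      (X : ℝ) ^ (δ / 16) ≤ ((∏ p ∈ Q', p : ℕ) : ℝ) ∧ ((∏ p ∈ Q', p : ℕ) : ℝ) ≤ (X : ℝ) ^ (δ / 4) := by
    intro z
    by_cases hz : z ∈ T0
    swap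
    · exact ⟨∅, fun h => absurd h hz⟩
    rw [hT0, Finset.mem_filter, not_le] at hz
    have hW1 : 1 ≤ ⌊(X : ℝ) ^ (δ / 16)⌋₊ := Nat.le_floor (by rw [Nat.cast_one]; exact hX16)
    have hD1 : 1 ≤ ⌈(X : ℝ) ^ (δ / 16)⌉₊ := Nat.one_le_ceil_iff.mpr (by positivity)
    have hDr : ((⌈(X : ℝ) ^ (δ / 16)⌉₊ : ℕ) : ℝ) ≤ (X : ℝ) ^ (δ / 8) := by
      have h3 : ((⌈(X : ℝ) ^ (δ / 16)⌉₊ : ℕ) : ℝ) < (X : ℝ) ^ (δ / 16) + 1 :=
        Nat.ceil_lt_add_one (by positivity)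
      have h4 : 2 * (X : ℝ) ^ (δ / 16) ≤ (X : ℝ) ^ (δ / 16) * (X : ℝ) ^ (δ / 16) :=
        mul_le_mul_of_nonneg_right h2 (by positivity)
      rw [hX8]
      linarith
    have hWr : ((⌊(X : ℝ) ^ (δ / 16)⌋₊ : ℕ) : ℝ) ≤ (X : ℝ) ^ (δ / 16) := Nat.floor_le (by positivity)
    have hg := greedy ((c z).natAbs.primeFactors.filter (fun p => ¬ p ∣ R0 ∧ p ^ J ≤ X))
      ⌊(X : ℝ) ^ (δ / 16)⌋₊ ⌈(X : ℝ) ^ (δ / 16)⌉₊ (by
        intro p hp
        rw [Finset.mem_filter] at hp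
        have hpp := Nat.prime_of_mem_primeFactors hp.1
        refine ⟨hpp.one_le, Nat.le_floor ?_⟩
        have h3 : ((p : ℝ)) ^ (J : ℝ) ≤ (X : ℝ) := by
          rw [Real.rpow_natCast]
          exact_mod_cast hp.2.2
        have h4 : (p : ℝ) = ((p : ℝ) ^ (J : ℝ)) ^ (1 / (J : ℝ)) := by
          rw [← Real.rpow_mul (Nat.cast_nonneg p), mul_one_div_cancel hJ0.ne', Real.rpow_one]
        rw [h4]
        refine (Real.rpow_le_rpow (by positivity) h3 (by positivity)).trans ?_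
        refine Real.rpow_le_rpow_of_exponent_le hXR1 ?_
        rw [div_le_div_iff₀ hJ0 (by norm_num)]
        rw [div_le_iff₀ hδ] at hJ
        linarith) hD1 hW1
    rcases hg with hg | ⟨Q', hQ', h3, h4⟩
    · exfalso
      have h5 : ((∏ p ∈ (c z).natAbs.primeFactors.filter (fun p => ¬ p ∣ R0 ∧ p ^ J ≤ X), p : ℕ) : ℝ) <
          ((⌈(X : ℝ) ^ (δ / 16)⌉₊ : ℕ) : ℝ) := by exact_mod_cast hg
      have h6 : (X : ℝ) ^ (δ / 8) ≤ (X : ℝ) ^ (δ / 4) :=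
        Real.rpow_le_rpow_of_exponent_le hXR1 (by linarith)
      have h7 := hz.2
      unfold sm at h7
      linarith
    · refine ⟨Q', fun _ => ⟨?_, ?_, ?_⟩⟩
      · intro p hp
        have h5 := hQ' hp
        rw [Finset.mem_filter] at h5
        refine ⟨Nat.prime_of_mem_primeFactors h5.1, h5.2.2, h5.2.1, ?_⟩
        exact Int.natCast_dvd.mpr (Nat.dvd_of_mem_primeFactors h5.1)
      · refine (Nat.le_ceil _).trans ?_
        exact_mod_cast h3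
      · have h5 : ((∏ p ∈ Q', p : ℕ) : ℝ) ≤ ((⌈(X : ℝ) ^ (δ / 16)⌉₊ : ℕ) : ℝ) *
            ((⌊(X : ℝ) ^ (δ / 16)⌋₊ : ℕ) : ℝ) := by exact_mod_cast h4
        refine h5.trans ((mul_le_mul hDr hWr (by positivity) (by positivity)).trans ?_)
        rw [← Real.rpow_add hXR]
        exact Real.rpow_le_rpow_of_exponent_le hXR1 (by linarith)
  choose Q' hQ' using hsel
  have hne : T0.Nonempty := by
    rw [Finset.nonempty_iff_ne_empty]
    intro h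
    rw [h, Finset.image_empty, Finset.card_empty, Nat.cast_zero] at hT0card
    have : (0 : ℝ) < (X : ℝ) ^ (3 * δ / 4) := by positivity
    linarith
  obtain ⟨b, hb, hpig⟩ := pig T0 cd (fun z => ∏ p ∈ Q' z, p)
    (Finset.Icc 1 ⌊(X : ℝ) ^ (δ / 4)⌋₊) (by
      intro z hz
      obtain ⟨h3, h4, h5⟩ := hQ' z hz
      rw [Finset.mem_Icc]
      refine ⟨?_, Nat.le_floor h5⟩
      exact Nat.one_le_iff_ne_zero.mpr (Finset.prod_ne_zero_iff.mpr fun p hp => (h3 p hp).1.ne_zero)) hne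
  have hM : (X : ℝ) ^ (δ / 2) ≤
      (((T0.filter (fun z => ∏ p ∈ Q' z, p = b)).image cd).card : ℝ) := by
    obtain ⟨M, hMe⟩ : ∃ M : ℝ, M = (((T0.filter (fun z => ∏ p ∈ Q' z, p = b)).image cd).card : ℝ) :=
      ⟨_, rfl⟩
    have hM0 : 0 ≤ M := by rw [hMe]; positivity
    rw [Nat.card_Icc, Nat.add_sub_cancel] at hpig
    have h3 : ((T0.image cd).card : ℝ) ≤ ((⌊(X : ℝ) ^ (δ / 4)⌋₊ : ℕ) : ℝ) * M := by
      rw [hMe]
      exact_mod_cast hpig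
    have h4 : ((⌊(X : ℝ) ^ (δ / 4)⌋₊ : ℕ) : ℝ) ≤ (X : ℝ) ^ (δ / 4) := Nat.floor_le (by positivity)
    have h5 : (X : ℝ) ^ (δ / 4) * (X : ℝ) ^ (δ / 2) ≤ (X : ℝ) ^ (δ / 4) * M := by
      rw [← Real.rpow_add hXR]
      calc (X : ℝ) ^ (δ / 4 + δ / 2) = (X : ℝ) ^ (3 * δ / 4) := by
            congr 1
            ring
        _ ≤ _ := hT0card
        _ ≤ _ := h3
        _ ≤ _ := mul_le_mul_of_nonneg_right h4 hM0
    rw [← hMe]
    exact le_of_mul_le_mul_left h5 (by positivity)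
  have hne2 : (T0.filter (fun z => ∏ p ∈ Q' z, p = b)).Nonempty := by
    rw [Finset.nonempty_iff_ne_empty]
    intro h3
    rw [h3, Finset.image_empty, Finset.card_empty, Nat.cast_zero] at hM
    have : (0 : ℝ) < (X : ℝ) ^ (δ / 2) := by positivity
    linarith
  obtain ⟨z0, hz0⟩ := hne2
  obtain ⟨hz0T, hz0b⟩ := Finset.mem_filter.mp hz0
  obtain ⟨h3, h4, h5⟩ := hQ' z0 hz0T
  have hpf : ∀ z ∈ T0, ∏ p ∈ Q' z, p = b → b.primeFactors = Q' z := by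
    intro z hz hzb
    rw [← hzb]
    exact Nat.primeFactors_prod fun p hp => ((hQ' z hz).1 p hp).1
  have hpf0 := hpf z0 hz0T hz0b
  refine ⟨b, ⟨?_, ?_⟩, ?_, ?_, ?_⟩
  · rw [← hz0b]
    exact sqf_prod _ fun p hp => (h3 p hp).1
  · have h6 : (b : ℝ) ≤ (X : ℝ) := by
      rw [← hz0b]
      refine h5.trans ?_
      calc (X : ℝ) ^ (δ / 4) ≤ (X : ℝ) ^ (1 : ℝ) :=
            Real.rpow_le_rpow_of_exponent_le hXR1 (by linarith)
        _ = X := Real.rpow_one _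
    exact_mod_cast h6
  · intro p hp
    rw [hpf0] at hp
    exact ⟨(h3 p hp).2.1, (h3 p hp).2.2.1⟩
  · rw [← hz0b]
    exact h4
  · refine (Real.rpow_le_rpow_of_exponent_le hXR1 (by linarith)).trans (hM.trans ?_)
    have h6 : (T0.filter (fun z => ∏ p ∈ Q' z, p = b)) ⊆
        T.filter (fun z => ∀ p ∈ b.primeFactors, (p : ℤ) ∣ c z) := by
      intro z hz
      obtain ⟨hz1, hz2⟩ := Finset.mem_filter.mp hz
      rw [Finset.mem_filter]
      refine ⟨?_, ?_⟩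
      · rw [hT0] at hz1
        exact (Finset.mem_filter.mp hz1).1
      · intro p hp
        rw [hpf z hz1 hz2] at hp
        exact ((hQ' z hz1).1 p hp).2.2.2
    exact_mod_cast Finset.card_le_card (Finset.image_subset_image h6)

theorem exists_q (F : Frame) {n k : ℕ} {m : ℕ → ℕ} {S : ℕ → Finset ℕ}
    {a : ℕ → Fin (n + 1) → ℤ} {e : ℕ → Fin (n + 1) → Fin k → ℕ}
    {T : ℕ → Finset (Fin (n + 1) × Fin k → ℤ)} (hF : Fam F m S a e T)
    (hL : Large F (code a e) T) (R0 : ℕ → ℕ) (C : ℕ)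
    (hR0 : ∀ᶠ ν in (F.U : Filter ℕ), 1 ≤ R0 ν ∧ R0 ν ≤ F.X ν ^ (C * m ν))
    (hSR : ∀ᶠ ν in (F.U : Filter ℕ), ∀ p ∈ S ν, p.Prime → p ∣ R0 ν) :
    ∃ (q : ℕ → ℕ) (δ : ℝ), 0 < δ ∧ Moduli F q ∧
      (∀ᶠ ν in (F.U : Filter ℕ), (F.X ν : ℝ) ^ δ ≤ (q ν : ℝ) ∧
        ∀ p ∈ (q ν).primeFactors, ¬ p ∣ R0 ν) ∧
      Large F (code a e)
        (fun ν => (T ν).filter (fun z => ∀ p ∈ (q ν).primeFactors, (p : ℤ) ∣ tot a e ν z)) := by
  classical
  obtain ⟨δ1, hδ1, hL1⟩ := hL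
  obtain ⟨δ, hδe⟩ : ∃ δ : ℝ, δ = min δ1 1 := ⟨_, rfl⟩
  have hδ : 0 < δ := by rw [hδe]; exact lt_min hδ1 zero_lt_one
  have hδle : δ ≤ 1 := by rw [hδe]; exact min_le_right _ _
  have hδle1 : δ ≤ δ1 := by rw [hδe]; exact min_le_left _ _
  obtain ⟨J, hJ, hJP⟩ := overspill F (fun j ν =>
    ((((T ν).filter (fun z => (sm j (F.X ν) (R0 ν) (tot a e ν z) : ℝ) ≤
        (F.X ν : ℝ) ^ (δ / 4))).image (code a e ν)).card : ℝ) < (F.X ν : ℝ) ^ (δ / 2))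
    (fun j => smooth_bound F hF R0 C hR0 hSR δ hδ hδle j)
  obtain ⟨P, hP⟩ : ∃ P : ℕ → ℕ → Prop, P = fun ν q => (Squarefree q ∧ q ≤ F.X ν) ∧
      (∀ p ∈ q.primeFactors, p ^ (J ν) ≤ F.X ν ∧ ¬ p ∣ R0 ν) ∧
      (F.X ν : ℝ) ^ (δ / 16) ≤ (q : ℝ) ∧
      (F.X ν : ℝ) ^ (δ / 16) ≤
        ((((T ν).filter (fun z => ∀ p ∈ q.primeFactors, (p : ℤ) ∣ tot a e ν z)).image
          (code a e ν)).card : ℝ) := ⟨_, rfl⟩
  have hgood : ∀ᶠ ν in (F.U : Filter ℕ), ∃ q, P ν q := by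
    filter_upwards [hL1, hJP, hJ ⌈16 / δ⌉₊, F.tends ⌈(2 : ℝ) ^ (16 / δ)⌉₊] with ν h1 h2 h3 h4
    have hX := F.two_le ν
    have hXR1 : (1 : ℝ) ≤ F.X ν := by exact_mod_cast (by omega : 1 ≤ F.X ν)
    rw [hP]
    refine q_nu (J ν) (F.X ν) (R0 ν) δ hδ hδle (T ν) (tot a e ν) (code a e ν) hX ?_ h2 ?_ ?_
    · exact (Nat.le_ceil _).trans (by exact_mod_cast h3)
    · have h5 : (2 : ℝ) ^ (16 / δ) ≤ (F.X ν : ℝ) := (Nat.le_ceil _).trans (by exact_mod_cast h4)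
      calc (2 : ℝ) = ((2 : ℝ) ^ (16 / δ)) ^ (δ / 16) := by
            rw [← Real.rpow_mul (by norm_num), div_mul_div_comm, mul_comm 16 δ,
              div_self (by positivity), Real.rpow_one]
        _ ≤ _ := Real.rpow_le_rpow (by positivity) h5 (by positivity)
    · exact (Real.rpow_le_rpow_of_exponent_le hXR1 hδle1).trans h1
  have hch : ∀ ν, ∃ q, (∃ q, P ν q) → P ν q := by
    intro ν
    by_cases h : ∃ q, P ν q
    · obtain ⟨q, hq⟩ := h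
      exact ⟨q, fun _ => hq⟩
    · exact ⟨1, fun h' => absurd h' h⟩
  choose q hq using hch
  refine ⟨q, δ / 16, by positivity, ⟨?_, ?_⟩, ?_, ⟨δ / 16, by positivity, ?_⟩⟩
  · filter_upwards [hgood] with ν h1
    have h2 := hq ν h1
    rw [hP] at h2
    exact h2.1
  · intro j
    filter_upwards [hgood, hJ j] with ν h1 h3 p hp
    have h2 := hq ν h1
    rw [hP] at h2
    refine le_trans ?_ (h2.2.1 p hp).1
    exact Nat.pow_le_pow_right (Nat.prime_of_mem_primeFactors hp).one_le h3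
  · filter_upwards [hgood] with ν h1
    have h2 := hq ν h1
    rw [hP] at h2
    exact ⟨h2.2.2.1, fun p hp => (h2.2.1 p hp).2⟩
  · filter_upwards [hgood] with ν h1
    have h2 := hq ν h1
    rw [hP] at h2
    exact h2.2.2.2

end Pool.Agent.Helper93.TS
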