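import Pool.Agent.Helper87.Camp.Proj

/-!
TS-31 Inject (project TS, MP_464c42_nt). A primitive vector is determined by `n + 1` of its values up to a positive factor.

Proof. `rel L (i0.succAbove i) ≠ 0`, so `g' * form L (i0.succAbove i) x = g * form L (i0.succAbove i) x'` for all `i` (from `g y i = rel form(x)`, `g' y i = rel form(x')`). So `v j = g' x j - g x' j` satisfies
`form L (i0.succAbove i) v = 0` for all `i`, i.e. `(L.submatrix i0.succAbove id).mulVec v = 0` with nonzero determinant: `v = 0` (`Matrix.eq_zero_of_mulVec_eq_zero`). `g' x j = g x' j` for all `j`: `g` divides `g' x j` for all `j`; as `x` is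
primitive, `g ∣ g'` (the gcd of the `g' x j` is `g'`; or: let `d = g / gcd (g, g')`, it divides all `x j`, so it is a unit), similarly `g' ∣ g`, so `g = g'` (positive), and `x = x'`.
-/

set_option autoImplicit false

open Pool.Agent.Helper87.Camp

namespace Pool.Agent.Helper93.TS

theorem inject {n : ℕ} (L : Matrix (Fin (n + 2)) (Fin (n + 1)) ℤ) (hL : ∀ i, minor L i ≠ 0)
    (i0 : Fin (n + 2)) (x x' y : Fin (n + 1) → ℤ) (g g' : ℕ) (hg : 1 ≤ g) (hg' : 1 ≤ g')
    (hx : ∀ d : ℤ, (∀ j, d ∣ x j) → IsUnit d) (hx' : ∀ d : ℤ, (∀ j, d ∣ x' j) → IsUnit d)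
    (h : ∀ i, (g : ℤ) * y i = rel L (i0.succAbove i) * form L (i0.succAbove i) x)
    (h' : ∀ i, (g' : ℤ) * y i = rel L (i0.succAbove i) * form L (i0.succAbove i) x') :
    x = x' := by
  classical
  have hrel : ∀ i, rel L i ≠ 0 := by
    intro i
    unfold rel
    exact mul_ne_zero (pow_ne_zero _ (by norm_num)) (hL i)
  have hmul : ∀ i, (g' : ℤ) * form L (i0.succAbove i) x = g * form L (i0.succAbove i) x' := by
    intro i
    have h3 : rel L (i0.succAbove i) * ((g' : ℤ) * form L (i0.succAbove i) x) =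
        rel L (i0.succAbove i) * (g * form L (i0.succAbove i) x') := by
      calc rel L (i0.succAbove i) * ((g' : ℤ) * form L (i0.succAbove i) x)
          = g' * (rel L (i0.succAbove i) * form L (i0.succAbove i) x) := by ring
        _ = g' * (g * y i) := by rw [h i]
        _ = g * (g' * y i) := by ring
        _ = g * (rel L (i0.succAbove i) * form L (i0.succAbove i) x') := by rw [h' i]
        _ = _ := by ring
    exact mul_left_cancel₀ (hrel _) h3
  have hv : (L.submatrix i0.succAbove id).mulVec (fun j => (g' : ℤ) * x j - g * x' j) = 0 := by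
    funext i
    change ∑ j, L (i0.succAbove i) j * ((g' : ℤ) * x j - g * x' j) = 0
    have h1 := hmul i
    unfold form at h1
    rw [Finset.mul_sum, Finset.mul_sum] at h1
    have h2 : ∀ j ∈ (Finset.univ : Finset (Fin (n + 1))),
        L (i0.succAbove i) j * ((g' : ℤ) * x j - g * x' j) =
        (g' : ℤ) * (L (i0.succAbove i) j * x j) - g * (L (i0.succAbove i) j * x' j) := by
      intro j _
      ring
    rw [Finset.sum_congr rfl h2, Finset.sum_sub_distrib, h1, sub_self]
  have hdet : (L.submatrix i0.succAbove id).det ≠ 0 := hL i0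
  have hz := Matrix.eq_zero_of_mulVec_eq_zero hdet hv
  have hgx : ∀ j, (g' : ℤ) * x j = g * x' j := fun j => sub_eq_zero.1 (congrFun hz j)
  obtain ⟨a, b, hab, hga, hgb⟩ : ∃ a b : ℕ, Nat.Coprime a b ∧ g = a * Nat.gcd g g' ∧
      g' = b * Nat.gcd g g' := by
    obtain ⟨a, b, h1, h2, h3⟩ := Nat.exists_coprime g g'
    exact ⟨a, b, h1, h2, h3⟩
  have he : 0 < Nat.gcd g g' := Nat.gcd_pos_of_pos_left _ (by omega)
  have he0 : ((Nat.gcd g g' : ℕ) : ℤ) ≠ 0 := by exact_mod_cast he.ne'
  have hbx : ∀ j, (b : ℤ) * x j = a * x' j := by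
    intro j
    apply mul_left_cancel₀ he0
    have h1 := hgx j
    have h2 : (g : ℤ) = a * (Nat.gcd g g' : ℕ) := by exact_mod_cast hga
    have h3 : (g' : ℤ) = b * (Nat.gcd g g' : ℕ) := by exact_mod_cast hgb
    calc ((Nat.gcd g g' : ℕ) : ℤ) * ((b : ℤ) * x j) = (b * (Nat.gcd g g' : ℕ)) * x j := by ring
      _ = g' * x j := by rw [← h3]
      _ = g * x' j := h1
      _ = (a * (Nat.gcd g g' : ℕ)) * x' j := by rw [← h2]
      _ = _ := by ring
  have hcop : IsCoprime (a : ℤ) (b : ℤ) := Nat.isCoprime_iff_coprime.2 hab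
  have ha1 : IsUnit (a : ℤ) := by
    apply hx
    intro j
    apply hcop.dvd_of_dvd_mul_left
    rw [hbx]
    exact dvd_mul_right _ _
  have hb1 : IsUnit (b : ℤ) := by
    apply hx'
    intro j
    apply hcop.symm.dvd_of_dvd_mul_left
    rw [← hbx]
    exact dvd_mul_right _ _
  have ha2 : (a : ℤ) = 1 := by
    rcases Int.isUnit_iff.1 ha1 with h1 | h1 <;> omega
  have hb2 : (b : ℤ) = 1 := by
    rcases Int.isUnit_iff.1 hb1 with h1 | h1 <;> omega
  funext j
  have h1 := hbx j
  rw [ha2, hb2, one_mul, one_mul] at h1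
  exact h1

end Pool.Agent.Helper93.TS
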