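import Pool.Agent.Helper93.MT.Final
import Pool.Agent.Helper93.TS.ExcCount
import Pool.Agent.Helper85.VA.Defs

/-!
TS-30 Transfer (project TS, MP_464c42_nt). From a Campana point, `n + 1` of whose values are not exceptional, to a primitive vector with sum `m`-full.

`S'` is `S` together with the primes dividing the coefficients `rel L i`.

Proof. `g` = gcd (positive) of the `n + 1` numbers `rel L (i0.succAbove i) * form L (i0.succAbove i) x` (not all zero; `Finset.univ.gcd`, natural number), `y i` the quotient: `g * y i = rel * form`. (1) Primes of `g` are in `S'`: let `p ∣ g`, `p ∉ S'`: `p` divides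
all `form L (i0.succAbove i) x` (it does not divide the `rel`), so it divides `minor L i0 * x j` for all `j` (adjugate: `minor L i0 = det (L.submatrix i0.succAbove id)`, `Matrix.adjugate_mul` applied to `x`), so all `x j` (`p` does not divide `rel L i0 = ± minor`),
contradicting primitivity (`p` is not a unit). (See `two_indices` in `Helper91/CPX/TwoIndices.lean`, which gives two indices `j ≠ l` with `¬ p ∣ form`: one of them is not `i0`.) (2) `Prim y`: a prime dividing all `y i` times `g` would divide the gcd more: `gcd (y i) = 1`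
(`Finset.gcd_mul_left`, `g ≠ 0`). (3) `∑ i, y i * g = - rel L i0 * form L i0 x` (`rel_form_sum`, `Fin.sum_univ_succAbove`). Subsums: for `J` nonempty, `g * ∑_{i ∈ J} y i` is the sum over the image of `J` under `i0.succAbove`, a nonempty set of indices different from `univ`
(it does not contain `i0`): not zero by `NonDegenerate`. (4) `p ∉ S'`, `p ∣ ∑ y i`: `p ∣ rel L i0 * form L i0 x`, so `p ∣ form L i0 x`, `m ≤ μ i0 ≤ emultiplicity`, `p ^ m ∣ form L i0 x`, so `p ^ m ∣ g * ∑ y i` and `p` is prime to `g` by (1). (5) `PowLike`: `form L (i0.succAbove i) x ∉ Exc`, it is nonzero and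
`NFull S m` (`hC.full`, `hμ`), so `Short S m k (|form| ^ θ)`; multiplying by `rel` (all primes in `S'`): `Short S' m k W (rel * form)` for `W ≥ |form| ^ θ` (replace `s` by `s * |rel|`, `S ⊆ S'`), and dividing by `g`: `PowLike S' m k ⌊W⌋₊ (y i)` by the lemma `as_pow` of
`Helper93/MT/AllShort.lean` (private there: copy it with `as_split`, `as_ext*`).
-/

set_option autoImplicit false

open Pool.Agent.Helper87.Camp Pool.Agent.Helper91.CPX Pool.Agent.Helper93.MT

namespace Pool.Agent.Helper93.TS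

/-- `S` together with the primes dividing the coefficients of the relation. -/
def badS {n : ℕ} (S : Finset ℕ) (L : Matrix (Fin (n + 2)) (Fin (n + 1)) ℤ) : Finset ℕ :=
  S ∪ Finset.univ.biUnion (fun i => (rel L i).natAbs.primeFactors)

/-- the parts of `y` composed of primes of `S` and prime to `S` -/
private lemma tr_split (S : Finset ℕ) : ∀ y : ℕ, 0 < y → ∃ u v : ℕ, y = u * v ∧ 0 < u ∧ 0 < v ∧
    (∀ p : ℕ, p.Prime → p ∣ u → p ∈ S) ∧ ∀ p : ℕ, p.Prime → p ∣ v → p ∉ S := by
  intro y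
  induction y using Nat.strong_induction_on with
  | _ y ih =>
    intro hy
    by_cases hc : ∀ p : ℕ, p.Prime → p ∣ y → p ∉ S
    · exact ⟨1, y, (one_mul y).symm, one_pos, hy,
        fun p hp hp1 => absurd (Nat.dvd_one.1 hp1) hp.ne_one, hc⟩
    · push Not at hc
      obtain ⟨p, hp, ⟨T, hT⟩, hpS⟩ := hc
      have hT1 : 0 < T := by
        rcases Nat.eq_zero_or_pos T with h | h
        · rw [h, mul_zero] at hT; omega
        · exact h
      have hTy : T < y := by
        rw [hT]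
        exact lt_mul_of_one_lt_left (by omega) hp.one_lt
      obtain ⟨u, v, huv, hu, hv, h1, h2⟩ := ih T hTy hT1
      refine ⟨p * u, v, by rw [hT, huv, mul_assoc], Nat.mul_pos hp.pos hu, hv, ?_, h2⟩
      intro r hr hrpu
      rcases (Nat.Prime.dvd_mul hr).1 hrpu with h | h
      · rw [(Nat.prime_dvd_prime_iff_eq hr hp).1 h]
        exact hpS
      · exact h1 r hr h

/-- extension of a family by `1` -/
private def tr_ext {m : ℕ} (φ : Fin m → ℕ) (j : ℕ) : ℕ := if h : j < m then φ ⟨j, h⟩ else 1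

private lemma tr_ext_val {m : ℕ} (φ : Fin m → ℕ) (j : Fin m) : tr_ext φ (j : ℕ) = φ j := by
  unfold tr_ext
  rw [dif_pos j.isLt]

private lemma tr_ext_ge {m : ℕ} (φ : Fin m → ℕ) {j : ℕ} (hj : ¬ j < m) : tr_ext φ j = 1 := by
  unfold tr_ext
  rw [dif_neg hj]

/-- `PowLike` for the quotient of a short integer by an `S`-unit -/
private lemma tr_pow {S : Finset ℕ} {m k : ℕ} {W : ℝ} {a : ℤ}
    (ha : Short S m k W a) {g : ℕ} (hg : 0 < g) (hgS : ∀ p : ℕ, p.Prime → p ∣ g → p ∈ S) {x : ℤ}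
    (hx : a = (g : ℤ) * x) : Helper85.VA.PowLike S m k ⌊W⌋₊ x := by
  obtain ⟨s, y, hs, hsS, hy, hay, hyW⟩ := ha
  have hsp : ∀ j, ∃ u v : ℕ, y j = u * v ∧ 0 < u ∧ 0 < v ∧
    (∀ p : ℕ, p.Prime → p ∣ u → p ∈ S) ∧ ∀ p : ℕ, p.Prime → p ∣ v → p ∉ S :=
    fun j => tr_split S (y j) (hy j)
  choose u v huv hu hv huS hvS using hsp
  have hnat : a.natAbs = g * x.natAbs := by
    rw [hx, Int.natAbs_mul, Int.natAbs_natCast]
  -- the two parts
  obtain ⟨Ut, hUt⟩ : ∃ Ut, Ut = s * ∏ j, u j ^ (m + (j : ℕ)) := ⟨_, rfl⟩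
  obtain ⟨Vt, hVt⟩ : ∃ Vt, Vt = ∏ j, v j ^ (m + (j : ℕ)) := ⟨_, rfl⟩
  have hUV : a.natAbs = Ut * Vt := by
    rw [hay, hUt, hVt, mul_assoc, ← Finset.prod_mul_distrib]
    congr 1
    apply Finset.prod_congr rfl
    intro j _
    rw [huv j, mul_pow]
  have hUS : ∀ p : ℕ, p.Prime → p ∣ Ut → p ∈ S := by
    intro p hp hpU
    rw [hUt] at hpU
    rcases (Nat.Prime.dvd_mul hp).1 hpU with h | h
    · exact hsS p hp h
    · obtain ⟨j, -, hj⟩ := (Prime.dvd_finsetProd_iff hp.prime _).1 h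
      exact huS j p hp (hp.dvd_of_dvd_pow hj)
  have hVS : ∀ p : ℕ, p.Prime → p ∣ Vt → p ∉ S := by
    intro p hp hpV
    rw [hVt] at hpV
    obtain ⟨j, -, hj⟩ := (Prime.dvd_finsetProd_iff hp.prime _).1 hpV
    exact hvS j p hp (hp.dvd_of_dvd_pow hj)
  have hcop : Nat.Coprime g Vt := by
    by_contra hc
    obtain ⟨p, hp, hpg, hpV⟩ := Nat.Prime.not_coprime_iff_dvd.1 hc
    exact hVS p hp hpV (hgS p hp hpg)
  have hgU : g ∣ Ut := by
    apply hcop.dvd_of_dvd_mul_right
    rw [← hUV, hnat]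
    exact dvd_mul_right _ _
  obtain ⟨h, hh⟩ := hgU
  have hxn : x.natAbs = h * Vt := by
    apply Nat.eq_of_mul_eq_mul_left hg
    rw [← hnat, hUV, hh, mul_assoc]
  -- the extended families
  obtain ⟨F, hF⟩ : ∃ F : ℕ → ℕ, F = fun j => tr_ext v j ^ (m + j) := ⟨_, rfl⟩
  have hVF : Vt = ∏ j ∈ Finset.range m, F j := by
    rw [hVt, Finset.prod_range]
    apply Finset.prod_congr rfl
    intro j _
    rw [hF]
    simp only
    rw [tr_ext_val]
  have hFk : ∏ j ∈ Finset.range k, F j = ∏ j ∈ (Finset.range m).filter (fun j => j < k), F j := by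
    symm
    apply Finset.prod_subset
    · intro j hj
      rw [Finset.mem_filter] at hj
      exact Finset.mem_range.2 hj.2
    · intro j hj hj'
      rw [Finset.mem_range] at hj
      have hjm : ¬ j < m := fun hjm => hj' (Finset.mem_filter.2 ⟨Finset.mem_range.2 hjm, hj⟩)
      rw [hF]
      simp only
      rw [tr_ext_ge v hjm, one_pow]
  refine ⟨h * ∏ j ∈ (Finset.range m).filter (fun j => ¬ j < k), F j,
    fun j : Fin k => tr_ext v (j : ℕ), fun j : Fin k => m + (j : ℕ), ?_, fun j => Nat.le_add_right _ _, ?_⟩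
  · have h1 : ∏ j : Fin k, tr_ext v (j : ℕ) ^ (m + (j : ℕ)) = ∏ j ∈ Finset.range k, F j := by
      rw [Finset.prod_range]
      apply Finset.prod_congr rfl
      intro j _
      rw [hF]
    rw [h1, hFk, hxn, hVF, ← Finset.prod_filter_mul_prod_filter_not (Finset.range m)
      (fun j => j < k) F]
    ring
  · -- the radical
    apply Nat.le_floor
    refine le_trans ?_ hyW
    norm_cast
    obtain ⟨Tv, hTv⟩ : ∃ Tv, Tv = ∏ j ∈ (Finset.range m).filter (fun j => ¬ j < k), tr_ext v j :=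
      ⟨_, rfl⟩
    have hvpos : ∀ j, 0 < tr_ext v j := by
      intro j
      by_cases hj : j < m
      · have := tr_ext_val v ⟨j, hj⟩
        simp only at this
        rw [this]
        exact hv _
      · rw [tr_ext_ge v hj]
        exact one_pos
    have hTv0 : Tv ≠ 0 := by
      rw [hTv]
      exact (Finset.prod_pos fun j _ => hvpos j).ne'
    have hsub : (h * ∏ j ∈ (Finset.range m).filter (fun j => ¬ j < k), F j).primeFactors \ S ⊆
        Tv.primeFactors := by
      intro p hp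
      rw [Finset.mem_sdiff, Nat.mem_primeFactors] at hp
      obtain ⟨⟨hpp, hpd, -⟩, hpS⟩ := hp
      rw [Nat.mem_primeFactors]
      refine ⟨hpp, ?_, hTv0⟩
      rcases (Nat.Prime.dvd_mul hpp).1 hpd with h1 | h1
      · exact absurd (hUS p hpp (by rw [hh]; exact h1.mul_left g)) hpS
      · obtain ⟨j, hj, hj'⟩ := (Prime.dvd_finsetProd_iff hpp.prime _).1 h1
        rw [hF] at hj'
        rw [hTv]
        exact (hpp.dvd_of_dvd_pow hj').trans (Finset.dvd_prod_of_mem (tr_ext v) hj)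
    calc ∏ p ∈ (h * ∏ j ∈ (Finset.range m).filter (fun j => ¬ j < k), F j).primeFactors \ S, p
        ≤ ∏ p ∈ Tv.primeFactors, p := by
          apply Finset.prod_le_prod_of_subset_of_one_le' hsub
          intro p hp _
          exact (Nat.prime_of_mem_primeFactors hp).one_lt.le
      _ ≤ Tv := Nat.le_of_dvd (Nat.pos_of_ne_zero hTv0) (Nat.prod_primeFactors_dvd Tv)
      _ ≤ ∏ j ∈ Finset.univ.filter (fun j : Fin m => k ≤ (j : ℕ)), y j := by
          rw [hTv, Finset.prod_filter, Finset.prod_filter, Finset.prod_range]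
          apply Finset.prod_le_prod'
          intro j _
          by_cases hj : k ≤ (j : ℕ)
          · rw [if_pos (by omega), if_pos hj, tr_ext_val, huv j]
            exact Nat.le_mul_of_pos_left _ (hu j)
          · rw [if_neg (by omega), if_neg hj]

theorem transfer {n : ℕ} (S : Finset ℕ) (L : Matrix (Fin (n + 2)) (Fin (n + 1)) ℤ)
    (hL : ∀ i, minor L i ≠ 0) (μ : Fin (n + 2) → ℕ∞) (m : ℕ) (hμ : ∀ i, (m : ℕ∞) ≤ μ i) (k : ℕ)
    (θ W : ℝ) (i0 : Fin (n + 2)) (x : Fin (n + 1) → ℤ) (hC : IsCampana S L μ x)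
    (hN : NonDegenerate L x)
    (hE : ∀ i, i ≠ i0 → form L i x ∉ Exc S m k θ ∧ ((form L i x).natAbs : ℝ) ^ θ ≤ W) :
    ∃ (g : ℕ) (y : Fin (n + 1) → ℤ), 1 ≤ g ∧
      (∀ i, (g : ℤ) * y i = rel L (i0.succAbove i) * form L (i0.succAbove i) x) ∧
      (g : ℤ) * ∑ i, y i = -(rel L i0 * form L i0 x) ∧ Pool.Agent.Helper85.VA.Prim y ∧
      (∀ J : Finset (Fin (n + 1)), J.Nonempty → ∑ i ∈ J, y i ≠ 0) ∧
      (∀ p : ℕ, p.Prime → p ∉ badS S L → (p : ℤ) ∣ ∑ i, y i → (p : ℤ) ^ m ∣ ∑ i, y i) ∧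
      ∀ i, Pool.Agent.Helper85.VA.PowLike (badS S L) m k ⌊W⌋₊ (y i) := by
  classical
  have hrel : ∀ i, rel L i ≠ 0 := by
    intro i
    unfold rel
    exact mul_ne_zero (pow_ne_zero _ (by norm_num)) (hL i)
  have hrelS : ∀ p : ℕ, p.Prime → p ∉ badS S L → p ∉ S ∧ ∀ i, ¬ (p : ℤ) ∣ rel L i := by
    intro p hp hpS
    unfold badS at hpS
    rw [Finset.mem_union, not_or] at hpS
    refine ⟨hpS.1, fun i h1 => hpS.2 ?_⟩
    rw [Finset.mem_biUnion]
    refine ⟨i, Finset.mem_univ _, ?_⟩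
    rw [Nat.mem_primeFactors]
    exact ⟨hp, Int.natCast_dvd.mp h1, Int.natAbs_ne_zero.mpr (hrel i)⟩
  obtain ⟨a, ha⟩ : ∃ a : Fin (n + 1) → ℤ,
    a = fun i => rel L (i0.succAbove i) * form L (i0.succAbove i) x := ⟨_, rfl⟩
  have hai : ∀ i, a i = rel L (i0.succAbove i) * form L (i0.succAbove i) x := fun i => by rw [ha]
  have hane : ∀ i, a i ≠ 0 := fun i => by
    rw [hai]
    exact mul_ne_zero (hrel _) (hC.ne_zero _)
  obtain ⟨g, hg⟩ : ∃ g : ℕ, g = Finset.univ.gcd (fun i => (a i).natAbs) := ⟨_, rfl⟩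
  have hgd : ∀ i, g ∣ (a i).natAbs := by
    intro i
    rw [hg]
    exact Finset.gcd_dvd (Finset.mem_univ i)
  have hgge : ∀ d : ℕ, (∀ i, d ∣ (a i).natAbs) → d ∣ g := by
    intro d hd
    rw [hg]
    exact Finset.dvd_gcd fun i _ => hd i
  have hgpos : 0 < g := by
    have h1 := hgd 0
    rcases Nat.eq_zero_or_pos g with h | h
    · rw [h, zero_dvd_iff, Int.natAbs_eq_zero] at h1
      exact absurd h1 (hane 0)
    · exact h
  have hg0 : (g : ℤ) ≠ 0 := by exact_mod_cast hgpos.ne'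
  obtain ⟨y, hy⟩ : ∃ y : Fin (n + 1) → ℤ, y = fun i => a i / (g : ℤ) := ⟨_, rfl⟩
  have hay : ∀ i, a i = (g : ℤ) * y i := by
    intro i
    rw [hy]
    exact (Int.mul_ediv_cancel' (Int.natCast_dvd.2 (hgd i))).symm
  have hsumJ : ∀ J : Finset (Fin (n + 1)), ∑ i ∈ J, a i = (g : ℤ) * ∑ i ∈ J, y i := by
    intro J
    rw [Finset.mul_sum]
    exact Finset.sum_congr rfl fun i _ => hay i
  have hsum : (g : ℤ) * ∑ i, y i = -(rel L i0 * form L i0 x) := by
    have h1 := rel_form_sum L x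
    rw [Fin.sum_univ_succAbove _ i0] at h1
    have h2 : ∑ i, a i = ∑ i, rel L (i0.succAbove i) * form L (i0.succAbove i) x :=
      Finset.sum_congr rfl fun i _ => hai i
    rw [← hsumJ, h2]
    linarith
  -- primes of g are bad
  have hgS : ∀ p : ℕ, p.Prime → p ∣ g → p ∈ badS S L := by
    intro p hp hpg
    by_contra hpS
    have hp' : Prime (p : ℤ) := Nat.prime_iff_prime_int.mp hp
    obtain ⟨-, hpr⟩ := hrelS p hp hpS
    obtain ⟨j, l, hjl, hj, hl⟩ := two_indices L x hC.primitive p hp hpr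
    have hkey : ∀ j, j ≠ i0 → (p : ℤ) ∣ form L j x := by
      intro j hj
      obtain ⟨i, rfl⟩ := Fin.exists_succAbove_eq hj
      have h1 : (p : ℤ) ∣ a i := Int.natCast_dvd.2 (hpg.trans (hgd i))
      rw [hai] at h1
      exact (hp'.dvd_or_dvd h1).resolve_left (hpr _)
    by_cases hji : j = i0
    · exact hl (hkey l (fun h => hjl (hji.trans h.symm)))
    · exact hj (hkey j hji)
  refine ⟨g, y, hgpos, fun i => by rw [← hay, hai], hsum, ?_, ?_, ?_, ?_⟩
  · intro p hp
    by_contra hcon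
    push Not at hcon
    have h1 : p * g ∣ g := by
      apply hgge
      intro i
      rw [hay i, Int.natAbs_mul, Int.natAbs_natCast, mul_comm]
      exact mul_dvd_mul_left _ (Int.natCast_dvd.1 (hcon i))
    have h2 := Nat.le_of_dvd hgpos h1
    have h3 := hp.two_le
    nlinarith
  · intro J hJ h0
    have h1 := hsumJ J
    rw [h0, mul_zero] at h1
    refine hN (J.map (Fin.succAboveEmb i0)) (Finset.map_nonempty.2 hJ) ?_ ?_
    · intro huniv
      have h2 : i0 ∈ J.map (Fin.succAboveEmb i0) := by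
        rw [huniv]
        exact Finset.mem_univ _
      rw [Finset.mem_map] at h2
      obtain ⟨i, -, hi⟩ := h2
      exact Fin.succAbove_ne i0 i hi
    · rw [Finset.sum_map, ← h1]
      apply Finset.sum_congr rfl
      intro i _
      rw [hai]
      rfl
  · intro p hp hpS hd
    have hp' : Prime (p : ℤ) := Nat.prime_iff_prime_int.mp hp
    obtain ⟨hpS0, hpr⟩ := hrelS p hp hpS
    have h1 : (p : ℤ) ∣ rel L i0 * form L i0 x := by
      have h2 : (p : ℤ) ∣ (g : ℤ) * ∑ i, y i := hd.mul_left _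
      rw [hsum] at h2
      exact (dvd_neg.1 h2)
    have h2 : (p : ℤ) ∣ form L i0 x := (hp'.dvd_or_dvd h1).resolve_left (hpr i0)
    have h3 := (hμ i0).trans (hC.full i0 p hp hpS0 h2)
    have h4 : (p : ℤ) ^ m ∣ form L i0 x := pow_dvd_of_le_emultiplicity h3
    have h5 : (p : ℤ) ^ m ∣ (g : ℤ) * ∑ i, y i := by
      rw [hsum]
      exact (dvd_neg.2 (h4.mul_left _))
    have h6 : IsCoprime ((p : ℤ) ^ m) (g : ℤ) := by
      apply IsCoprime.pow_left
      rw [Nat.isCoprime_iff_coprime]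
      exact (Nat.Prime.coprime_iff_not_dvd hp).2 fun h => hpS (hgS p hp h)
    exact h6.dvd_of_dvd_mul_left h5
  · intro i
    obtain ⟨hE1, hE2⟩ := hE (i0.succAbove i) (Fin.succAbove_ne i0 i)
    have hfull : NFull S m (form L (i0.succAbove i) x).natAbs := by
      intro p hp hpS hd
      have h1 : (p : ℤ) ∣ form L (i0.succAbove i) x := Int.natCast_dvd.2 hd
      have h3 := (hμ _).trans (hC.full (i0.succAbove i) p hp hpS h1)
      have h4 : (p : ℤ) ^ m ∣ form L (i0.succAbove i) x := pow_dvd_of_le_emultiplicity h3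
      rw [← Int.natCast_dvd, Nat.cast_pow]
      exact h4
    have hshort : Short S m k (((form L (i0.succAbove i) x).natAbs : ℝ) ^ θ)
        (form L (i0.succAbove i) x) := by
      by_contra hns
      exact hE1 ⟨hC.ne_zero _, hfull, hns⟩
    obtain ⟨s, z, hs, hsS, hz, hfz, hzW⟩ := hshort
    refine tr_pow (S := badS S L) (m := m) (k := k) (W := W) (a := a i) ?_ hgpos hgS (hay i)
    refine ⟨(rel L (i0.succAbove i)).natAbs * s, z,
      Nat.mul_pos (Int.natAbs_pos.2 (hrel _)) hs, ?_, hz, ?_, hzW.trans hE2⟩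
    · intro p hp hps
      by_contra hpS
      obtain ⟨hpS0, hpr⟩ := hrelS p hp hpS
      rcases (Nat.Prime.dvd_mul hp).1 hps with h | h
      · exact hpr _ (Int.natCast_dvd.2 h)
      · exact hpS0 (hsS p hp h)
    · rw [hai, Int.natAbs_mul, hfz, mul_assoc]

end Pool.Agent.Helper93.TS
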