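import Pool.Agent.Helper93.TS.MainT
import Pool.Agent.Helper93.TS.Transfer
import Pool.Agent.Helper93.TS.Inject

/-!
TS-32 Final (project TS, MP_464c42_nt). The universal thin exceptional set. (helper93)
-/

set_option autoImplicit false

open Pool.Agent.Helper87.Camp Pool.Agent.Helper91.CPX Pool.Agent.Helper93.MT

namespace Pool.Agent.Helper93.TS

/-- The points of height at most `B`, all of whose values except possibly the one with index `i0` are not exceptional. -/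
private theorem one_index (n k m : ℕ) (ε' : ℝ) (S : Finset ℕ)
    (L : Matrix (Fin (n + 2)) (Fin (n + 1)) ℤ) (hL : ∀ i, minor L i ≠ 0) (μ : Fin (n + 2) → ℕ∞)
    (hμ : ∀ i, (m : ℕ∞) ≤ μ i) (θ : ℝ) (hθ : 0 ≤ θ) (C1 : ℝ)
    (hmain : ∀ B R : ℕ, 1 ≤ B → 1 ≤ R → ∀ P : Finset (Fin (n + 1) → ℤ),
        (∀ y ∈ P, (∀ i, |y i| ≤ (B : ℤ)) ∧ |∑ i, y i| ≤ (B : ℤ) ∧ Pool.Agent.Helper85.VA.Prim y ∧
          (∀ J : Finset (Fin (n + 1)), J.Nonempty → ∑ i ∈ J, y i ≠ 0) ∧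
          (∀ p : ℕ, p.Prime → p ∉ badS S L → (p : ℤ) ∣ ∑ i, y i → (p : ℤ) ^ m ∣ ∑ i, y i) ∧
          ∀ i, Pool.Agent.Helper85.VA.PowLike (badS S L) m k R (y i)) →
        (P.card : ℝ) ≤ C1 * (R : ℝ) ^ (n + 1) * (B : ℝ) ^ (ε' / m))
    (lam : ℕ) (hlam : 1 ≤ lam)
    (hsize : ∀ (B : ℕ) (x : Fin (n + 1) → ℤ), (∀ j, |x j| ≤ (B : ℤ)) → ∀ i,
      (form L i x).natAbs ≤ lam * B ∧ (rel L i * form L i x).natAbs ≤ lam * B)
    (B : ℕ) (hB : 1 ≤ B) (i0 : Fin (n + 2)) (F : Finset (Fin (n + 1) → ℤ))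
    (hF : ∀ x ∈ F, IsCampana S L μ x ∧ NonDegenerate L x ∧ (∀ j, |x j| ≤ (B : ℤ)) ∧
      ∀ i, i ≠ i0 → form L i x ∉ Exc S m k θ) :
    (F.card : ℝ) ≤ C1 * (⌊((lam * B : ℕ) : ℝ) ^ θ⌋₊ : ℝ) ^ (n + 1) *
      ((lam * B : ℕ) : ℝ) ^ (ε' / m) := by
  classical
  have hlB : 1 ≤ lam * B := Nat.mul_pos (by omega) hB
  have htr : ∀ x : Fin (n + 1) → ℤ, ∃ (g : ℕ) (y : Fin (n + 1) → ℤ), x ∈ F → 1 ≤ g ∧
      (∀ i, (g : ℤ) * y i = rel L (i0.succAbove i) * form L (i0.succAbove i) x) ∧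
      (g : ℤ) * ∑ i, y i = -(rel L i0 * form L i0 x) ∧ Pool.Agent.Helper85.VA.Prim y ∧
      (∀ J : Finset (Fin (n + 1)), J.Nonempty → ∑ i ∈ J, y i ≠ 0) ∧
      (∀ p : ℕ, p.Prime → p ∉ badS S L → (p : ℤ) ∣ ∑ i, y i → (p : ℤ) ^ m ∣ ∑ i, y i) ∧
      ∀ i, Pool.Agent.Helper85.VA.PowLike (badS S L) m k ⌊((lam * B : ℕ) : ℝ) ^ θ⌋₊ (y i) := by
    intro x
    by_cases hx : x ∈ F
    · obtain ⟨h1, h2, h3, h4⟩ := hF x hx
      obtain ⟨g, y, h⟩ := transfer S L hL μ m hμ k θ (((lam * B : ℕ) : ℝ) ^ θ) i0 x h1 h2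
        (fun i hi => ⟨h4 i hi, by
          refine Real.rpow_le_rpow (Nat.cast_nonneg _) ?_ hθ
          exact_mod_cast (hsize B x h3 i).1⟩)
      exact ⟨g, y, fun _ => h⟩
    · exact ⟨0, 0, fun h => absurd h hx⟩
  choose g y hgy using htr
  have hinj : Set.InjOn y (F : Set (Fin (n + 1) → ℤ)) := by
    intro x hx x' hx' h
    obtain ⟨h1, h2, -⟩ := hgy x hx
    obtain ⟨h1', h2', -⟩ := hgy x' hx'
    rw [← h] at h2'
    exact inject L hL i0 x x' (y x) (g x) (g x') h1 h1' (hF x hx).1.primitive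
      (hF x' hx').1.primitive h2 h2'
  have hle : ∀ (g : ℕ) (a b : ℤ), 1 ≤ g → (g : ℤ) * a = b → b.natAbs ≤ lam * B →
      |a| ≤ ((lam * B : ℕ) : ℤ) := by
    intro g a b hg hab hb
    rw [Int.abs_eq_natAbs]
    have h1 : g * a.natAbs = b.natAbs := by
      rw [← hab, Int.natAbs_mul, Int.natAbs_natCast]
    have h2 : a.natAbs ≤ b.natAbs := by
      rw [← h1]
      exact Nat.le_mul_of_pos_left _ (by omega)
    exact_mod_cast h2.trans hb
  have key := hmain (lam * B) ⌊((lam * B : ℕ) : ℝ) ^ θ⌋₊ hlB (by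
    apply Nat.le_floor
    rw [Nat.cast_one]
    exact Real.one_le_rpow (by exact_mod_cast hlB) hθ) (F.image y) (by
    intro w hw
    obtain ⟨x, hx, rfl⟩ := Finset.mem_image.1 hw
    obtain ⟨h1, h2, h3, h4, h5, h6, h7⟩ := hgy x hx
    obtain ⟨-, -, h8, -⟩ := hF x hx
    refine ⟨fun i => hle _ _ _ h1 (h2 i) (hsize B x h8 _).2, hle _ _ _ h1 h3 ?_, h4, h5, h6, h7⟩
    rw [Int.natAbs_neg]
    exact (hsize B x h8 _).2)
  rwa [Finset.card_image_of_injOn hinj] at key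

theorem thin (n : ℕ) (c ε : ℝ) (hc : 0 < c) (hε : 0 < ε) :
    ∃ m₁ : ℕ, ∀ m : ℕ, m₁ ≤ m → ∀ S : Finset ℕ, ∃ E : Set ℤ,
      (∃ C : ℝ, ∀ X : ℕ, 1 ≤ X → {a ∈ E | |a| ≤ (X : ℤ)}.Finite ∧
        ({a ∈ E | |a| ≤ (X : ℤ)}.ncard : ℝ) ≤ C * (X : ℝ) ^ ((1 - c / m) / m)) ∧
      ∀ L : Matrix (Fin (n + 2)) (Fin (n + 1)) ℤ, (∀ i, minor L i ≠ 0) →
      ∀ μ : Fin (n + 2) → ℕ∞, (∀ i, (m : ℕ∞) ≤ μ i) → ∃ C : ℝ, ∀ B : ℕ, 1 ≤ B →
        {x | IsCampana S L μ x ∧ NonDegenerate L x ∧ (∀ j, |x j| ≤ (B : ℤ)) ∧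
          {i | form L i x ∈ E}.Subsingleton}.Finite ∧
        ({x | IsCampana S L μ x ∧ NonDegenerate L x ∧ (∀ j, |x j| ≤ (B : ℤ)) ∧
          {i | form L i x ∈ E}.Subsingleton}.ncard : ℝ) ≤ C * (B : ℝ) ^ (ε / m) := by
  classical
  have hn1 : (0 : ℝ) < (n : ℝ) + 1 := by positivity
  obtain ⟨η, hη⟩ : ∃ η : ℝ, η = ε / (2 * (n + 1)) := ⟨_, rfl⟩
  have hη0 : 0 < η := by rw [hη]; positivity
  obtain ⟨k, hk⟩ := exists_nat_gt (c / η)
  rw [div_lt_iff₀ hη0] at hk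
  obtain ⟨m1, hm11, hmain⟩ := main_ts n k (ε / 2) (by positivity)
  refine ⟨max m1 (⌈c⌉₊ + 1), fun m hm S => ?_⟩
  have hm1 : m1 ≤ m := (le_max_left _ _).trans hm
  have hm0 : 1 ≤ m := hm11.trans hm1
  have hmR : (0 : ℝ) < m := by exact_mod_cast hm0
  have hcm : c < m := by
    have h1 : ⌈c⌉₊ + 1 ≤ m := (le_max_right _ _).trans hm
    have h2 := Nat.le_ceil c
    have h3 : ((⌈c⌉₊ + 1 : ℕ) : ℝ) ≤ m := by exact_mod_cast h1
    push_cast at h3
    linarith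
  have hθ0 : 0 ≤ η / m := by positivity
  refine ⟨Exc S m k (η / m), ?_, ?_⟩
  · obtain ⟨C, -, hC⟩ := exc_count S m k hm0 (η / m) hθ0 ((1 - c / m) / m) (by
      have : c / m < 1 := by rw [div_lt_one hmR]; exact hcm
      apply div_pos _ hmR
      linarith) (by
      rw [← sub_div, div_lt_div_iff_of_pos_right hmR]
      have h1 : c / m < η / m * k := by
        rw [div_mul_eq_mul_div, div_lt_div_iff_of_pos_right hmR]
        linarith
      linarith)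
    exact ⟨C, hC⟩
  · intro L hL μ hμ
    obtain ⟨C1, hC1, hmain'⟩ := hmain m hm1 (badS S L)
    -- the size of the values
    obtain ⟨lam, hlamdef⟩ : ∃ lam : ℕ, lam = (1 + ∑ i, (rel L i).natAbs) *
      (1 + ∑ i, ∑ j, (L i j).natAbs) := ⟨_, rfl⟩
    have hlam1 : 1 ≤ lam := by rw [hlamdef]; exact Nat.mul_pos (by omega) (by omega)
    have hsize : ∀ (B : ℕ) (x : Fin (n + 1) → ℤ), (∀ j, |x j| ≤ (B : ℤ)) → ∀ i,
        (form L i x).natAbs ≤ lam * B ∧ (rel L i * form L i x).natAbs ≤ lam * B := by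
      intro B x hx i
      have h1 : (form L i x).natAbs ≤ (∑ j, (L i j).natAbs) * B := by
        unfold form
        rw [Finset.sum_mul]
        refine (Int.natAbs_sum_le _ _).trans (Finset.sum_le_sum fun j _ => ?_)
        rw [Int.natAbs_mul]
        apply Nat.mul_le_mul_left
        have := hx j
        rw [Int.abs_eq_natAbs] at this
        exact_mod_cast this
      have h2 : ∑ j, (L i j).natAbs ≤ 1 + ∑ i, ∑ j, (L i j).natAbs :=
        (Finset.single_le_sum (f := fun i => ∑ j, (L i j).natAbs) (fun _ _ => Nat.zero_le _)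
          (Finset.mem_univ i)).trans (Nat.le_add_left _ _)
      have h3 : (rel L i).natAbs ≤ 1 + ∑ i, (rel L i).natAbs :=
        (Finset.single_le_sum (f := fun i => (rel L i).natAbs) (fun _ _ => Nat.zero_le _)
          (Finset.mem_univ i)).trans (Nat.le_add_left _ _)
      have h4 : (form L i x).natAbs ≤ (1 + ∑ i, ∑ j, (L i j).natAbs) * B :=
        h1.trans (Nat.mul_le_mul_right _ h2)
      constructor
      · refine h4.trans (Nat.mul_le_mul_right _ ?_)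
        rw [hlamdef]
        exact Nat.le_mul_of_pos_left _ (by omega)
      · rw [Int.natAbs_mul, hlamdef, mul_assoc]
        exact Nat.mul_le_mul h3 h4
    refine ⟨(n + 2) * (C1 * (lam : ℝ) ^ (ε / m)), fun B hB => ?_⟩
    obtain ⟨F, hF⟩ : ∃ F : Finset (Fin (n + 1) → ℤ), F =
        (Fintype.piFinset (fun _ => Finset.Icc (-(B : ℤ)) (B : ℤ))).filter
          (fun x => IsCampana S L μ x ∧ NonDegenerate L x ∧ (∀ j, |x j| ≤ (B : ℤ)) ∧
            {i | form L i x ∈ Exc S m k (η / m)}.Subsingleton) := ⟨_, rfl⟩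
    have hset : {x | IsCampana S L μ x ∧ NonDegenerate L x ∧ (∀ j, |x j| ≤ (B : ℤ)) ∧
        {i | form L i x ∈ Exc S m k (η / m)}.Subsingleton} = (F : Set (Fin (n + 1) → ℤ)) := by
      ext x
      rw [Finset.mem_coe, hF, Finset.mem_filter, Fintype.mem_piFinset]
      constructor
      · intro hx
        exact ⟨fun j => Finset.mem_Icc.2 (abs_le.mp (hx.2.2.1 j)), hx⟩
      · exact fun hx => hx.2
    rw [hset]
    refine ⟨F.finite_toSet, ?_⟩
    rw [Set.ncard_coe_finset]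
    have hcov : F ⊆ Finset.univ.biUnion (fun i0 : Fin (n + 2) =>
        F.filter (fun x => ∀ i, i ≠ i0 → form L i x ∉ Exc S m k (η / m))) := by
      intro x hx
      have hx' := hx
      rw [hF, Finset.mem_filter] at hx'
      have hsub := hx'.2.2.2.2
      rw [Finset.mem_biUnion]
      by_cases h : ∃ i0, form L i0 x ∈ Exc S m k (η / m)
      · obtain ⟨i0, hi0⟩ := h
        exact ⟨i0, Finset.mem_univ _, Finset.mem_filter.2 ⟨hx, fun i hi hE => hi (hsub hE hi0)⟩⟩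
      · push Not at h
        exact ⟨0, Finset.mem_univ _, Finset.mem_filter.2 ⟨hx, fun i _ => h i⟩⟩
    have hlB : (1 : ℝ) ≤ ((lam * B : ℕ) : ℝ) := by
      exact_mod_cast Nat.mul_pos (by omega : 0 < lam) hB
    have hone : ∀ i0 : Fin (n + 2),
        ((F.filter (fun x => ∀ i, i ≠ i0 → form L i x ∉ Exc S m k (η / m))).card : ℝ) ≤
          C1 * (lam : ℝ) ^ (ε / m) * (B : ℝ) ^ (ε / m) := by
      intro i0
      have h1 := one_index n k m (ε / 2) S L hL μ hμ (η / m) hθ0 C1 hmain' lam hlam1 hsize B hB i0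
        (F.filter (fun x => ∀ i, i ≠ i0 → form L i x ∉ Exc S m k (η / m))) (by
          intro x hx
          rw [Finset.mem_filter, hF, Finset.mem_filter] at hx
          exact ⟨hx.1.2.1, hx.1.2.2.1, hx.1.2.2.2.1, hx.2⟩)
      refine h1.trans ?_
      have h2 : (⌊((lam * B : ℕ) : ℝ) ^ (η / m)⌋₊ : ℝ) ^ (n + 1) ≤
          ((lam * B : ℕ) : ℝ) ^ (ε / 2 / m) := by
        calc (⌊((lam * B : ℕ) : ℝ) ^ (η / m)⌋₊ : ℝ) ^ (n + 1) ≤
            (((lam * B : ℕ) : ℝ) ^ (η / m)) ^ (n + 1) :=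
              pow_le_pow_left₀ (Nat.cast_nonneg _) (Nat.floor_le (by positivity)) _
          _ = ((lam * B : ℕ) : ℝ) ^ (ε / 2 / m) := by
              rw [← Real.rpow_natCast, ← Real.rpow_mul (by positivity)]
              congr 1
              rw [hη]
              push_cast
              field_simp
      calc C1 * (⌊((lam * B : ℕ) : ℝ) ^ (η / m)⌋₊ : ℝ) ^ (n + 1) *
            ((lam * B : ℕ) : ℝ) ^ (ε / 2 / m)
          ≤ C1 * ((lam * B : ℕ) : ℝ) ^ (ε / 2 / m) * ((lam * B : ℕ) : ℝ) ^ (ε / 2 / m) := by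
            refine mul_le_mul_of_nonneg_right ?_ (by positivity)
            exact mul_le_mul_of_nonneg_left h2 hC1
        _ = C1 * ((lam * B : ℕ) : ℝ) ^ (ε / m) := by
            rw [mul_assoc, ← Real.rpow_add (by linarith)]
            congr 2
            ring
        _ = C1 * (lam : ℝ) ^ (ε / m) * (B : ℝ) ^ (ε / m) := by
            rw [Nat.cast_mul, Real.mul_rpow (Nat.cast_nonneg _) (Nat.cast_nonneg _), mul_assoc]
    calc (F.card : ℝ) ≤ ((∑ i0 : Fin (n + 2),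
          (F.filter (fun x => ∀ i, i ≠ i0 → form L i x ∉ Exc S m k (η / m))).card : ℕ) : ℝ) := by
          exact_mod_cast (Finset.card_le_card hcov).trans Finset.card_biUnion_le
      _ ≤ ∑ _i0 : Fin (n + 2), C1 * (lam : ℝ) ^ (ε / m) * (B : ℝ) ^ (ε / m) := by
          rw [Nat.cast_sum]
          exact Finset.sum_le_sum fun i0 _ => hone i0
      _ = (n + 2) * (C1 * (lam : ℝ) ^ (ε / m)) * (B : ℝ) ^ (ε / m) := by
          rw [Finset.sum_const, Finset.card_univ, Fintype.card_fin, nsmul_eq_mul]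
          push_cast
          ring

end Pool.Agent.Helper93.TS
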