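import Pool.Agent.Helper87.Camp.Sum
import Pool.Agent.Helper93.TS.Zero

/-!
TS-25 QStar (project TS, MP_464c42_nt). One coordinate prime to a large divisor of the modulus.

Proof. Let `X ^ δ' ≤ card M(T ν)` for almost all `ν`. For `ν` in a set of the ultrafilter and `z ∈ T ν` choose for every prime `p ∣ q ν` an index `i(p)` with `¬ p ∣ y ν z (i(p))` and put
`d_i(z) = ∏ {p ∣ q : i(p) = i} p`. Then `∏_i d_i(z) = ∏ {p ∣ q} p = q ν` (`Finset.prod_fiberwise`, `Nat.prod_primeFactors_of_squarefree`), so some `i(z)` has `d_i(z) ≥ X ^ (δ / (n + 1))` (otherwise the product of the `n + 1` factors is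
`< X ^ δ`). `d(z) = d_{i(z)}(z)` divides `q ν`. The number of pairs `(i(z), d(z))` is at most `(n + 1) * tau (q ν) ≤ (n + 1) C X ^ (δ' / 4)` (`tau_rpow (δ' / 4)`, `q ν ≤ X`), so at most `X ^ (δ' / 2)` for almost all `ν`.
Pigeonhole: a pair `(i ν, q' ν)` whose points have at least `X ^ (δ' / 2)` values of `M ν`. `i ν` has values in the finite set `Fin (n + 1)`, so it is constant `= i1` almost everywhere (ultrafilter). Put `q' ν = 1` at the exceptional `ν`.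
-/

set_option autoImplicit false

open MvPolynomial

namespace Pool.Agent.Helper93.TS

open Pool.Agent.Helper91.CPX Pool.Agent.Helper85.VA

open Classical in
private theorem one_point {X q n : ℕ} (hX : 2 ≤ X) (hq : Squarefree q) {δ : ℝ} (hδ : 0 < δ)
    (hqX : (X : ℝ) ^ δ ≤ (q : ℝ)) (y : Fin (n + 1) → ℤ)
    (hy : ∀ p ∈ q.primeFactors, ∃ i, ¬ (p : ℤ) ∣ y i) :
    ∃ (i : Fin (n + 1)) (d : ℕ), d ∣ q ∧ (X : ℝ) ^ (δ / (n + 1)) ≤ (d : ℝ) ∧
      ∀ p ∈ d.primeFactors, ¬ (p : ℤ) ∣ y i := by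
  have hch : ∀ p : ℕ, ∃ i : Fin (n + 1), p ∈ q.primeFactors → ¬ (p : ℤ) ∣ y i := by
    intro p
    by_cases hp : p ∈ q.primeFactors
    · obtain ⟨i, hi⟩ := hy p hp
      exact ⟨i, fun _ => hi⟩
    · exact ⟨0, fun h => absurd h hp⟩
  choose c hc using hch
  have hprod : ∏ i : Fin (n + 1), ∏ p ∈ q.primeFactors.filter (fun p => c p = i), p = q := by
    rw [Finset.prod_fiberwise]
    exact Nat.prod_primeFactors_of_squarefree hq
  have hX1 : (1 : ℝ) < (X : ℝ) := by exact_mod_cast (by omega : 1 < X)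
  have hX0 : (0 : ℝ) < (X : ℝ) := by linarith
  have hex : ∃ i : Fin (n + 1), (X : ℝ) ^ (δ / (n + 1)) ≤
      ((∏ p ∈ q.primeFactors.filter (fun p => c p = i), p : ℕ) : ℝ) := by
    by_contra hcon
    push Not at hcon
    have h1 : (q : ℝ) < (X : ℝ) ^ δ := by
      have h2 : (q : ℝ) = ∏ i : Fin (n + 1),
          ((∏ p ∈ q.primeFactors.filter (fun p => c p = i), p : ℕ) : ℝ) := by
        rw [← Nat.cast_prod, hprod]
      rw [h2]
      have h3 : ∏ i : Fin (n + 1),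
          ((∏ p ∈ q.primeFactors.filter (fun p => c p = i), p : ℕ) : ℝ) <
          ∏ _i : Fin (n + 1), (X : ℝ) ^ (δ / (n + 1)) := by
        refine Finset.prod_lt_prod_of_nonempty (fun i _ => ?_) (fun i _ => hcon i)
          Finset.univ_nonempty
        have : 0 < ∏ p ∈ q.primeFactors.filter (fun p => c p = i), p := by
          refine Finset.prod_pos fun p hp => ?_
          rw [Finset.mem_filter] at hp
          exact (Nat.prime_of_mem_primeFactors hp.1).pos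
        exact_mod_cast this
      refine lt_of_lt_of_le h3 (le_of_eq ?_)
      rw [Finset.prod_const, Finset.card_univ, Fintype.card_fin, ← Real.rpow_natCast,
        ← Real.rpow_mul hX0.le]
      congr 1
      push_cast
      field_simp
    linarith
  obtain ⟨i, hi⟩ := hex
  have hpr : ∀ p ∈ q.primeFactors.filter (fun p => c p = i), p.Prime := fun p hp =>
    Nat.prime_of_mem_primeFactors (Finset.mem_filter.1 hp).1
  refine ⟨i, ∏ p ∈ q.primeFactors.filter (fun p => c p = i), p, ?_, hi, ?_⟩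
  · exact Finset.prod_primes_dvd _ (fun p hp => (hpr p hp).prime)
      (fun p hp => Nat.dvd_of_mem_primeFactors (Finset.mem_filter.1 hp).1)
  · intro p hp
    rw [Nat.primeFactors_prod hpr, Finset.mem_filter] at hp
    have h1 := hc p hp.1
    rw [hp.2] at h1
    exact h1

open Classical in
private theorem pigeon_q {ι : Type} [DecidableEq ι] [Fintype ι] {X q n : ℕ} (hX : 2 ≤ X)
    (hq : Squarefree q) {δ : ℝ} (hδ : 0 < δ) (hqX : (X : ℝ) ^ δ ≤ (q : ℝ)) (T : Finset (ι → ℤ))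
    (M : (ι → ℤ) → ℤ) (y : (ι → ℤ) → Fin (n + 1) → ℤ)
    (hy : ∀ z ∈ T, ∀ p ∈ q.primeFactors, ∃ i, ¬ (p : ℤ) ∣ y z i) :
    ∃ (i : Fin (n + 1)) (d : ℕ), d ∣ q ∧ (X : ℝ) ^ (δ / (n + 1)) ≤ (d : ℝ) ∧
      (T.image M).card ≤ (n + 1) * q.divisors.card *
        ((T.filter (fun z => ∀ p ∈ d.primeFactors, ¬ (p : ℤ) ∣ y z i)).image M).card := by
  have hX1 : (1 : ℝ) < (X : ℝ) := by exact_mod_cast (by omega : 1 < X)
  set P : Finset (Fin (n + 1) × ℕ) := Finset.univ ×ˢ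
    (q.divisors.filter (fun d : ℕ => (X : ℝ) ^ (δ / (n + 1)) ≤ (d : ℝ))) with hP
  have hPne : P.Nonempty := by
    refine ⟨(0, q), ?_⟩
    rw [hP, Finset.mem_product, Finset.mem_filter]
    refine ⟨Finset.mem_univ _, Nat.mem_divisors_self q hq.ne_zero, le_trans ?_ hqX⟩
    refine Real.rpow_le_rpow_of_exponent_le hX1.le ?_
    refine div_le_self hδ.le ?_
    have : (0 : ℝ) ≤ (n : ℝ) := Nat.cast_nonneg n
    linarith
  obtain ⟨⟨i, d⟩, hid, hmax⟩ := Finset.exists_max_image P (fun a : Fin (n + 1) × ℕ =>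
    ((T.filter (fun z => ∀ p ∈ a.2.primeFactors, ¬ (p : ℤ) ∣ y z a.1)).image M).card) hPne
  have hid' := hid
  rw [hP, Finset.mem_product, Finset.mem_filter] at hid'
  refine ⟨i, d, Nat.dvd_of_mem_divisors hid'.2.1, hid'.2.2, ?_⟩
  have hsub : T.image M ⊆ P.biUnion (fun a =>
      (T.filter (fun z => ∀ p ∈ a.2.primeFactors, ¬ (p : ℤ) ∣ y z a.1)).image M) := by
    intro v hv
    obtain ⟨z, hz, rfl⟩ := Finset.mem_image.1 hv
    obtain ⟨j, e, he1, he2, he3⟩ := one_point hX hq hδ hqX (y z) (hy z hz)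
    rw [Finset.mem_biUnion]
    refine ⟨(j, e), ?_, ?_⟩
    · rw [hP, Finset.mem_product, Finset.mem_filter]
      exact ⟨Finset.mem_univ _, Nat.mem_divisors.2 ⟨he1, hq.ne_zero⟩, he2⟩
    · rw [Finset.mem_image]
      exact ⟨z, Finset.mem_filter.2 ⟨hz, he3⟩, rfl⟩
  calc (T.image M).card ≤ _ := Finset.card_le_card hsub
    _ ≤ ∑ a ∈ P, ((T.filter (fun z => ∀ p ∈ a.2.primeFactors,
          ¬ (p : ℤ) ∣ y z a.1)).image M).card := Finset.card_biUnion_le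
    _ ≤ P.card • ((T.filter (fun z => ∀ p ∈ d.primeFactors,
          ¬ (p : ℤ) ∣ y z i)).image M).card := Finset.sum_le_card_nsmul _ _ _ hmax
    _ ≤ _ := by
      rw [smul_eq_mul]
      refine Nat.mul_le_mul_right _ ?_
      rw [hP, Finset.card_product, Finset.card_univ, Fintype.card_fin]
      exact Nat.mul_le_mul_left _ (Finset.card_filter_le _ _)

theorem exists_qstar (F : Frame) {ι : Type} [Fintype ι] [DecidableEq ι] {n : ℕ}
    (M : ℕ → (ι → ℤ) → ℤ) (T : ℕ → Finset (ι → ℤ)) (hL : Large F M T) (q : ℕ → ℕ)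
    (hq : Moduli F q) (δ : ℝ) (hδ : 0 < δ)
    (hqX : ∀ᶠ ν in (F.U : Filter ℕ), (F.X ν : ℝ) ^ δ ≤ (q ν : ℝ))
    (y : ℕ → (ι → ℤ) → Fin (n + 1) → ℤ)
    (hy : ∀ᶠ ν in (F.U : Filter ℕ), ∀ z ∈ T ν, ∀ p ∈ (q ν).primeFactors,
      ∃ i, ¬ (p : ℤ) ∣ y ν z i) :
    ∃ (i1 : Fin (n + 1)) (q' : ℕ → ℕ),
      (∀ᶠ ν in (F.U : Filter ℕ), q' ν ∣ q ν ∧ (F.X ν : ℝ) ^ (δ / (n + 1)) ≤ (q' ν : ℝ)) ∧
      Large F M (fun ν => (T ν).filter (fun z =>
        ∀ p ∈ (q' ν).primeFactors, ¬ (p : ℤ) ∣ y ν z i1)) := by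
  classical
  -- the choice at every `ν`
  have hch : ∀ ν : ℕ, ∃ (i : Fin (n + 1)) (d : ℕ),
      (Squarefree (q ν) → (F.X ν : ℝ) ^ δ ≤ (q ν : ℝ) →
        (∀ z ∈ T ν, ∀ p ∈ (q ν).primeFactors, ∃ i, ¬ (p : ℤ) ∣ y ν z i) →
        d ∣ q ν ∧ (F.X ν : ℝ) ^ (δ / (n + 1)) ≤ (d : ℝ) ∧
        ((T ν).image (M ν)).card ≤ (n + 1) * (q ν).divisors.card *
          (((T ν).filter (fun z => ∀ p ∈ d.primeFactors,
            ¬ (p : ℤ) ∣ y ν z i)).image (M ν)).card) := by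
    intro ν
    by_cases h : Squarefree (q ν) ∧ (F.X ν : ℝ) ^ δ ≤ (q ν : ℝ) ∧
        (∀ z ∈ T ν, ∀ p ∈ (q ν).primeFactors, ∃ i, ¬ (p : ℤ) ∣ y ν z i)
    · obtain ⟨i, d, h1, h2, h3⟩ := pigeon_q (F.two_le ν) h.1 hδ h.2.1 (T ν) (M ν) (y ν) h.2.2
      exact ⟨i, d, fun _ _ _ => ⟨h1, h2, h3⟩⟩
    · exact ⟨0, 1, fun h1 h2 h3 => absurd ⟨h1, h2, h3⟩ h⟩
  choose ii dd hid using hch
  -- the index is constant
  obtain ⟨i1, hi1⟩ : ∃ i1 : Fin (n + 1), ∀ᶠ ν in (F.U : Filter ℕ), ii ν = i1 := by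
    obtain ⟨a, ha⟩ := Ultrafilter.eq_pure_of_finite (F.U.map ii)
    refine ⟨a, ?_⟩
    have h1 : ({a} : Set (Fin (n + 1))) ∈ F.U.map ii := by
      rw [ha]
      exact Set.mem_singleton a
    exact h1
  refine ⟨i1, dd, ?_, ?_⟩
  · filter_upwards [hq.1, hqX, hy] with ν h1 h2 h3
    exact ⟨(hid ν h1.1 h2 h3).1, (hid ν h1.1 h2 h3).2.1⟩
  · obtain ⟨δ', hδ', hL⟩ := hL
    obtain ⟨C, hC1, hC⟩ := Pool.Agent.Helper87.Camp.tau_rpow (δ' / 4) (by positivity)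
    refine ⟨δ' / 2, by positivity, ?_⟩
    -- a power of `X` beats the constant
    obtain ⟨N, hN⟩ := exists_nat_gt ((((n : ℝ) + 1) * C) ^ (4 / δ'))
    filter_upwards [hq.1, hqX, hy, hL, hi1, F.tends N] with ν h1 h2 h3 h4 h5 h6
    obtain ⟨-, -, h7⟩ := hid ν h1.1 h2 h3
    rw [h5] at h7
    have hX1 : (1 : ℝ) < (F.X ν : ℝ) := by
      have := F.two_le ν
      exact_mod_cast (by omega : 1 < F.X ν)
    have hX0 : (0 : ℝ) < (F.X ν : ℝ) := by linarith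
    have hn0 : (0 : ℝ) ≤ (n : ℝ) := Nat.cast_nonneg n
    have hC0 : (0 : ℝ) < C := by linarith
    have h8 : (((n : ℝ) + 1) * C) ≤ (F.X ν : ℝ) ^ (δ' / 4) := by
      have h9 : (((n : ℝ) + 1) * C) ^ (4 / δ') ≤ (F.X ν : ℝ) := by
        have : (N : ℝ) ≤ (F.X ν : ℝ) := by exact_mod_cast h6
        linarith
      have h10 := Real.rpow_le_rpow (by positivity) h9 (by positivity : 0 ≤ δ' / 4)
      rw [← Real.rpow_mul (by positivity)] at h10
      have h11 : 4 / δ' * (δ' / 4) = 1 := by field_simp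
      rw [h11, Real.rpow_one] at h10
      exact h10
    have h12 : (((q ν).divisors.card : ℕ) : ℝ) ≤ C * (F.X ν : ℝ) ^ (δ' / 4) := by
      refine le_trans (hC (q ν) h1.1.ne_zero) ?_
      refine mul_le_mul_of_nonneg_left ?_ hC0.le
      refine Real.rpow_le_rpow (Nat.cast_nonneg _) ?_ (by positivity)
      exact_mod_cast h1.2
    set c' : ℕ := (((T ν).filter (fun z => ∀ p ∈ (dd ν).primeFactors,
            ¬ (p : ℤ) ∣ y ν z i1)).image (M ν)).card with hc'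
    have h13 : (F.X ν : ℝ) ^ δ' ≤ ((n : ℝ) + 1) * (C * (F.X ν : ℝ) ^ (δ' / 4)) * (c' : ℝ) := by
      refine le_trans h4 ?_
      have h14 : (((T ν).image (M ν)).card : ℝ) ≤
          ((n : ℝ) + 1) * (((q ν).divisors.card : ℕ) : ℝ) * (c' : ℝ) := by
        exact_mod_cast h7
      refine le_trans h14 ?_
      refine mul_le_mul_of_nonneg_right ?_ (Nat.cast_nonneg _)
      exact mul_le_mul_of_nonneg_left h12 (by linarith)
    have h15 : ((n : ℝ) + 1) * (C * (F.X ν : ℝ) ^ (δ' / 4)) * (c' : ℝ) ≤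
        (F.X ν : ℝ) ^ (δ' / 4) * (F.X ν : ℝ) ^ (δ' / 4) * (c' : ℝ) := by
      refine mul_le_mul_of_nonneg_right ?_ (Nat.cast_nonneg _)
      rw [← mul_assoc]
      exact mul_le_mul_of_nonneg_right h8 (by positivity)
    have h16 : (F.X ν : ℝ) ^ (δ' / 4) * (F.X ν : ℝ) ^ (δ' / 4) = (F.X ν : ℝ) ^ (δ' / 2) := by
      rw [← Real.rpow_add hX0]
      congr 1
      ring
    have h17 : (F.X ν : ℝ) ^ δ' = (F.X ν : ℝ) ^ (δ' / 2) * (F.X ν : ℝ) ^ (δ' / 2) := by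
      rw [← Real.rpow_add hX0]
      congr 1
      ring
    rw [h16] at h15
    have h18 := h13.trans h15
    rw [h17] at h18
    exact le_of_mul_le_mul_left h18 (by positivity)

end Pool.Agent.Helper93.TS
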