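import Pool.Agent.Helper85.VA.RatioConst
import Pool.Agent.Helper93.TS.Zero

/-!
TS-15 RatioRel (project TS, MP_464c42_nt). The quotient of two related coordinates is constant up to moderate factors.

`ei eZ i`: the exponents of `∏_j z_ij ^ e_ij`.

Proof. `hrel`: `h ≠ 0` with `δ h = (𝒮.om (ei eZ i') δ - 𝒮.om (ei eZ i) δ) h` for all `δ`. Write `h = 𝒮.cls P / 𝒮.cls Q` (`𝒮.exists_frac`: `𝒮.cls Q * h = 𝒮.cls P`; both nonzero). Apply `constancy` with the index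
type `Option (Fin (n + 1) × Fin k)`: `none`: `P, Q, κ = 1`; `some v`: `P = X v`, `Q = 1`, `κ_v = ei eZ i v - ei eZ i' v` (the end of `ratio_const` in `Helper85/VA/RatioConst.lean` is the model; here
the identity for the derivations is immediate: `δ h / h + ∑_v κ_v δ z_v / z_v = 0`, `Setup.om`). It gives `D > 0`, `Sm` and, for good `z, z0`: `P, Q` nonzero at both and
`(P(z)/Q(z)) ^ D ∏_v z_v ^ (D κ_v(ν)) = (P(z0)/Q(z0)) ^ D ∏_v z0_v ^ (D κ_v(ν))` in `ℚ`, and `∏_v z_v ^ (D κ_v(ν)) = (mono_i(z) / mono_i'(z)) ^ D`, `mono_i(z) = ∏_j z_ij ^ (ez ν (i, j)) > 0`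
(`evAt`, `heZ`; if `i = i'` both sides are `1`). Take absolute values and `D`-th roots (`pow_left_injective` for nonnegative rationals, `D ≠ 0`):
`|P(z)| |Q(z0)| mono_i(z) mono_i'(z0) = |P(z0)| |Q(z)| mono_i(z0) mono_i'(z)`. So `B = |P(z) Q(z0)|`, `A = |P(z0) Q(z)|` (`Int.natAbs`), between `1` and `X ^ (CP + CQ)` (`poly_bound`).
-/

set_option autoImplicit false

open MvPolynomial

namespace Pool.Agent.Helper93.TS

open Pool.Agent.Helper91.CPX Pool.Agent.Helper85.VA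

/-- The exponents of the `i`-th coordinate. -/
noncomputable def ei {n k : ℕ} {F : Frame} (eZ : Fin (n + 1) × Fin k → Zb F) (i : Fin (n + 1)) :
    Fin (n + 1) × Fin k → Zb F := fun v => if v.1 = i then eZ v else 0

private theorem ratio_prod {n k : ℕ} (i i' : Fin (n + 1)) (z : Fin (n + 1) × Fin k → ℤ)
    (e : Fin (n + 1) × Fin k → ℕ) (D : ℕ) (hz : ∀ v, z v ≠ 0) :
    ∏ v : Fin (n + 1) × Fin k, ((z v : ℚ)) ^ ((D : ℤ) *
      ((if v.1 = i then (e v : ℤ) else 0) - (if v.1 = i' then (e v : ℤ) else 0))) =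
    ((((∏ j, z (i, j) ^ e (i, j) : ℤ) : ℚ)) / (((∏ j, z (i', j) ^ e (i', j) : ℤ) : ℚ))) ^ D := by
  have hz' : ∀ v, (z v : ℚ) ≠ 0 := fun v => by exact_mod_cast hz v
  have h1 : ∀ v : Fin (n + 1) × Fin k, ((z v : ℚ)) ^ ((D : ℤ) *
      ((if v.1 = i then (e v : ℤ) else 0) - (if v.1 = i' then (e v : ℤ) else 0))) =
      (if v.1 = i then ((z v : ℚ) ^ e v) ^ D else 1) *
        (if v.1 = i' then (((z v : ℚ) ^ e v) ^ D)⁻¹ else 1) := by
    intro v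
    have h2 : (z v : ℚ) ^ ((D : ℤ) * (e v : ℤ)) = ((z v : ℚ) ^ e v) ^ D := by
      rw [← pow_mul, ← zpow_natCast]
      congr 1
      push_cast
      ring
    rw [mul_sub, zpow_sub₀ (hz' v), div_eq_mul_inv]
    congr 1
    · split_ifs
      · exact h2
      · rw [mul_zero, zpow_zero]
    · split_ifs
      · rw [h2]
      · rw [mul_zero, zpow_zero, inv_one]
  have h3 : ∀ (a : Fin (n + 1)) (f : Fin (n + 1) × Fin k → ℚ),
      ∏ v : Fin (n + 1) × Fin k, (if v.1 = a then f v else 1) = ∏ j, f (a, j) := by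
    intro a f
    rw [Fintype.prod_prod_type]
    rw [Finset.prod_eq_single a]
    · exact Finset.prod_congr rfl fun j _ => if_pos rfl
    · intro b _ hb
      exact Finset.prod_eq_one fun j _ => if_neg hb
    · intro h
      exact absurd (Finset.mem_univ a) h
  rw [Finset.prod_congr rfl fun v _ => h1 v, Finset.prod_mul_distrib, h3, h3,
    Finset.prod_inv_distrib, Finset.prod_pow, Finset.prod_pow, div_pow, div_eq_mul_inv]
  push_cast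
  rfl

private theorem ratio_root (D : ℕ) (hD : 0 < D) (P Q P0 Q0 m m' n n' : ℤ) (hQ : Q ≠ 0)
    (hQ0 : Q0 ≠ 0) (hm : 0 < m) (hm' : 0 < m') (hn : 0 < n) (hn' : 0 < n')
    (h : ((P : ℚ) / (Q : ℚ)) ^ D * ((m : ℚ) / (m' : ℚ)) ^ D =
      ((P0 : ℚ) / (Q0 : ℚ)) ^ D * ((n : ℚ) / (n' : ℚ)) ^ D) :
    m * n' * (((P * Q0).natAbs : ℕ) : ℤ) = m' * n * (((P0 * Q).natAbs : ℕ) : ℤ) := by
  have hmq : (0 : ℚ) < m := by exact_mod_cast hm
  have hmq' : (0 : ℚ) < m' := by exact_mod_cast hm'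
  have hnq : (0 : ℚ) < n := by exact_mod_cast hn
  have hnq' : (0 : ℚ) < n' := by exact_mod_cast hn'
  have hQq : (0 : ℚ) < |(Q : ℚ)| := abs_pos.mpr (by exact_mod_cast hQ)
  have hQq0 : (0 : ℚ) < |(Q0 : ℚ)| := abs_pos.mpr (by exact_mod_cast hQ0)
  rw [← mul_pow, ← mul_pow] at h
  have h1 := congrArg abs h
  rw [abs_pow, abs_pow] at h1
  have h2 : |(P : ℚ) / Q * ((m : ℚ) / m')| = |(P0 : ℚ) / Q0 * ((n : ℚ) / n')| :=
    (pow_left_inj₀ (abs_nonneg _) (abs_nonneg _) hD.ne').mp h1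
  rw [abs_mul, abs_mul, abs_div, abs_div, abs_div, abs_div, abs_of_pos hmq, abs_of_pos hmq',
    abs_of_pos hnq, abs_of_pos hnq'] at h2
  have h3 : (m : ℚ) * n' * (|(P : ℚ)| * |(Q0 : ℚ)|) = m' * n * (|(P0 : ℚ)| * |(Q : ℚ)|) := by
    field_simp at h2
    linarith
  have h4 : (((P * Q0).natAbs : ℕ) : ℤ) = |P| * |Q0| := by
    rw [← abs_mul, Int.abs_eq_natAbs]
  have h5 : (((P0 * Q).natAbs : ℕ) : ℤ) = |P0| * |Q| := by
    rw [← abs_mul, Int.abs_eq_natAbs]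
  rw [h4, h5]
  have h6 : (((m * n' * (|P| * |Q0|) : ℤ)) : ℚ) = ((m' * n * (|P0| * |Q|) : ℤ) : ℚ) := by
    push_cast
    exact h3
  exact_mod_cast h6

theorem ratio_rel {n k : ℕ} (𝒮 : Setup (Fin (n + 1) × Fin k))
    (ez : ℕ → Fin (n + 1) × Fin k → ℕ) (eZ : Fin (n + 1) × Fin k → Zb 𝒮.F)
    (heZ : ∀ ν v, evAt 𝒮.F ν (eZ v) = (ez ν v : ℤ)) (i i' : Fin (n + 1))
    (hrel : Rel (fun i : Fin (n + 1) => 𝒮.om (ei eZ i)) i i') :
    ∃ (C : ℕ) (Sm : ℕ → (Fin (n + 1) × Fin k → ℤ) → Prop), 𝒮.Small Sm ∧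
      ∀ᶠ ν in (𝒮.F.U : Filter ℕ), ∀ z ∈ 𝒮.T ν, ∀ z0 ∈ 𝒮.T ν, ¬ Sm ν z → ¬ Sm ν z0 →
        ∃ A B : ℕ, 1 ≤ A ∧ A ≤ 𝒮.F.X ν ^ C ∧ 1 ≤ B ∧ B ≤ 𝒮.F.X ν ^ C ∧
          (∏ j, z (i, j) ^ ez ν (i, j)) * (∏ j, z0 (i', j) ^ ez ν (i', j)) * (B : ℤ) =
            (∏ j, z (i', j) ^ ez ν (i', j)) * (∏ j, z0 (i, j) ^ ez ν (i, j)) * (A : ℤ) := by
  classical
  obtain ⟨h, hh0, hhd⟩ := hrel
  have hld : ∀ δ : 𝒮.Der, δ h / h + ∑ v : Fin (n + 1) × Fin k,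
      (algebraMap (K0 𝒮.F) 𝒮.L (toK 𝒮.F (ei eZ i v)) -
        algebraMap (K0 𝒮.F) 𝒮.L (toK 𝒮.F (ei eZ i' v))) *
      (δ (𝒮.cls (X v)) / 𝒮.cls (X v)) = 0 := by
    intro δ
    have h1 : δ h / h = 𝒮.om (ei eZ i') δ - 𝒮.om (ei eZ i) δ := by
      rw [hhd δ, mul_div_assoc, div_self hh0, mul_one]
    rw [h1]
    unfold Setup.om
    rw [← Finset.sum_sub_distrib, ← Finset.sum_add_distrib]
    refine Finset.sum_eq_zero fun v _ => ?_
    ring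
  obtain ⟨P, Q, hQ0, hPQ⟩ := 𝒮.exists_frac h
  have hP0 : 𝒮.cls P ≠ 0 := by
    rw [← hPQ]
    exact mul_ne_zero hQ0 hh0
  have hHf : 𝒮.cls P / 𝒮.cls Q = h := by
    rw [← hPQ]
    field_simp
  obtain ⟨D, hD, Sm, hSm, hcon⟩ := constancy 𝒮 (s := Option (Fin (n + 1) × Fin k))
    (fun r => r.elim P X) (fun r => r.elim Q (fun _ => 1))
    (by
      intro r
      cases r with
      | none => exact hP0
      | some v => exact 𝒮.cls_X_ne v)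
    (by
      intro r
      cases r with
      | none => exact hQ0
      | some v =>
        change 𝒮.cls 1 ≠ 0
        rw [map_one]
        exact one_ne_zero)
    (fun r => r.elim 1 (fun v => ei eZ i v - ei eZ i' v))
    (by
      intro δ
      rw [Fintype.sum_option]
      simp only [Option.elim]
      rw [hHf, map_one, map_one, one_mul]
      rw [← hld δ]
      congr 1
      refine Finset.sum_congr rfl fun v _ => ?_
      rw [map_one, div_one, RingHom.map_sub, RingHom.map_sub])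
  obtain ⟨CP, hCP⟩ := poly_bound 𝒮.F 𝒮.T 𝒮.bdd P
  obtain ⟨CQ, hCQ⟩ := poly_bound 𝒮.F 𝒮.T 𝒮.bdd Q
  refine ⟨CP + CQ, Sm, hSm, ?_⟩
  filter_upwards [hcon, hCP, hCQ] with ν hν hCP hCQ z hz z0 hz0 hs hs0
  obtain ⟨hne, heq⟩ := hν z hz z0 hz0 hs hs0
  obtain ⟨hne0, -⟩ := hν z0 hz0 z hz hs0 hs
  have hP1 : 𝒮.ev ν z P ≠ 0 := (hne none).1
  have hQ1 : 𝒮.ev ν z Q ≠ 0 := (hne none).2
  have hP2 : 𝒮.ev ν z0 P ≠ 0 := (hne0 none).1
  have hQ2 : 𝒮.ev ν z0 Q ≠ 0 := (hne0 none).2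
  have hzpos : ∀ v, 0 < z v := fun v => by
    have := (𝒮.bdd ν z hz v).1
    omega
  have hz0pos : ∀ v, 0 < z0 v := fun v => by
    have := (𝒮.bdd ν z0 hz0 v).1
    omega
  rw [Fintype.prod_option, Fintype.prod_option] at heq
  simp only [Option.elim, 𝒮.ev_X, map_one, Int.cast_one, div_one] at heq
  have hκ : ∀ v : Fin (n + 1) × Fin k, ((ei eZ i v - ei eZ i' v : Zb 𝒮.F) : ℕ → ℤ) ν =
      ((if v.1 = i then (ez ν v : ℤ) else 0) - (if v.1 = i' then (ez ν v : ℤ) else 0)) := by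
    intro v
    unfold ei
    rw [← evAt_apply 𝒮.F, map_sub]
    congr 1
    · split_ifs
      · exact heZ ν v
      · exact map_zero _
    · split_ifs
      · exact heZ ν v
      · exact map_zero _
  have h1 : (((1 : Zb 𝒮.F) : ℕ → ℤ) ν) = 1 := rfl
  simp only [hκ] at heq
  rw [h1, ratio_prod i i' z (ez ν) D (fun v => (hzpos v).ne'),
    ratio_prod i i' z0 (ez ν) D (fun v => (hz0pos v).ne'), mul_one, zpow_natCast,
    zpow_natCast] at heq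
  have hfin := ratio_root D hD _ _ _ _ _ _ _ _ hQ1 hQ2
    (Finset.prod_pos fun j _ => pow_pos (hzpos (i, j)) _)
    (Finset.prod_pos fun j _ => pow_pos (hzpos (i', j)) _)
    (Finset.prod_pos fun j _ => pow_pos (hz0pos (i, j)) _)
    (Finset.prod_pos fun j _ => pow_pos (hz0pos (i', j)) _) heq
  have hX1 := 𝒮.F.one_le ν
  have hbd : ∀ p q : ℤ, p ≠ 0 → q ≠ 0 → |p| ≤ (𝒮.F.X ν : ℤ) ^ CP → |q| ≤ (𝒮.F.X ν : ℤ) ^ CQ →
      1 ≤ (p * q).natAbs ∧ (p * q).natAbs ≤ 𝒮.F.X ν ^ (CP + CQ) := by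
    intro p q hp hq hp' hq'
    refine ⟨Int.natAbs_pos.mpr (mul_ne_zero hp hq), ?_⟩
    have h4 : |p * q| ≤ (𝒮.F.X ν : ℤ) ^ (CP + CQ) := by
      rw [abs_mul, pow_add]
      exact mul_le_mul hp' hq' (abs_nonneg _) (by positivity)
    rw [Int.abs_eq_natAbs] at h4
    exact_mod_cast h4
  obtain ⟨hA1, hA2⟩ := hbd _ _ hP2 hQ1 (hCP z0 hz0) (hCQ z hz)
  obtain ⟨hB1, hB2⟩ := hbd _ _ hP1 hQ2 (hCP z hz) (hCQ z0 hz0)
  exact ⟨_, _, hA1, hA2, hB1, hB2, hfin⟩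

end Pool.Agent.Helper93.TS
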