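import Pool.Agent.Helper91.CPX.LargeU

/-!
TS-16 SpanMin (project TS, MP_464c42_nt). A large family all of whose large subfamilies have the same span.

Proof. For a large family `T''` (`T'' ν ⊆ T ν`) the function `ν ↦ Module.finrank ℚ (span (φ ν '' T'' ν))` has values in `{0, .., card β}` (`Submodule.finrank_le`, `Module.finrank_fintype_fun_eq_card`), so it is
almost everywhere equal to a constant `r` (finitely many values, ultrafilter: `Ultrafilter.eventually_exists_iff`-style, or induction with `Ultrafilter.eventually_or`). Let `r` be the minimal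
number for which there is a large `T'` with `T' ν ⊆ T ν` for all `ν` and `finrank = r` almost everywhere (`Nat.find`), and take such a `T'`. Let `T'' ν ⊆ T' ν` be large, of dimension `r''` almost
everywhere: `r ≤ r''` by minimality, and `finrank (span (φ '' T'')) ≤ finrank (span (φ '' T'))` (`Submodule.span_mono`, `Submodule.finrank_mono`), so almost everywhere the dimensions are
equal, hence the spans (`Submodule.eq_of_le_of_finrank_eq`), and `φ ν z` is in the span of `φ ν '' T' ν` for `z ∈ T' ν`.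
-/

set_option autoImplicit false

namespace Pool.Agent.Helper93.TS

open Pool.Agent.Helper91.CPX

private theorem ev_const_spanmin (U : Ultrafilter ℕ) (g : ℕ → ℕ) (B : ℕ) (hg : ∀ ν, g ν ≤ B) :
    ∃ r, ∀ᶠ ν in (U : Filter ℕ), g ν = r := by
  have h : ∀ᶠ ν in (U : Filter ℕ), ∃ r ∈ Set.Iic B, g ν = r :=
    Filter.Eventually.of_forall (fun ν => ⟨g ν, hg ν, rfl⟩)
  rw [Ultrafilter.eventually_exists_mem_iff (Set.finite_Iic B)] at h
  obtain ⟨r, -, hr⟩ := h
  exact ⟨r, hr⟩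

theorem exists_span_min (F : Frame) {ι : Type} [Fintype ι] [DecidableEq ι]
    (M : ℕ → (ι → ℤ) → ℤ) (T : ℕ → Finset (ι → ℤ)) (hL : Large F M T) {β : Type} [Fintype β]
    (φ : ℕ → (ι → ℤ) → β → ℚ) :
    ∃ T' : ℕ → Finset (ι → ℤ), (∀ ν, T' ν ⊆ T ν) ∧ Large F M T' ∧
      ∀ T'' : ℕ → Finset (ι → ℤ), (∀ ν, T'' ν ⊆ T' ν) → Large F M T'' →
        ∀ᶠ ν in (F.U : Filter ℕ), ∀ z ∈ T' ν,
          φ ν z ∈ Submodule.span ℚ (φ ν '' (T'' ν : Set (ι → ℤ))) := by
  classical
  obtain ⟨dm, hdm⟩ : ∃ dm : (ℕ → Finset (ι → ℤ)) → ℕ → ℕ, ∀ S ν,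
      dm S ν = Module.finrank ℚ (Submodule.span ℚ (φ ν '' (S ν : Set (ι → ℤ)))) :=
    ⟨fun S ν => Module.finrank ℚ (Submodule.span ℚ (φ ν '' (S ν : Set (ι → ℤ)))), fun _ _ => rfl⟩
  have hconst : ∀ S : ℕ → Finset (ι → ℤ), ∃ r, ∀ᶠ ν in (F.U : Filter ℕ), dm S ν = r := by
    intro S
    apply ev_const_spanmin F.U (dm S) (Fintype.card β)
    intro ν
    rw [hdm]
    refine (Submodule.finrank_le _).trans ?_
    rw [Module.finrank_fintype_fun_eq_card]
  have hex : ∃ r : ℕ, ∃ T' : ℕ → Finset (ι → ℤ), (∀ ν, T' ν ⊆ T ν) ∧ Large F M T' ∧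
      ∀ᶠ ν in (F.U : Filter ℕ), dm T' ν = r := by
    obtain ⟨r, hr⟩ := hconst T
    exact ⟨r, T, fun ν => Finset.Subset.refl _, hL, hr⟩
  obtain ⟨T', hsub, hlarge, hr⟩ := Nat.find_spec hex
  refine ⟨T', hsub, hlarge, ?_⟩
  intro T'' hsub' hlarge'
  obtain ⟨r'', hr''⟩ := hconst T''
  have hmin : Nat.find hex ≤ r'' :=
    Nat.find_min' hex ⟨T'', fun ν => (hsub' ν).trans (hsub ν), hlarge', hr''⟩
  filter_upwards [hr, hr''] with ν h1 h2
  intro z hz
  have hle : Submodule.span ℚ (φ ν '' (T'' ν : Set (ι → ℤ))) ≤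
      Submodule.span ℚ (φ ν '' (T' ν : Set (ι → ℤ))) :=
    Submodule.span_mono (Set.image_mono (by exact_mod_cast hsub' ν))
  have hfr : Module.finrank ℚ (Submodule.span ℚ (φ ν '' (T'' ν : Set (ι → ℤ)))) =
      Module.finrank ℚ (Submodule.span ℚ (φ ν '' (T' ν : Set (ι → ℤ)))) := by
    apply le_antisymm (Submodule.finrank_mono hle)
    rw [← hdm, ← hdm, h1, h2]
    exact hmin
  rw [Submodule.eq_of_le_of_finrank_eq hle hfr]
  exact Submodule.subset_span ⟨z, by exact_mod_cast hz, rfl⟩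

end Pool.Agent.Helper93.TS
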