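import Pool.Agent.Helper93.TS.Cramer
import Pool.Agent.Helper93.TS.Zero

/-!
TS-18 ValBound (project TS, MP_464c42_nt). The valuation argument: if `u0` is in the span of vectors `u t` which are proportional to `u0` up to factors at
most `Y` and whose sums of coordinates are divisible by `p ^ H` for most primes `p` of `q`, then `q` has small radical.

Proof. Let `N = card I`. For `t ∈ P`, `i ∈ I` choose `A t i`, `B t i` from `hAB`, and put `w t i = A t i * ∏_{l ≠ i} B t l` (`Finset.univ.erase i`), `b t = ∏_l B t l`, so `0 ≤ w t i ≤ Y ^ N` (`N` factors between `0` and `Y`).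
From `hAB`: `u t i * u0 i1 * b t = u t i1 * u0 i * w t i`, i.e. over `ℚ`: `u t i = (u t i1 / (b t u0 i1)) * (u0 i * w t i)`. So `hspan` says that `u0` is in the span of the vectors `(u0 i * w t i)_i`, `t ∈ P`
(each `u t` is a multiple of one of them: `Submodule.span_le`), and applying the linear map `x ↦ (x i / u0 i)_i` (`Submodule.map_span`): `(1, .., 1)` is in the span of the `(w t i)_i`. `cramer_span` with
`W = Y ^ N`: `s ≤ N`, `t k ∈ P`, `Δ ≠ 0`, `|Δ| ≤ s! Y ^ (N s) ≤ N! (Y ^ N) ^ N` (`1 ≤ Y`), `Δ = ∑_k c_k w (t k) i`. Multiply by `u0 i` and sum over `i`, and multiply by `∏_k u (t k) i1`: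
`Δ (∑_i u0 i) ∏_k u (t k) i1 = ∑_k c_k (∑_i u0 i w (t k) i) u (t k) i1 ∏_{l ≠ k} u (t l) i1 = ∑_k c_k u0 i1 b (t k) (∑_i u (t k) i) ∏_{l ≠ k} u (t l) i1`. Let `p` be a prime of `q` with `p ^ H ∣ ∑_i u (t k) i` for all `k`: then
`p ^ H` divides the right side, and `p` does not divide `∑ u0 i` (`hq1`) nor the `u (t k) i1` (`hq2`), so `p ^ H ∣ Δ`. Hence every prime `p` of `q` satisfies `p ^ H ∣ Δ` or `¬ p ^ H ∣ ∑_i u (t k) i` for some `k`, and
`∏ p ≤ (∏ {p : p ^ H ∣ Δ} p) * ∏_k bad q H (∑_i u (t k) i)`. The `p ^ H` with `p ^ H ∣ Δ` are pairwise coprime: `(∏ {p : p ^ H ∣ Δ} p) ^ H ≤ |Δ|`. So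
`(∏ p) ^ H ≤ |Δ| * (Z ^ s) ^ H ≤ N! (Y ^ N) ^ N Z ^ (H N)` (`1 ≤ Z`).
-/

set_option autoImplicit false

namespace Pool.Agent.Helper93.TS

private theorem w_bound {I : Type} [Fintype I] [DecidableEq I] (Y : ℕ) (A : ℕ) (B : I → ℕ) (i : I)
    (hA : A ≤ Y) (hB : ∀ l, B l ≤ Y) :
    |(A : ℤ) * ∏ l ∈ Finset.univ.erase i, (B l : ℤ)| ≤ ((Y : ℤ)) ^ Fintype.card I := by
  have h1 : A * ∏ l ∈ Finset.univ.erase i, B l ≤ Y ^ Fintype.card I := by
    have hc : Fintype.card I = (Finset.univ.erase i).card + 1 := by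
      rw [Finset.card_erase_of_mem (Finset.mem_univ i), Finset.card_univ]
      have : 0 < Fintype.card I := Fintype.card_pos_iff.2 ⟨i⟩
      omega
    rw [hc, pow_succ, mul_comm (Y ^ _) Y]
    exact Nat.mul_le_mul hA (Finset.prod_le_pow_card _ _ _ fun l _ => hB l)
  rw [abs_of_nonneg (by positivity)]
  exact_mod_cast h1

private theorem prod_bad_le (q H : ℕ) (Δ : ℤ) (s : ℕ) (S : Fin s → ℤ)
    (h : ∀ p ∈ q.primeFactors, (∀ k, (p : ℤ) ^ H ∣ S k) → (p : ℤ) ^ H ∣ Δ) :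
    (∏ p ∈ q.primeFactors, p) ≤
      (∏ p ∈ q.primeFactors.filter (fun p : ℕ => (p : ℤ) ^ H ∣ Δ), p) * ∏ k, bad q H (S k) := by
  classical
  have e1 : ∏ k, bad q H (S k) =
      ∏ p ∈ q.primeFactors, ∏ k, (if ¬ (p : ℤ) ^ H ∣ S k then p else 1) := by
    rw [Finset.prod_comm]
    refine Finset.prod_congr rfl fun k _ => ?_
    unfold bad
    rw [Finset.prod_filter]
  rw [e1, Finset.prod_filter, ← Finset.prod_mul_distrib]
  refine Finset.prod_le_prod' fun p hp => ?_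
  have hp1 : 1 ≤ p := (Nat.prime_of_mem_primeFactors hp).one_lt.le
  have h1 : ∀ k ∈ (Finset.univ : Finset (Fin s)), 1 ≤ (if ¬ (p : ℤ) ^ H ∣ S k then p else 1) := by
    intro k _
    split_ifs
    · exact le_rfl
    · exact hp1
  by_cases hd : (p : ℤ) ^ H ∣ Δ
  · rw [if_pos hd]
    exact Nat.le_mul_of_pos_right _ (Finset.prod_pos fun k hk => h1 k hk)
  · rw [if_neg hd, one_mul]
    have : ∃ k, ¬ (p : ℤ) ^ H ∣ S k := by
      by_contra hcon
      push Not at hcon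
      exact hd (h p hp hcon)
    obtain ⟨k, hk⟩ := this
    have h2 := Finset.single_le_prod' h1 (Finset.mem_univ k)
    rwa [if_pos hk] at h2

private theorem pow_prod_le (q H : ℕ) (Δ : ℤ) (hΔ : Δ ≠ 0) :
    (∏ p ∈ q.primeFactors.filter (fun p : ℕ => (p : ℤ) ^ H ∣ Δ), p) ^ H ≤ Δ.natAbs := by
  apply Nat.le_of_dvd (Int.natAbs_pos.2 hΔ)
  rw [← Finset.prod_pow]
  apply Finset.prod_dvd_of_isRelPrime
  · intro a ha b hb hab
    have hpa := Nat.prime_of_mem_primeFactors (Finset.mem_filter.1 ha).1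
    have hpb := Nat.prime_of_mem_primeFactors (Finset.mem_filter.1 hb).1
    exact Nat.coprime_iff_isRelPrime.1
      (Nat.Coprime.pow H H ((Nat.coprime_primes hpa hpb).2 hab))
  · intro p hp
    have h1 := (Finset.mem_filter.1 hp).2
    rw [← Int.natCast_dvd, Nat.cast_pow]
    exact h1

private theorem dvd_delta {I : Type} [Fintype I] [DecidableEq I] {s : ℕ} (i1 : I) (u0 : I → ℤ)
    (u : Fin s → I → ℤ) (w : Fin s → I → ℤ) (b : Fin s → ℤ) (c : Fin s → ℤ) (Δ : ℤ)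
    (hw : ∀ k i, u k i * u0 i1 * b k = u k i1 * u0 i * w k i)
    (hΔ : ∀ i, Δ = ∑ k, c k * w k i) (p H : ℕ) (hp : p.Prime)
    (h1 : ¬ (p : ℤ) ∣ ∑ i, u0 i) (h2 : ∀ k, ¬ (p : ℤ) ∣ u k i1)
    (h3 : ∀ k, (p : ℤ) ^ H ∣ ∑ i, u k i) : (p : ℤ) ^ H ∣ Δ := by
  have key : Δ * ((∑ i, u0 i) * ∏ k, u k i1) =
      ∑ k, (c k * u0 i1 * b k * ∏ l ∈ Finset.univ.erase k, u l i1) * ∑ i, u k i := by
    calc Δ * ((∑ i, u0 i) * ∏ k, u k i1) = ∑ i, (u0 i * Δ) * ∏ k, u k i1 := by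
          rw [← Finset.sum_mul, ← Finset.sum_mul]
          ring
      _ = ∑ i, ∑ k, (c k * u0 i1 * b k * ∏ l ∈ Finset.univ.erase k, u l i1) * u k i := by
          refine Finset.sum_congr rfl fun i _ => ?_
          conv_lhs => rw [hΔ i]
          rw [Finset.mul_sum, Finset.sum_mul]
          refine Finset.sum_congr rfl fun k _ => ?_
          rw [← Finset.mul_prod_erase Finset.univ (fun k => u k i1) (Finset.mem_univ k)]
          have := hw k i
          linear_combination (-(c k) * ∏ l ∈ Finset.univ.erase k, u l i1) * this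
      _ = _ := by
          rw [Finset.sum_comm]
          refine Finset.sum_congr rfl fun k _ => ?_
          rw [Finset.mul_sum]
  have hpp : Prime (p : ℤ) := Nat.prime_iff_prime_int.1 hp
  have hco : IsCoprime ((p : ℤ) ^ H) ((∑ i, u0 i) * ∏ k, u k i1) := by
    apply IsCoprime.pow_left
    rw [Prime.coprime_iff_not_dvd hpp]
    intro hd
    rcases hpp.dvd_or_dvd hd with hd | hd
    · exact h1 hd
    · obtain ⟨k, _, hk⟩ := (hpp.dvd_finsetProd_iff _).1 hd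
      exact h2 k hk
  refine hco.dvd_of_dvd_mul_right ?_
  rw [key]
  exact Finset.dvd_sum fun k _ => Dvd.dvd.mul_left (h3 k) _

theorem val_bound {I : Type} [Fintype I] [DecidableEq I] {Θ : Type} (i1 : I) (u0 : I → ℤ)
    (h0 : ∀ i, u0 i ≠ 0) (u : Θ → I → ℤ) (P : Set Θ) (Y Z H q : ℕ) (hY : 1 ≤ Y) (hZ : 1 ≤ Z)
    (hspan : (fun i => ((u0 i : ℤ) : ℚ)) ∈
      Submodule.span ℚ ((fun (t : Θ) (i : I) => ((u t i : ℤ) : ℚ)) '' P))
    (hAB : ∀ t ∈ P, ∀ i, ∃ A B : ℕ, 1 ≤ A ∧ A ≤ Y ∧ 1 ≤ B ∧ B ≤ Y ∧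
      u t i * u0 i1 * (B : ℤ) = u t i1 * u0 i * (A : ℤ))
    (hq1 : ∀ p ∈ q.primeFactors, ¬ (p : ℤ) ∣ ∑ i, u0 i)
    (hq2 : ∀ t ∈ P, ∀ p ∈ q.primeFactors, ¬ (p : ℤ) ∣ u t i1)
    (hbad : ∀ t ∈ P, bad q H (∑ i, u t i) ≤ Z) :
    (∏ p ∈ q.primeFactors, p) ^ H ≤
      (Fintype.card I).factorial * (Y ^ Fintype.card I) ^ Fintype.card I *
        Z ^ (H * Fintype.card I) := by
  choose! A B hA1 hAY hB1 hBY hAB using hAB
  set w : Θ → I → ℤ := fun t i => (A t i : ℤ) * ∏ l ∈ Finset.univ.erase i, (B t l : ℤ) with hw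
  set b : Θ → ℤ := fun t => ∏ l, (B t l : ℤ) with hb
  have hb0 : ∀ t ∈ P, b t ≠ 0 := by
    intro t ht
    refine Finset.prod_ne_zero_iff.2 fun l _ => ?_
    have := hB1 t ht l
    exact_mod_cast (by omega : B t l ≠ 0)
  have hrel : ∀ t ∈ P, ∀ i, u t i * u0 i1 * b t = u t i1 * u0 i * w t i := by
    intro t ht i
    have h1 := hAB t ht i
    simp only [hw, hb]
    rw [← Finset.mul_prod_erase Finset.univ (fun l => (B t l : ℤ)) (Finset.mem_univ i)]
    linear_combination (∏ l ∈ Finset.univ.erase i, (B t l : ℤ)) * h1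
  have hone : (fun _ : I => (1 : ℚ)) ∈
      Submodule.span ℚ ((fun (t : Θ) (i : I) => ((w t i : ℤ) : ℚ)) '' P) := by
    let φ : (I → ℚ) →ₗ[ℚ] (I → ℚ) :=
      LinearMap.pi fun i => ((u0 i : ℤ) : ℚ)⁻¹ • LinearMap.proj i
    have hφ : ∀ x i, φ x i = ((u0 i : ℤ) : ℚ)⁻¹ * x i := fun x i => rfl
    have hle : Submodule.span ℚ ((fun (t : Θ) (i : I) => ((u t i : ℤ) : ℚ)) '' P) ≤
        (Submodule.span ℚ ((fun (t : Θ) (i : I) => ((w t i : ℤ) : ℚ)) '' P)).comap φ := by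
      refine Submodule.span_le.2 ?_
      rintro _ ⟨t, ht, rfl⟩
      rw [SetLike.mem_coe, Submodule.mem_comap]
      have h1 : φ (fun i => ((u t i : ℤ) : ℚ)) =
          (((u t i1 : ℤ) : ℚ) * (((b t : ℤ) : ℚ) * ((u0 i1 : ℤ) : ℚ))⁻¹) •
            fun i => ((w t i : ℤ) : ℚ) := by
        funext i
        rw [hφ, Pi.smul_apply, smul_eq_mul]
        have e1 : ((u0 i : ℤ) : ℚ) ≠ 0 := by exact_mod_cast h0 i
        have e2 : ((u0 i1 : ℤ) : ℚ) ≠ 0 := by exact_mod_cast h0 i1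
        have e3 : ((b t : ℤ) : ℚ) ≠ 0 := by exact_mod_cast hb0 t ht
        have e4 : ((u t i : ℤ) : ℚ) * ((u0 i1 : ℤ) : ℚ) * ((b t : ℤ) : ℚ) =
            ((u t i1 : ℤ) : ℚ) * ((u0 i : ℤ) : ℚ) * ((w t i : ℤ) : ℚ) := by
          exact_mod_cast hrel t ht i
        field_simp
        linear_combination e4
      rw [h1]
      exact Submodule.smul_mem _ _ (Submodule.subset_span ⟨t, ht, rfl⟩)
    have h2 := hle hspan
    rw [Submodule.mem_comap] at h2
    have h3 : φ (fun i => ((u0 i : ℤ) : ℚ)) = fun _ => 1 := by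
      funext i
      rw [hφ]
      exact inv_mul_cancel₀ (by exact_mod_cast h0 i)
    rwa [h3] at h2
  obtain ⟨s, t, Δ, c, hs, htP, hΔ0, hΔle, hΔ⟩ := cramer_span ((Y : ℤ) ^ Fintype.card I) w P
    (fun t ht i => w_bound Y (A t i) (B t) i (hAY t ht i) (hBY t ht)) hone
  have hdvd : ∀ p ∈ q.primeFactors, (∀ k, (p : ℤ) ^ H ∣ ∑ i, u (t k) i) → (p : ℤ) ^ H ∣ Δ := by
    intro p hp h3
    exact dvd_delta i1 u0 (fun k => u (t k)) (fun k => w (t k)) (fun k => b (t k)) c Δ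
      (fun k i => hrel (t k) (htP k) i) hΔ p H (Nat.prime_of_mem_primeFactors hp) (hq1 p hp)
      (fun k => hq2 (t k) (htP k) p hp) h3
  have hY' : 1 ≤ Y ^ Fintype.card I := Nat.one_le_pow _ _ hY
  have hΔN : Δ.natAbs ≤ (Fintype.card I).factorial * (Y ^ Fintype.card I) ^ Fintype.card I := by
    have h1 : Δ.natAbs ≤ s.factorial * (Y ^ Fintype.card I) ^ s := by
      rw [Int.abs_eq_natAbs] at hΔle
      exact_mod_cast hΔle
    exact h1.trans (Nat.mul_le_mul (Nat.factorial_le hs) (Nat.pow_le_pow_right hY' hs))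
  calc (∏ p ∈ q.primeFactors, p) ^ H
      ≤ ((∏ p ∈ q.primeFactors.filter (fun p : ℕ => (p : ℤ) ^ H ∣ Δ), p) *
          ∏ k, bad q H (∑ i, u (t k) i)) ^ H :=
        Nat.pow_le_pow_left (prod_bad_le q H Δ s (fun k => ∑ i, u (t k) i) hdvd) H
    _ = (∏ p ∈ q.primeFactors.filter (fun p : ℕ => (p : ℤ) ^ H ∣ Δ), p) ^ H *
          (∏ k, bad q H (∑ i, u (t k) i)) ^ H := mul_pow _ _ _
    _ ≤ Δ.natAbs * (Z ^ s) ^ H := by
        refine Nat.mul_le_mul (pow_prod_le q H Δ hΔ0) (Nat.pow_le_pow_left ?_ H)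
        refine (Finset.prod_le_pow_card _ _ Z fun k _ => hbad (t k) (htP k)).trans ?_
        rw [Finset.card_univ, Fintype.card_fin]
    _ ≤ _ := by
        refine Nat.mul_le_mul hΔN ?_
        rw [← pow_mul, mul_comm s H]
        exact Nat.pow_le_pow_right hZ (Nat.mul_le_mul_left H hs)

end Pool.Agent.Helper93.TS
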