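import Pool.Agent.Helper93.TS.ExistsQ
import Pool.Agent.Helper93.TS.QStar
import Pool.Agent.Helper93.TS.ClassSumC
import Pool.Agent.Helper93.TS.RatioRel
import Pool.Agent.Helper93.TS.SpanMin
import Pool.Agent.Helper93.TS.ValBound

/-!
TS-26 NSCore (project TS, MP_464c42_nt). The nonstandard theorem. (helper93)
-/

set_option autoImplicit false

open MvPolynomial

namespace Pool.Agent.Helper93.TS

open Pool.Agent.Helper91.CPX Pool.Agent.Helper85.VA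

/-- The final comparison of sizes. -/
private theorem sizes (n N C j0 H q' Z X : ℕ) (δ : ℝ) (hN : N ≤ n + 1) (hX : 2 ≤ X)
    (hfac : (n + 1).factorial ≤ X) (hj0 : 0 < j0) (hj : ((n : ℝ) + 1) / j0 ≤ δ / (2 * (n + 1)))
    (hH : 1 + (C : ℝ) * (n + 1) ^ 2 < δ * H / (2 * (n + 1)))
    (hq : (X : ℝ) ^ (δ / (n + 1)) ≤ (q' : ℝ)) (hZ1 : 1 ≤ Z) (hZ : (Z : ℝ) ≤ (X : ℝ) ^ (1 / (j0 : ℝ)))
    (h : q' ^ H ≤ N.factorial * ((X ^ C) ^ N) ^ N * Z ^ (H * N)) : False := by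
  have hX1 : (1 : ℝ) < X := by exact_mod_cast (by omega : 1 < X)
  have hX0 : (0 : ℝ) < X := by linarith
  have hXn : 1 ≤ X := by omega
  have hj0' : (0 : ℝ) < j0 := by exact_mod_cast hj0
  have hn1 : (0 : ℝ) < (n : ℝ) + 1 := by positivity
  have h1 : q' ^ H ≤ X * X ^ (C * (n + 1) ^ 2) * Z ^ (H * (n + 1)) := by
    refine h.trans ?_
    refine Nat.mul_le_mul (Nat.mul_le_mul ?_ ?_) ?_
    · exact (Nat.factorial_le hN).trans hfac
    · rw [← pow_mul, ← pow_mul]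
      refine Nat.pow_le_pow_right hXn ?_
      calc C * (N * N) ≤ C * ((n + 1) * (n + 1)) :=
            Nat.mul_le_mul_left _ (Nat.mul_le_mul hN hN)
        _ = C * (n + 1) ^ 2 := by ring
    · exact Nat.pow_le_pow_right hZ1 (Nat.mul_le_mul_left _ hN)
  have h2 : (q' : ℝ) ^ H ≤ (X : ℝ) * (X : ℝ) ^ (C * (n + 1) ^ 2) * (Z : ℝ) ^ (H * (n + 1)) := by
    exact_mod_cast h1
  have h3 : (X : ℝ) ^ (δ / (n + 1) * H) ≤ (q' : ℝ) ^ H := by
    rw [Real.rpow_mul hX0.le, Real.rpow_natCast]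
    exact pow_le_pow_left₀ (Real.rpow_nonneg hX0.le _) hq _
  have h4 : (Z : ℝ) ^ (H * (n + 1)) ≤ (X : ℝ) ^ ((1 / (j0 : ℝ)) * ((H * (n + 1) : ℕ) : ℝ)) := by
    rw [Real.rpow_mul hX0.le, Real.rpow_natCast]
    exact pow_le_pow_left₀ (Nat.cast_nonneg _) hZ _
  have h5 : (X : ℝ) * (X : ℝ) ^ (C * (n + 1) ^ 2) * (X : ℝ) ^ ((1 / (j0 : ℝ)) * ((H * (n + 1) : ℕ) : ℝ)) =
      (X : ℝ) ^ (1 + ((C * (n + 1) ^ 2 : ℕ) : ℝ) + (1 / (j0 : ℝ)) * ((H * (n + 1) : ℕ) : ℝ)) := by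
    rw [Real.rpow_add hX0, Real.rpow_add hX0, Real.rpow_one, Real.rpow_natCast]
  have h6 : (X : ℝ) ^ (δ / (n + 1) * H) ≤
      (X : ℝ) ^ (1 + ((C * (n + 1) ^ 2 : ℕ) : ℝ) + (1 / (j0 : ℝ)) * ((H * (n + 1) : ℕ) : ℝ)) := by
    rw [← h5]
    refine h3.trans (h2.trans ?_)
    exact mul_le_mul_of_nonneg_left h4 (by positivity)
  have h7 := (Real.rpow_le_rpow_left_iff hX1).mp h6
  push_cast at h7
  have h8 : 1 / (j0 : ℝ) * ((H : ℝ) * (n + 1)) ≤ δ / (2 * (n + 1)) * H := by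
    have h9 : 1 / (j0 : ℝ) * ((H : ℝ) * (n + 1)) = ((n : ℝ) + 1) / j0 * H := by ring
    rw [h9]
    exact mul_le_mul_of_nonneg_right hj (Nat.cast_nonneg _)
  have h10 : δ / (n + 1) * H = δ / (2 * (n + 1)) * H + δ * H / (2 * (n + 1)) := by
    field_simp
    ring
  linarith

theorem NS_coreT {n k : ℕ} (𝒮 : Setup (Fin (n + 1) × Fin k)) {m : ℕ → ℕ} {S : ℕ → Finset ℕ}
    {a : ℕ → Fin (n + 1) → ℤ} {e : ℕ → Fin (n + 1) → Fin k → ℕ}
    (hF : Fam 𝒮.F m S a e 𝒮.T) (hM : 𝒮.M = code a e)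
    (hspan : ∀ T'' : ℕ → Finset (Fin (n + 1) × Fin k → ℤ), (∀ ν, T'' ν ⊆ 𝒮.T ν) →
      Large 𝒮.F 𝒮.M T'' → ∀ᶠ ν in (𝒮.F.U : Filter ℕ), ∀ z ∈ 𝒮.T ν,
        (fun i => ((xval (a ν) (e ν) z i : ℤ) : ℚ)) ∈
          Submodule.span ℚ ((fun z (i : Fin (n + 1)) => ((xval (a ν) (e ν) z i : ℤ) : ℚ)) ''
            (T'' ν : Set (Fin (n + 1) × Fin k → ℤ)))) : False := by
  classical
  -- exponents
  let ez : ℕ → Fin (n + 1) × Fin k → ℕ := fun ν v => e ν v.1 v.2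
  let eZ : Fin (n + 1) × Fin k → Zb 𝒮.F := fun v => ⟨fun ν => (ez ν v : ℤ), ⟨2, by
    filter_upwards [hF.he] with ν h1
    rw [abs_of_nonneg (by positivity)]
    exact (h1 v.1 v.2).2⟩⟩
  have heZ : ∀ ν v, evAt 𝒮.F ν (eZ v) = (ez ν v : ℤ) := fun ν v => rfl
  -- terms
  have hprod : ∀ (ν : ℕ) (z : Fin (n + 1) × Fin k → ℤ) (i : Fin (n + 1)),
      ∏ v : Fin (n + 1) × Fin k, z v ^ (if v.1 = i then ez ν v else 0) =
        ∏ j, z (i, j) ^ e ν i j := by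
    intro ν z i
    rw [Fintype.prod_prod_type, Finset.prod_eq_single i]
    · exact Finset.prod_congr rfl fun j _ => by simp [ez]
    · intro b _ hb
      exact Finset.prod_eq_one fun j _ => by simp [hb]
    · intro h
      exact absurd (Finset.mem_univ i) h
  have hval0 : ∀ (ν : ℕ) (z : Fin (n + 1) × Fin k → ℤ) (i : Fin (n + 1)),
      a ν i * ∏ v, z v ^ (if v.1 = i then ez ν v else 0) = xval (a ν) (e ν) z i := by
    intro ν z i
    rw [hprod]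
    rfl
  let τ : Terms 𝒮 (Fin (n + 1)) :=
    { t := a
      E := fun ν i v => if v.1 = i then ez ν v else 0
      EZ := ei eZ
      hEZ := by
        intro ν i v
        unfold ei
        by_cases h : v.1 = i
        · rw [if_pos h, if_pos h]
          exact heZ ν v
        · rw [if_neg h, if_neg h, map_zero, Nat.cast_zero]
      G := m
      hG := by
        intro C
        filter_upwards [hF.hX (C + 1)] with ν h1
        refine le_trans (Nat.pow_le_pow_right (by norm_num) (Nat.pow_le_pow_left ?_ 2)) h1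
        nlinarith [Nat.zero_le (C * m ν)]
      hτ := by
        filter_upwards [hF.pts] with ν h1 z hz i
        rw [hval0]
        exact (h1 z hz).1 i }
  have hval : ∀ (ν : ℕ) (i : Fin (n + 1)) (z : Fin (n + 1) × Fin k → ℤ),
      τ.val ν i z = xval (a ν) (e ν) z i := fun ν i z => hval0 ν z i
  -- ratios
  have hrat0 : ∀ p : {p : Fin (n + 1) × Fin (n + 1) //
      Rel (fun i : Fin (n + 1) => 𝒮.om (ei eZ i)) p.1 p.2},
      ∃ (C : ℕ) (Sm : ℕ → (Fin (n + 1) × Fin k → ℤ) → Prop), 𝒮.Small Sm ∧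
      ∀ᶠ ν in (𝒮.F.U : Filter ℕ), ∀ z ∈ 𝒮.T ν, ∀ z0 ∈ 𝒮.T ν, ¬ Sm ν z → ¬ Sm ν z0 →
        ∃ A B : ℕ, 1 ≤ A ∧ A ≤ 𝒮.F.X ν ^ C ∧ 1 ≤ B ∧ B ≤ 𝒮.F.X ν ^ C ∧
          (∏ j, z (p.1.1, j) ^ ez ν (p.1.1, j)) * (∏ j, z0 (p.1.2, j) ^ ez ν (p.1.2, j)) * (B : ℤ) =
            (∏ j, z (p.1.2, j) ^ ez ν (p.1.2, j)) * (∏ j, z0 (p.1.1, j) ^ ez ν (p.1.1, j)) *
              (A : ℤ) :=
    fun p => ratio_rel 𝒮 ez eZ heZ p.1.1 p.1.2 p.2
  choose C Sm hSm hrat using hrat0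
  have hSmE : 𝒮.Small (fun ν z => ∃ p, Sm p ν z) := Setup.Small.exists hSm
  have hratE := Filter.eventually_all.mpr hrat
  have hfin : Fintype {p : Fin (n + 1) × Fin (n + 1) //
      Rel (fun i : Fin (n + 1) => 𝒮.om (ei eZ i)) p.1 p.2} := Fintype.ofFinite _
  obtain ⟨Cm, hCm⟩ : ∃ Cm : ℕ, ∀ p, C p ≤ Cm :=
    ⟨∑ p, C p, fun p => Finset.single_le_sum (fun _ _ => Nat.zero_le _) (Finset.mem_univ p)⟩
  -- the base point
  obtain ⟨z0, hz0⟩ : ∃ z0 : ℕ → (Fin (n + 1) × Fin k → ℤ),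
      ∀ᶠ ν in (𝒮.F.U : Filter ℕ), z0 ν ∈ 𝒮.T ν ∧ ¬ ∃ p, Sm p ν (z0 ν) := by
    have h1 : ∀ ν, ∃ z : Fin (n + 1) × Fin k → ℤ,
        (∃ z ∈ 𝒮.T ν, ¬ ∃ p, Sm p ν z) → z ∈ 𝒮.T ν ∧ ¬ ∃ p, Sm p ν z := by
      intro ν
      by_cases h : ∃ z ∈ 𝒮.T ν, ¬ ∃ p, Sm p ν z
      · obtain ⟨z, hz⟩ := h
        exact ⟨z, fun _ => hz⟩
      · exact ⟨0, fun h' => absurd h' h⟩
    choose z0 hz0' using h1
    exact ⟨z0, hSmE.exists_not.mono fun ν h => hz0' ν h⟩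
  -- the number `R0`
  obtain ⟨R0, hR0def⟩ : ∃ R0 : ℕ → ℕ, ∀ ν, R0 ν =
      (∏ J : Finset (Fin (n + 1)), if J.Nonempty then
        (∑ i ∈ J, xval (a ν) (e ν) (z0 ν) i).natAbs else 1) *
          ∏ p ∈ (S ν).filter Nat.Prime, p := ⟨_, fun _ => rfl⟩
  have hSR : ∀ᶠ ν in (𝒮.F.U : Filter ℕ), ∀ p ∈ S ν, p.Prime → p ∣ R0 ν := by
    refine Filter.Eventually.of_forall fun ν p hp hpp => ?_
    rw [hR0def]
    exact Dvd.dvd.mul_left (Finset.dvd_prod_of_mem _ (Finset.mem_filter.2 ⟨hp, hpp⟩)) _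
  have hR0J : ∀ ν (J : Finset (Fin (n + 1))), J.Nonempty →
      (∑ i ∈ J, xval (a ν) (e ν) (z0 ν) i).natAbs ∣ R0 ν := by
    intro ν J hJ
    rw [hR0def]
    refine Dvd.dvd.mul_right ?_ _
    have h1 := Finset.dvd_prod_of_mem (fun J : Finset (Fin (n + 1)) => if J.Nonempty then
        (∑ i ∈ J, xval (a ν) (e ν) (z0 ν) i).natAbs else 1) (Finset.mem_univ J)
    simpa only [if_pos hJ] using h1
  have hR0 : ∀ᶠ ν in (𝒮.F.U : Filter ℕ), 1 ≤ R0 ν ∧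
      R0 ν ≤ 𝒮.F.X ν ^ (((n + 2) * 2 ^ (n + 1) + 1) * m ν) := by
    filter_upwards [hF.pts, hz0, hF.hS, hF.hm 1] with ν h1 h2 h3 h4
    obtain ⟨h5, -, -, h6, -⟩ := h1 _ h2.1
    have hX2 := 𝒮.F.two_le ν
    rw [hR0def]
    constructor
    · refine Nat.one_le_iff_ne_zero.2 (mul_ne_zero ?_ ?_)
      · rw [Finset.prod_ne_zero_iff]
        intro J _
        by_cases hJ : J.Nonempty
        · rw [if_pos hJ]
          exact Int.natAbs_ne_zero.2 (h6 J hJ)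
        · rw [if_neg hJ]
          exact one_ne_zero
      · rw [Finset.prod_ne_zero_iff]
        intro p hp
        exact (Finset.mem_filter.1 hp).2.ne_zero
    · have h7 : ∀ J : Finset (Fin (n + 1)), (if J.Nonempty then
          (∑ i ∈ J, xval (a ν) (e ν) (z0 ν) i).natAbs else 1) ≤ 𝒮.F.X ν ^ (m ν + (n + 1)) := by
        intro J
        by_cases hJ : J.Nonempty
        · rw [if_pos hJ]
          have h8 : (∑ i ∈ J, xval (a ν) (e ν) (z0 ν) i).natAbs ≤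
              ∑ i ∈ J, (xval (a ν) (e ν) (z0 ν) i).natAbs := Int.natAbs_sum_le _ _
          have h9 : ∑ i ∈ J, (xval (a ν) (e ν) (z0 ν) i).natAbs ≤ J.card * 𝒮.F.X ν ^ m ν := by
            rw [← smul_eq_mul]
            refine Finset.sum_le_card_nsmul _ _ _ fun i _ => ?_
            have h10 := h5 i
            rw [Int.abs_eq_natAbs] at h10
            exact_mod_cast h10
          have h10 : J.card ≤ 𝒮.F.X ν ^ (n + 1) := by
            have h11 : J.card ≤ n + 1 := by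
              have := Finset.card_le_univ J
              rwa [Fintype.card_fin] at this
            exact h11.trans ((Nat.lt_two_pow_self).le.trans (Nat.pow_le_pow_left hX2 _))
          calc _ ≤ J.card * 𝒮.F.X ν ^ m ν := h8.trans h9
            _ ≤ 𝒮.F.X ν ^ (n + 1) * 𝒮.F.X ν ^ m ν := Nat.mul_le_mul_right _ h10
            _ = 𝒮.F.X ν ^ (m ν + (n + 1)) := by rw [pow_add]; ring
        · rw [if_neg hJ]
          exact Nat.one_le_pow _ _ (by omega)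
      calc _ ≤ (𝒮.F.X ν ^ (m ν + (n + 1))) ^ (2 ^ (n + 1)) * 𝒮.F.X ν := by
            refine Nat.mul_le_mul ?_ h3
            refine (Finset.prod_le_pow_card _ _ _ fun J _ => h7 J).trans (le_of_eq ?_)
            rw [Finset.card_univ, Fintype.card_finset, Fintype.card_fin]
        _ = 𝒮.F.X ν ^ ((m ν + (n + 1)) * 2 ^ (n + 1) + 1) := by
            rw [← pow_mul, pow_succ (𝒮.F.X ν)]
        _ ≤ _ := by
            refine Nat.pow_le_pow_right (by omega) ?_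
            have h8 : m ν + (n + 1) ≤ (n + 2) * m ν := by nlinarith
            calc (m ν + (n + 1)) * 2 ^ (n + 1) + 1 ≤ ((n + 2) * m ν) * 2 ^ (n + 1) + m ν :=
                  Nat.add_le_add (Nat.mul_le_mul_right _ h8) h4
              _ = ((n + 2) * 2 ^ (n + 1) + 1) * m ν := by ring
  -- the modulus
  have hL : Large 𝒮.F (code a e) 𝒮.T := by
    rw [← hM]
    exact 𝒮.large
  obtain ⟨q, δ, hδ, hq, hqR, hLq⟩ := exists_q 𝒮.F hF hL R0 _ hR0 hSR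
  obtain ⟨i1, q', hq', hLs⟩ := exists_qstar 𝒮.F (code a e) _ hLq q hq δ hδ
    (hqR.mono fun ν h => h.1) (fun ν z i => xval (a ν) (e ν) z i) (by
      filter_upwards [hF.pts] with ν h z hz p hp
      rw [Finset.mem_filter] at hz
      exact (h z hz.1).2.2.1 p (Nat.prime_of_mem_primeFactors hp))
  -- the class sum vanishes modulo `q`
  let Q : ℕ → (Fin (n + 1) × Fin k → ℤ) → Prop := fun ν z =>
    ∀ p ∈ (q ν).primeFactors, (p : ℤ) ∣ tot a e ν z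
  have hZ0 : Zero 𝒮 q Q (fun ν z => ∑ i, τ.val ν i z) := by
    refine zero_of_dvd fun H => ?_
    filter_upwards [hF.pts, hF.hm H, hqR, hSR] with ν h1 h2 h3 h4 z hz hQ p hp
    have hpp := Nat.prime_of_mem_primeFactors hp
    have h5 : p ∉ S ν := fun h => h3.2 p hp (h4 p h hpp)
    have h6 := (h1 z hz).2.2.2.2 p hpp h5 (hQ p hp)
    have h7 : ∑ i, τ.val ν i z = tot a e ν z := by
      unfold tot
      exact Finset.sum_congr rfl fun i _ => hval ν i z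
    rw [h7]
    exact (pow_dvd_pow _ h2).trans h6
  have hZ1 := class_sumC 𝒮 τ q hq Q hZ0 i1
  -- constants
  have hn1 : (0 : ℝ) < (n : ℝ) + 1 := by positivity
  obtain ⟨j0, hj0⟩ := exists_nat_gt (2 * ((n : ℝ) + 1) ^ 2 / δ)
  have hj0pos : (0 : ℝ) < j0 := lt_trans (by positivity) hj0
  have hj0' : ((n : ℝ) + 1) / j0 ≤ δ / (2 * (n + 1)) := by
    rw [div_le_div_iff₀ hj0pos (by positivity)]
    rw [div_lt_iff₀ hδ] at hj0
    nlinarith
  obtain ⟨H, hH⟩ := exists_nat_gt (2 * ((n : ℝ) + 1) * (1 + (Cm : ℝ) * (n + 1) ^ 2) / δ)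
  have hH' : 1 + (Cm : ℝ) * (n + 1) ^ 2 < δ * H / (2 * (n + 1)) := by
    rw [lt_div_iff₀ (by positivity)]
    rw [div_lt_iff₀ hδ] at hH
    linarith
  -- the good points
  let s : ℕ → (Fin (n + 1) × Fin k → ℤ) → ℤ := fun ν z =>
    ∑ b, if Rel (fun b => 𝒮.om (τ.EZ b)) i1 b then τ.val ν b z else 0
  let P2 : ℕ → (Fin (n + 1) × Fin k → ℤ) → Prop := fun ν z =>
    Q ν z ∧ (∀ p ∈ (q' ν).primeFactors, ¬ (p : ℤ) ∣ xval (a ν) (e ν) z i1) ∧
      (¬ ∃ p, Sm p ν z) ∧ bad (q ν) H (s ν z) ^ j0 ≤ 𝒮.F.X ν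
  have hP2 : Large 𝒮.F 𝒮.M (𝒮.sub P2) := by
    by_contra hcon
    have h1 : 𝒮.Small P2 := hcon
    have h2 := (h1.or hSmE).or (hZ1 H j0)
    have h3 : 𝒮.Small (fun ν z => Q ν z ∧
        ∀ p ∈ (q' ν).primeFactors, ¬ (p : ℤ) ∣ xval (a ν) (e ν) z i1) := by
      refine h2.mono (Filter.Eventually.of_forall fun ν z _ hz => ?_)
      by_cases h4 : ∃ p, Sm p ν z
      · exact Or.inl (Or.inr h4)
      · by_cases h5 : bad (q ν) H (s ν z) ^ j0 ≤ 𝒮.F.X ν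
        · exact Or.inl (Or.inl ⟨hz.1, hz.2, h4, h5⟩)
        · exact Or.inr ⟨hz.1, not_le.1 h5⟩
    apply h3
    rw [hM]
    refine large_mono 𝒮.F _ _ _ (Filter.Eventually.of_forall fun ν z hz => ?_) hLs
    rw [Finset.mem_filter, Finset.mem_filter] at hz
    rw [𝒮.mem_sub]
    exact ⟨hz.1.1, hz.1.2, hz.2⟩
  have hsp := hspan (𝒮.sub P2) 𝒮.sub_subset hP2
  -- a good index
  obtain ⟨ν, ⟨⟨hz0ν, hspν⟩, ⟨hratν, hptsν⟩⟩, ⟨⟨hqRν, hq'ν⟩, ⟨hqsν, hfacν⟩⟩⟩ :=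
    (((hz0.and hsp).and (hratE.and hF.pts)).and
      ((hqR.and hq').and (hq.1.and (𝒮.F.tends (n + 1).factorial)))).exists
  have hX2 := 𝒮.F.two_le ν
  have hXR : (1 : ℝ) ≤ (𝒮.F.X ν : ℝ) := by exact_mod_cast (by omega : 1 ≤ 𝒮.F.X ν)
  -- the class
  let I : Type := {i : Fin (n + 1) // Rel (fun b => 𝒮.om (τ.EZ b)) i1 i}
  have hIfin : Fintype I := Fintype.ofFinite _
  have hIcard : Fintype.card I ≤ n + 1 := by
    have := Fintype.card_subtype_le (fun i : Fin (n + 1) => Rel (fun b => 𝒮.om (τ.EZ b)) i1 i)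
    rw [Fintype.card_fin] at this
    convert this
  let i1' : I := ⟨i1, rel_refl _ i1⟩
  have hsumI : ∀ z : Fin (n + 1) × Fin k → ℤ,
      ∑ i : I, xval (a ν) (e ν) z i.1 = s ν z := by
    intro z
    have h1 : s ν z = ∑ b ∈ Finset.univ.filter (fun b => Rel (fun b => 𝒮.om (τ.EZ b)) i1 b),
        xval (a ν) (e ν) z b := by
      rw [Finset.sum_filter]
      exact Finset.sum_congr rfl fun b _ => by rw [hval]
    rw [h1]
    exact (Finset.sum_subtype _ (fun b => by simp) _).symm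
  have hsumI' : ∑ i : I, xval (a ν) (e ν) (z0 ν) i.1 =
      ∑ i ∈ Finset.univ.filter (fun b => Rel (fun b => 𝒮.om (τ.EZ b)) i1 b),
        xval (a ν) (e ν) (z0 ν) i :=
    (Finset.sum_subtype _ (fun b => by simp) _).symm
  have hZfl : (⌊(𝒮.F.X ν : ℝ) ^ (1 / (j0 : ℝ))⌋₊ : ℝ) ≤ (𝒮.F.X ν : ℝ) ^ (1 / (j0 : ℝ)) :=
    Nat.floor_le (by positivity)
  have hZ1' : 1 ≤ ⌊(𝒮.F.X ν : ℝ) ^ (1 / (j0 : ℝ))⌋₊ := by
    apply Nat.le_floor
    rw [Nat.cast_one]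
    exact Real.one_le_rpow hXR (by positivity)
  have key := val_bound (I := I) i1' (fun i => xval (a ν) (e ν) (z0 ν) i.1) (fun i => ?_)
    (fun z i => xval (a ν) (e ν) z i.1) ((𝒮.sub P2 ν : Finset _) : Set _) (𝒮.F.X ν ^ Cm)
    ⌊(𝒮.F.X ν : ℝ) ^ (1 / (j0 : ℝ))⌋₊ H (q' ν) (Nat.one_le_pow _ _ (by omega)) hZ1' ?_ ?_ ?_ ?_ ?_
  · -- sizes
    have hsq : Squarefree (q' ν) := hqsν.1.squarefree_of_dvd hq'ν.1
    rw [Nat.prod_primeFactors_of_squarefree hsq] at key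
    have hj0n : 0 < j0 := by exact_mod_cast hj0pos
    exact sizes n (Fintype.card I) Cm j0 H (q' ν) _ (𝒮.F.X ν) δ hIcard hX2 hfacν hj0n hj0' hH'
      hq'ν.2 hZ1' hZfl key
  · -- nonzero
    have h1 := (hptsν _ hz0ν.1).2.2.2.1 {i.1} (Finset.singleton_nonempty _)
    rwa [Finset.sum_singleton] at h1
  · -- span
    have h1 := hspν (z0 ν) hz0ν.1
    have h2 := Submodule.mem_map_of_mem (f := LinearMap.funLeft ℚ ℚ (fun i : I => i.1)) h1
    rw [Submodule.map_span, Set.image_image] at h2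
    exact h2
  · -- ratios
    intro z hz i
    rw [Finset.mem_coe, 𝒮.mem_sub] at hz
    have hr : Rel (fun i : Fin (n + 1) => 𝒮.om (ei eZ i)) i.1 i1 := rel_symm _ i.2
    obtain ⟨A, B, hA1, hA2, hB1, hB2, hAB⟩ := hratν ⟨(i.1, i1), hr⟩ z hz.1 (z0 ν) hz0ν.1
      (fun h => hz.2.2.2.1 ⟨_, h⟩) (fun h => hz0ν.2 ⟨_, h⟩)
    have hpow : 𝒮.F.X ν ^ C ⟨(i.1, i1), hr⟩ ≤ 𝒮.F.X ν ^ Cm :=
      Nat.pow_le_pow_right (by omega) (hCm _)
    refine ⟨A, B, hA1, hA2.trans hpow, hB1, hB2.trans hpow, ?_⟩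
    show (a ν i.1 * ∏ j, z (i.1, j) ^ e ν i.1 j) * (a ν i1 * ∏ j, z0 ν (i1, j) ^ e ν i1 j) * (B : ℤ) =
      (a ν i1 * ∏ j, z (i1, j) ^ e ν i1 j) * (a ν i.1 * ∏ j, z0 ν (i.1, j) ^ e ν i.1 j) * (A : ℤ)
    have h3 : (∏ j, z (i.1, j) ^ e ν i.1 j) * (∏ j, z0 ν (i1, j) ^ e ν i1 j) * (B : ℤ) =
      (∏ j, z (i1, j) ^ e ν i1 j) * (∏ j, z0 ν (i.1, j) ^ e ν i.1 j) * (A : ℤ) := hAB
    linear_combination (a ν i.1 * a ν i1) * h3
  · -- the primes do not divide the class sum at `z0`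
    intro p hp hd
    have hpq : p ∈ (q ν).primeFactors := by
      rw [Nat.mem_primeFactors] at hp ⊢
      exact ⟨hp.1, hp.2.1.trans hq'ν.1, hqsν.1.ne_zero⟩
    rw [hsumI'] at hd
    refine hqRν.2 p hpq ((Int.natCast_dvd.1 hd).trans (hR0J ν _ ⟨i1, ?_⟩))
    rw [Finset.mem_filter]
    exact ⟨Finset.mem_univ _, rel_refl _ i1⟩
  · intro z hz p hp
    rw [Finset.mem_coe, 𝒮.mem_sub] at hz
    exact hz.2.2.1 p hp
  · intro z hz
    rw [Finset.mem_coe, 𝒮.mem_sub] at hz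
    show bad (q' ν) H (∑ i : I, xval (a ν) (e ν) z i.1) ≤ _
    rw [hsumI z]
    have h1 : bad (q' ν) H (s ν z) ≤ bad (q ν) H (s ν z) := by
      unfold bad
      refine Finset.prod_le_prod_of_subset_of_one_le' ?_ ?_
      · intro p hp
        rw [Finset.mem_filter] at hp ⊢
        refine ⟨?_, hp.2⟩
        have h2 := hp.1
        rw [Nat.mem_primeFactors] at h2 ⊢
        exact ⟨h2.1, h2.2.1.trans hq'ν.1, hqsν.1.ne_zero⟩
      · intro p hp _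
        exact (Nat.prime_of_mem_primeFactors (Finset.mem_filter.1 hp).1).one_lt.le
    refine h1.trans (Nat.le_floor ?_)
    have h2 : ((bad (q ν) H (s ν z) : ℕ) : ℝ) ^ j0 ≤ (𝒮.F.X ν : ℝ) := by exact_mod_cast hz.2.2.2.2
    have hj0n : j0 ≠ 0 := by
      intro h
      rw [h] at hj0pos
      norm_num at hj0pos
    calc ((bad (q ν) H (s ν z) : ℕ) : ℝ) =
        (((bad (q ν) H (s ν z) : ℕ) : ℝ) ^ j0) ^ (1 / (j0 : ℝ)) := by
          rw [one_div, Real.pow_rpow_inv_natCast (Nat.cast_nonneg _) hj0n]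
      _ ≤ _ := Real.rpow_le_rpow (by positivity) h2 (by positivity)

theorem NS_falseT (F : Frame) {n k : ℕ} {m : ℕ → ℕ} {S : ℕ → Finset ℕ}
    {a : ℕ → Fin (n + 1) → ℤ} {e : ℕ → Fin (n + 1) → Fin k → ℕ}
    {T : ℕ → Finset (Fin (n + 1) × Fin k → ℤ)} (hF : Fam F m S a e T)
    (hL : Large F (code a e) T) : False := by
  obtain ⟨T', hT', hL', hspan⟩ := exists_span_min F (code a e) T hL
    (fun ν z (i : Fin (n + 1)) => ((xval (a ν) (e ν) z i : ℤ) : ℚ))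
  obtain ⟨T1, hT1, hL1, hprime, hmax⟩ := exists_maximal F (code a e) T'
    (fun ν z hz => hF.bdd ν z (hT' ν hz)) hL'
  refine NS_coreT (⟨F, code a e, T1, fun ν z hz => hF.bdd ν z (hT' ν (hT1 ν hz)), hL1, hprime,
    hmax⟩ : Setup (Fin (n + 1) × Fin k)) (hF.mono fun ν => (hT1 ν).trans (hT' ν)) rfl ?_
  intro T'' hT'' hL''
  filter_upwards [hspan T'' (fun ν => (hT'' ν).trans (hT1 ν)) hL''] with ν h z hz
  exact h z (hT1 ν hz)

end Pool.Agent.Helper93.TS
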