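import Pool.Agent.Helper91.CPX.Taylor

/-!
TS-01 TaylorQ (project TS, MP_464c42_nt). Taylor expansion with an explicit quadratic remainder.

Proof. Induction on `g` (`MvPolynomial.induction_on`, compare `taylor_sq` in CPX/Taylor.lean). Constants: `h = 0`, all derivatives vanish.
Sums: add the `h`. `p * X n`: let `h` be the functions for `p`, `A = aeval (fun i => C (Q0 i) + c i)`. Then
`A (p * X n) = A p * (C (Q0 n) + c n)` and `pderiv i (p * X n) = pderiv i p * X n + p * (if i = n then 1 else 0)`, so
`h' i j = h i j * (C (Q0 n) + c n) + (if j = n then C (eval Q0 (pderiv i p)) else 0)` works: the additional sum is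
`∑ i, c i * c n * C (eval Q0 (pderiv i p))`.
-/

set_option autoImplicit false

open MvPolynomial

namespace Pool.Agent.Helper93.TS

theorem taylor_quad {σ τ : Type} [Fintype σ] [DecidableEq σ] (g : MvPolynomial σ ℤ) (Q0 : σ → ℤ)
    (c : σ → MvPolynomial τ ℤ) :
    ∃ h : σ → σ → MvPolynomial τ ℤ,
      aeval (fun i => C (Q0 i) + c i) g =
        C (eval Q0 g) + ∑ i, C (eval Q0 (pderiv i g)) * c i + ∑ i, ∑ j, c i * c j * h i j := by
  induction g using MvPolynomial.induction_on with
  | C a =>
    refine ⟨fun _ _ => 0, ?_⟩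
    simp only [pderiv_C, map_zero, zero_mul, mul_zero, Finset.sum_const_zero, add_zero, eval_C]
    exact aeval_C _ a
  | add p q hp hq =>
    obtain ⟨h1, e1⟩ := hp
    obtain ⟨h2, e2⟩ := hq
    refine ⟨fun i j => h1 i j + h2 i j, ?_⟩
    rw [map_add, e1, e2]
    simp only [map_add, add_mul, mul_add, Finset.sum_add_distrib]
    ring
  | mul_X p n hp =>
    obtain ⟨h, e⟩ := hp
    refine ⟨fun i j => h i j * (C (Q0 n) + c n) + (if j = n then C (eval Q0 (pderiv i p)) else 0), ?_⟩
    rw [map_mul, e, aeval_X]
    have e1 : ∀ i, eval Q0 (pderiv i (p * X n)) =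
        eval Q0 (pderiv i p) * Q0 n + eval Q0 p * (if i = n then 1 else 0) := by
      intro i
      rw [pderiv_mul, pderiv_X, map_add, map_mul, map_mul, eval_X, Pi.single_apply]
      congr 2
      by_cases hi : i = n
      · rw [if_pos hi, if_pos hi.symm, map_one]
      · rw [if_neg hi, if_neg (Ne.symm hi), map_zero]
    have e2 : ∑ i, C (eval Q0 (pderiv i (p * X n))) * c i =
        (∑ i, C (eval Q0 (pderiv i p)) * c i) * C (Q0 n) + C (eval Q0 p) * c n := by
      have e3 : ∀ i ∈ Finset.univ, (C (eval Q0 (pderiv i (p * X n))) : MvPolynomial τ ℤ) * c i =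
          C (eval Q0 (pderiv i p)) * c i * C (Q0 n) + (if i = n then C (eval Q0 p) * c n else 0) := by
        intro i _
        rw [e1, map_add, map_mul, map_mul]
        by_cases hi : i = n
        · subst hi
          rw [if_pos rfl, if_pos rfl, map_one]
          ring
        · rw [if_neg hi, if_neg hi, map_zero]
          ring
      rw [Finset.sum_congr rfl e3, Finset.sum_add_distrib, Finset.sum_mul, Finset.sum_ite_eq' Finset.univ n,
        if_pos (Finset.mem_univ n)]
    have e4 : ∑ i, ∑ j, c i * c j * (h i j * (C (Q0 n) + c n) + (if j = n then C (eval Q0 (pderiv i p)) else 0)) =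
        (∑ i, ∑ j, c i * c j * h i j) * (C (Q0 n) + c n) + (∑ i, C (eval Q0 (pderiv i p)) * c i) * c n := by
      rw [Finset.sum_mul, Finset.sum_mul, ← Finset.sum_add_distrib]
      refine Finset.sum_congr rfl fun i _ => ?_
      have e5 : ∀ j ∈ Finset.univ, c i * c j * (h i j * (C (Q0 n) + c n) +
          (if j = n then C (eval Q0 (pderiv i p)) else 0)) =
          c i * c j * h i j * (C (Q0 n) + c n) + (if j = n then C (eval Q0 (pderiv i p)) * c i * c n else 0) := by
        intro j _
        by_cases hj : j = n
        · subst hj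
          rw [if_pos rfl, if_pos rfl]
          ring
        · rw [if_neg hj, if_neg hj]
          ring
      rw [Finset.sum_congr rfl e5, Finset.sum_add_distrib, Finset.sum_mul, Finset.sum_ite_eq' Finset.univ n,
        if_pos (Finset.mem_univ n)]
    rw [e2, e4, map_mul, eval_X, map_mul]
    ring

end Pool.Agent.Helper93.TS
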